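import Mathlib

namespace Aloha

open ENNReal

theorem normalize {X : Type*} (K : X → X → ℝ≥0∞) (G : X → ℝ≥0∞) (h1 : ∑' y, G y ≠ ∞)
    (h2 : ∑' y, G y ≠ 0) (hinv : ∀ y, ∑' x, G x * K x y = G y) :
    ∃ μ : X → ℝ≥0∞, ∑' x, μ x = 1 ∧ ∀ y, μ y = ∑' x, μ x * K x y := by
  refine ⟨fun x => G x * (∑' z, G z)⁻¹, ?_, ?_⟩
  · rw [ENNReal.tsum_mul_right]
    exact ENNReal.mul_inv_cancel h2 h1
  · intro y
    generalize (∑' z, G z)⁻¹ = c
    have h3 : ∀ x, G x * c * K x y = G x * K x y * c := fun x => by ring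
    simp_rw [h3]
    rw [ENNReal.tsum_mul_right, hinv y]

theorem last_point {X : Type*} (F G : X → ℝ≥0∞) (x0 : X)
    (hne : ∀ y, y ≠ x0 → F y = G y) (htot : ∑' y, F y = ∑' y, G y) (hfin : ∑' y, G y ≠ ∞) :
    F x0 = G x0 := by
  classical
  have a := ENNReal.tsum_eq_add_tsum_ite (f := F) x0
  have b := ENNReal.tsum_eq_add_tsum_ite (f := G) x0
  have h2 : (∑' n, if n = x0 then 0 else F n) = ∑' n, if n = x0 then 0 else G n := by
    congr 1
    funext n
    by_cases hn : n = x0
    · rw [if_pos hn, if_pos hn]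
    · rw [if_neg hn, if_neg hn, hne n hn]
  rw [a, b, h2] at htot
  have hfin' : (∑' n, if n = x0 then 0 else G n) ≠ ∞ := by
    refine ne_top_of_le_ne_top hfin (ENNReal.tsum_le_tsum (fun n => ?_))
    split_ifs
    · exact zero_le
    · exact le_rfl
  exact (ENNReal.add_left_inj hfin').mp htot

/-- Regenerative Foster lemma. -/
theorem foster {X : Type*} [DecidableEq X] (K : X → X → ℝ≥0∞) (hK : ∀ x, ∑' y, K x y = 1) (x0 : X)
    (V : X → ℝ≥0∞) (hV : ∀ x, x ≠ x0 → 1 + ∑' y, K x y * (if y = x0 then 0 else V y) ≤ V x)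
    (hV0 : ∑' y, K x0 y * (if y = x0 then 0 else V y) ≠ ∞) :
    ∃ μ : X → ℝ≥0∞, ∑' x, μ x = 1 ∧ ∀ y, μ y = ∑' x, μ x * K x y := by
  classical
  set V' : X → ℝ≥0∞ := fun y => if y = x0 then 0 else V y with hV'
  let u : ℕ → X → ℝ≥0∞ := fun n => Nat.rec (fun y => if y = x0 then 1 else 0)
    (fun _ v y => if y = x0 then 0 else ∑' x, v x * K x y) n
  have u0 : ∀ y, u 0 y = if y = x0 then 1 else 0 := fun y => rfl
  have us : ∀ n y, u (n + 1) y = if y = x0 then 0 else ∑' x, u n x * K x y := fun n y => rfl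
  have usx0 : ∀ n, u (n + 1) x0 = 0 := fun n => by rw [us, if_pos rfl]
  -- expectation of V'
  have hstep : ∀ n, ∑' y, u (n + 1) y * V' y = ∑' x, u n x * ∑' y, K x y * V' y := by
    intro n
    have h1 : ∀ y, u (n + 1) y * V' y = ∑' x, u n x * K x y * V' y := by
      intro y
      rw [us]
      by_cases hy : y = x0
      · rw [if_pos hy]
        have : V' y = 0 := by rw [hV']; simp [hy]
        simp [this]
      · rw [if_neg hy, ENNReal.tsum_mul_right]
    simp_rw [h1]
    rw [ENNReal.tsum_comm]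
    congr 1
    funext x
    rw [← ENNReal.tsum_mul_left]
    congr 1
    funext y
    ring
  have hdec : ∀ n, (∑' y, u (n + 1) y) + ∑' y, u (n + 2) y * V' y ≤ ∑' y, u (n + 1) y * V' y := by
    intro n
    rw [hstep (n + 1), ← ENNReal.tsum_add]
    refine ENNReal.tsum_le_tsum (fun x => ?_)
    by_cases hx : x = x0
    · rw [hx, usx0]; simp
    · have h1 := hV x hx
      have h2 : V' x = V x := by rw [hV']; simp [hx]
      rw [h2]
      calc u (n + 1) x + u (n + 1) x * ∑' y, K x y * V' y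
          = u (n + 1) x * (1 + ∑' y, K x y * V' y) := by ring
        _ ≤ u (n + 1) x * V x := mul_le_mul_right h1 _
  have hsum : ∀ n, (∑ k ∈ Finset.range n, ∑' y, u (k + 1) y) + ∑' y, u (n + 1) y * V' y ≤
      ∑' y, u 1 y * V' y := by
    intro n
    induction n with
    | zero => simp
    | succ n ih =>
      rw [Finset.sum_range_succ, add_assoc]
      exact le_trans (add_le_add_right (hdec n) _) ih
  have hC : ∑' y, u 1 y * V' y ≠ ∞ := by
    show (∑' y, u (0 + 1) y * V' y) ≠ ∞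
    rw [hstep 0]
    have : ∀ x, u 0 x * ∑' y, K x y * V' y = if x = x0 then ∑' y, K x0 y * V' y else 0 := by
      intro x
      rw [u0]
      split_ifs with h
      · rw [h, one_mul]
      · rw [zero_mul]
    simp_rw [this]
    rw [tsum_ite_eq]
    exact hV0
  set G : X → ℝ≥0∞ := fun y => ∑' n, u n y with hG
  have hmass0 : ∑' y, u 0 y = 1 := by
    simp_rw [u0]; rw [tsum_ite_eq]
  have hGsum : ∑' y, G y ≠ ∞ := by
    rw [hG, ENNReal.tsum_comm, tsum_eq_zero_add' ENNReal.summable, hmass0]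
    refine ENNReal.add_ne_top.mpr ⟨ENNReal.one_ne_top, ?_⟩
    refine ne_top_of_le_ne_top hC ?_
    rw [ENNReal.tsum_eq_iSup_nat]
    refine iSup_le (fun n => ?_)
    exact le_trans le_self_add (hsum n)
  have hG0 : G x0 = 1 := by
    rw [hG]
    show ∑' n, u n x0 = 1
    rw [tsum_eq_zero_add' ENNReal.summable, u0, if_pos rfl]
    simp only [usx0, tsum_zero, add_zero]
  have hGy : ∀ y, y ≠ x0 → ∑' x, G x * K x y = G y := by
    intro y hy
    have h1 : G y = ∑' n, u (n + 1) y := by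
      show ∑' n, u n y = _
      rw [tsum_eq_zero_add' ENNReal.summable, u0, if_neg hy, zero_add]
    rw [h1]
    simp_rw [us, if_neg hy]
    rw [ENNReal.tsum_comm]
    congr 1
    funext x
    show (∑' n, u n x) * K x y = _
    rw [ENNReal.tsum_mul_right]
  have htot : ∑' y, ∑' x, G x * K x y = ∑' x, G x := by
    rw [ENNReal.tsum_comm]
    congr 1
    funext x
    rw [ENNReal.tsum_mul_left, hK, mul_one]
  have hGinv : ∀ y, ∑' x, G x * K x y = G y := by
    intro y
    by_cases hy : y = x0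
    · rw [hy]
      exact last_point (fun y => ∑' x, G x * K x y) G x0 hGy htot hGsum
    · exact hGy y hy
  have hGpos : ∑' y, G y ≠ 0 := by
    intro h
    have := ENNReal.tsum_eq_zero.mp h x0
    rw [hG0] at this
    exact one_ne_zero this
  exact normalize K G hGsum hGpos hGinv

end Aloha
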