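import Pool.Agent.Helper29.Aloha1

namespace Aloha

open ENNReal

noncomputable def pois (lam : ℝ) (A : ℕ) : ℝ := Real.exp (-lam) * lam ^ A / (A.factorial : ℝ)

theorem pois_nonneg {lam : ℝ} (h : 0 ≤ lam) (A : ℕ) : 0 ≤ pois lam A := by
  unfold pois; positivity

theorem hasSum_pois_pow (lam c : ℝ) :
    HasSum (fun A => pois lam A * c ^ A) (Real.exp (-lam) * Real.exp (lam * c)) := by
  have h := (NormedSpace.expSeries_div_hasSum_exp (lam * c)).mul_left (Real.exp (-lam))
  rw [← Real.exp_eq_exp_ℝ] at h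
  refine h.congr_fun ?_
  intro A
  unfold pois
  rw [mul_pow]; ring

theorem hasSum_pois (lam : ℝ) : HasSum (fun A => pois lam A) 1 := by
  have h := hasSum_pois_pow lam 1
  rw [mul_one, ← Real.exp_add, neg_add_cancel, Real.exp_zero] at h
  refine h.congr_fun (fun A => by rw [one_pow, mul_one])

theorem hasSum_pois_two (lam : ℝ) : HasSum (fun A => pois lam A * 2 ^ A) (Real.exp lam) := by
  have h := hasSum_pois_pow lam 2
  rw [← Real.exp_add, show -lam + lam * 2 = lam by ring] at h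
  exact h

theorem pois_succ (lam : ℝ) (A : ℕ) : pois lam (A + 1) * ((A + 1 : ℕ) : ℝ) = lam * pois lam A := by
  unfold pois
  rw [Nat.factorial_succ, pow_succ]
  have : ((A.factorial : ℕ) : ℝ) ≠ 0 := by positivity
  have h2 : ((A + 1 : ℕ) : ℝ) ≠ 0 := by positivity
  push_cast at h2 ⊢
  field_simp

theorem hasSum_pois_id (lam : ℝ) : HasSum (fun A => pois lam A * (A : ℝ)) lam := by
  rw [← hasSum_nat_add_iff' 1]
  simp only [Finset.range_one, Finset.sum_singleton, Nat.cast_zero, mul_zero, sub_zero]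
  have h := (hasSum_pois lam).mul_left lam
  rw [mul_one] at h
  refine h.congr_fun (fun A => ?_)
  exact pois_succ lam A

theorem hasSum_pois_fac (lam : ℝ) :
    HasSum (fun A => pois lam A * ((A : ℝ) * ((A : ℝ) - 1))) (lam ^ 2) := by
  rw [← hasSum_nat_add_iff' 1]
  simp only [Finset.range_one, Finset.sum_singleton, Nat.cast_zero, zero_mul, mul_zero, sub_zero]
  have h := (hasSum_pois_id lam).mul_left lam
  rw [← pow_two] at h
  refine h.congr_fun (fun A => ?_)
  have := pois_succ lam A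
  show pois lam (A + 1) * (((A + 1 : ℕ) : ℝ) * (((A + 1 : ℕ) : ℝ) - 1)) = lam * (pois lam A * A)
  rw [← mul_assoc, this]
  push_cast; ring

theorem hasSum_pois_zero (lam : ℝ) :
    HasSum (fun A => pois lam A * (if A = 0 then 1 else 0)) (Real.exp (-lam)) := by
  have h := hasSum_ite_eq (0 : ℕ) (Real.exp (-lam))
  refine h.congr_fun (fun A => ?_)
  by_cases hA : A = 0
  · subst hA; simp [pois]
  · simp [hA]

/-- expectation of a nonnegative function of the number of arrivals -/
noncomputable def Ex (lam : ℝ) (g : ℕ → ℝ≥0∞) : ℝ≥0∞ := ∑' A, ENNReal.ofReal (pois lam A) * g A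

theorem Ex_le {lam : ℝ} (hlam : 0 ≤ lam) {g : ℕ → ℝ≥0∞} {c0 c1 c2 c3 c4 : ℝ}
    (h0 : 0 ≤ c0) (h1 : 0 ≤ c1) (h2 : 0 ≤ c2) (h3 : 0 ≤ c3) (h4 : 0 ≤ c4)
    (h : ∀ A : ℕ, g A ≤ ENNReal.ofReal (c0 + c1 * A + c2 * 2 ^ A + c3 * (if A = 0 then 1 else 0) +
      c4 * ((A : ℝ) * ((A : ℝ) - 1)))) :
    Ex lam g ≤ ENNReal.ofReal (c0 + c1 * lam + c2 * Real.exp lam + c3 * Real.exp (-lam) +
      c4 * lam ^ 2) := by
  have hs : HasSum (fun A : ℕ => pois lam A * (c0 + c1 * A + c2 * 2 ^ A +
      c3 * (if A = 0 then 1 else 0) + c4 * ((A : ℝ) * ((A : ℝ) - 1))))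
      (c0 + c1 * lam + c2 * Real.exp lam + c3 * Real.exp (-lam) + c4 * lam ^ 2) := by
    have a0 := (hasSum_pois lam).mul_left c0
    have a1 := (hasSum_pois_id lam).mul_left c1
    have a2 := (hasSum_pois_two lam).mul_left c2
    have a3 := (hasSum_pois_zero lam).mul_left c3
    have a4 := (hasSum_pois_fac lam).mul_left c4
    have a := (((a0.add a1).add a2).add a3).add a4
    rw [mul_one] at a
    refine a.congr_fun (fun A => by ring)
  have hfac : ∀ A : ℕ, 0 ≤ (A : ℝ) * ((A : ℝ) - 1) := by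
    intro A
    rcases Nat.eq_zero_or_pos A with hA | hA
    · subst hA; simp
    · have : (1 : ℝ) ≤ A := by exact_mod_cast hA
      exact mul_nonneg (by linarith) (by linarith)
  have hnn : ∀ A : ℕ, 0 ≤ c0 + c1 * A + c2 * 2 ^ A + c3 * (if A = 0 then 1 else 0) +
      c4 * ((A : ℝ) * ((A : ℝ) - 1)) := by
    intro A
    have := mul_nonneg h4 (hfac A)
    have : 0 ≤ c3 * (if A = 0 then (1:ℝ) else 0) := by split_ifs <;> simp [h3]
    positivity
  rw [← hs.tsum_eq, ENNReal.ofReal_tsum_of_nonneg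
    (fun A => mul_nonneg (pois_nonneg hlam A) (hnn A)) hs.summable]
  unfold Ex
  refine ENNReal.tsum_le_tsum (fun A => ?_)
  rw [ENNReal.ofReal_mul (pois_nonneg hlam A)]
  exact mul_le_mul_right (h A) _

/-- success probability with `w` packets and attempt probability `p` -/
noncomputable def suc (w : ℕ) (p : ℝ) : ℝ := (w : ℝ) * p * (1 - p) ^ (w - 1)

theorem suc_nonneg {w : ℕ} {p : ℝ} (h0 : 0 ≤ p) (h1 : p ≤ 1) : 0 ≤ suc w p := by
  unfold suc
  have : 0 ≤ 1 - p := by linarith
  positivity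

theorem suc_le_one {w : ℕ} {p : ℝ} (h0 : 0 ≤ p) (h1 : p ≤ 1) : suc w p ≤ 1 := by
  unfold suc
  rcases Nat.eq_zero_or_pos w with hw | hw
  · subst hw; simp
  · obtain ⟨v, rfl⟩ : ∃ v, w = v + 1 := ⟨w - 1, by omega⟩
    have h := add_pow p (1 - p) (v + 1)
    rw [show p + (1 - p) = 1 by ring, one_pow] at h
    have hs : p ^ 1 * (1 - p) ^ (v + 1 - 1) * ((v + 1).choose 1 : ℝ) ≤
        ∑ m ∈ Finset.range (v + 1 + 1), p ^ m * (1 - p) ^ (v + 1 - m) * ((v + 1).choose m : ℝ) := by
      have h1p : 0 ≤ 1 - p := by linarith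
      exact Finset.single_le_sum (f := fun m => p ^ m * (1 - p) ^ (v + 1 - m) *
        ((v + 1).choose m : ℝ)) (a := 1) (fun i _ => by positivity) (by simp)
    rw [← h, Nat.choose_one_right, pow_one] at hs
    linarith

abbrev Mem := ℕ × ℕ
abbrev X := ℕ × Mem

variable (lam : ℝ) (P : Mem → ℝ) (nxt : Mem → Bool → Mem)

open Classical in
/-- one-step kernel -/
noncomputable def k (x y : X) : ℝ :=
  (if x.1 ≤ y.1 + 1 ∧ nxt x.2 true = y.2 then suc x.1 (P x.2) * pois lam (y.1 + 1 - x.1) else 0) +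
  (if x.1 ≤ y.1 ∧ nxt x.2 false = y.2 then (1 - suc x.1 (P x.2)) * pois lam (y.1 - x.1) else 0)

noncomputable def K (x y : X) : ℝ≥0∞ := ENNReal.ofReal (k lam P nxt x y)

theorem sum_shift (w : ℕ) (m : Mem) (g : ℕ → ℝ≥0∞) (V : X → ℝ≥0∞) :
    (∑' y : X, (open Classical in if w ≤ y.1 ∧ m = y.2 then g (y.1 - w) else 0) * V y) =
      ∑' A, g A * V (w + A, m) := by
  classical
  have hinj : Function.Injective (fun A : ℕ => ((w + A, m) : X)) := by
    intro a b h
    simp only [Prod.mk.injEq] at h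
    omega
  rw [← hinj.tsum_eq]
  · congr 1
    funext A
    simp
  · intro y hy
    rw [Function.mem_support] at hy
    have h1 : w ≤ y.1 ∧ m = y.2 := by
      by_contra h
      apply hy
      rw [if_neg h, zero_mul]
    refine ⟨y.1 - w, ?_⟩
    show ((w + (y.1 - w), m) : X) = y
    rw [Nat.add_sub_cancel' h1.1, h1.2]

theorem K_sum (hlam : 0 ≤ lam) (hP : ∀ m, P m ∈ Set.Icc (0:ℝ) 1) (V : X → ℝ≥0∞) (w : ℕ) (m : Mem) :
    ∑' y, K lam P nxt (w, m) y * V y =
      ENNReal.ofReal (suc w (P m)) * Ex lam (fun A => V (w - 1 + A, nxt m true)) +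
      ENNReal.ofReal (1 - suc w (P m)) * Ex lam (fun A => V (w + A, nxt m false)) := by
  classical
  have hs0 := suc_nonneg (w := w) (hP m).1 (hP m).2
  have hs1 := suc_le_one (w := w) (hP m).1 (hP m).2
  have hsplit : ∀ y : X, K lam P nxt (w, m) y * V y =
      (if w ≤ y.1 + 1 ∧ nxt m true = y.2 then
        ENNReal.ofReal (suc w (P m) * pois lam (y.1 + 1 - w)) else 0) * V y +
      (if w ≤ y.1 ∧ nxt m false = y.2 then
        ENNReal.ofReal ((1 - suc w (P m)) * pois lam (y.1 - w)) else 0) * V y := by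
    intro y
    rw [← add_mul]
    congr 1
    unfold K k
    rw [ENNReal.ofReal_add]
    · congr 1
      · split_ifs <;> simp
      · split_ifs <;> simp
    · split_ifs
      · exact mul_nonneg hs0 (pois_nonneg hlam _)
      · exact le_rfl
    · split_ifs
      · exact mul_nonneg (by linarith) (pois_nonneg hlam _)
      · exact le_rfl
  simp_rw [hsplit]
  rw [ENNReal.tsum_add]
  congr 1
  · rcases Nat.eq_zero_or_pos w with hw | hw
    · subst hw
      have : suc 0 (P m) = 0 := by simp [suc]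
      simp [this]
    · have e : ∀ y : X, (if w ≤ y.1 + 1 ∧ nxt m true = y.2 then
          ENNReal.ofReal (suc w (P m) * pois lam (y.1 + 1 - w)) else 0) * V y =
          (if w - 1 ≤ y.1 ∧ nxt m true = y.2 then
          (fun A => ENNReal.ofReal (suc w (P m) * pois lam A)) (y.1 - (w - 1)) else 0) * V y := by
        intro y
        have h1 : w ≤ y.1 + 1 ↔ w - 1 ≤ y.1 := by omega
        have h2 : y.1 + 1 - w = y.1 - (w - 1) := by omega
        rw [h2]
        simp only [h1]
      simp_rw [e]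
      have h5 := sum_shift (w - 1) (nxt m true)
        (fun A => ENNReal.ofReal (suc w (P m) * pois lam A)) V
      rw [h5]
      unfold Ex
      rw [← ENNReal.tsum_mul_left]
      congr 1
      funext A
      rw [ENNReal.ofReal_mul hs0, mul_assoc]
  · have := sum_shift w (nxt m false) (fun A => ENNReal.ofReal ((1 - suc w (P m)) * pois lam A)) V
    rw [this]
    unfold Ex
    rw [← ENNReal.tsum_mul_left]
    congr 1
    funext A
    rw [ENNReal.ofReal_mul (by linarith), mul_assoc]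

theorem Ex_one (hlam : 0 ≤ lam) : Ex lam (fun _ => 1) = 1 := by
  unfold Ex
  simp only [mul_one]
  rw [← ENNReal.ofReal_tsum_of_nonneg (pois_nonneg hlam) (hasSum_pois lam).summable,
    (hasSum_pois lam).tsum_eq, ENNReal.ofReal_one]

theorem K_row (hlam : 0 ≤ lam) (hP : ∀ m, P m ∈ Set.Icc (0:ℝ) 1) (x : X) :
    ∑' y, K lam P nxt x y = 1 := by
  have h := K_sum lam P nxt hlam hP (fun _ => 1) x.1 x.2
  simp only [mul_one] at h
  rw [h, Ex_one lam hlam, mul_one, mul_one, ← ENNReal.ofReal_add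
    (suc_nonneg (hP _).1 (hP _).2) (by have := suc_le_one (w := x.1) (hP x.2).1 (hP x.2).2; linarith)]
  simp

end Aloha
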