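import Pool.Agent.Helper29.Aloha2

namespace Aloha

open ENNReal

theorem k_nonneg (lam : ℝ) (P : Mem → ℝ) (nxt : Mem → Bool → Mem) (hlam : 0 ≤ lam)
    (hP : ∀ m, P m ∈ Set.Icc (0:ℝ) 1) (x y : X) : 0 ≤ k lam P nxt x y := by
  have hs0 := suc_nonneg (w := x.1) (hP x.2).1 (hP x.2).2
  have hs1 := suc_le_one (w := x.1) (hP x.2).1 (hP x.2).2
  unfold k
  apply add_nonneg
  · split_ifs
    · exact mul_nonneg hs0 (pois_nonneg hlam _)
    · exact le_rfl
  · split_ifs
    · exact mul_nonneg (by linarith) (pois_nonneg hlam _)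
    · exact le_rfl

theorem reduction (lam : ℝ) (hlam : 0 < lam) (P : Mem → ℝ) (nxt : Mem → Bool → Mem)
    (hP : ∀ m, P m ∈ Set.Icc (0:ℝ) 1) (hinj : Function.Injective P)
    (μ : X → ℝ≥0∞) (h1 : ∑' x, μ x = 1) (hinv : ∀ y, μ y = ∑' x, μ x * K lam P nxt x y) :
    ∃ lam : ℝ, 0 < lam ∧
      ∃ f : ℝ → Bool → ℝ,
        (∀ p ∈ Set.Icc (0:ℝ) 1, ∀ b : Bool, f p b ∈ Set.Icc (0:ℝ) 1) ∧
        ∃ π : ℕ → ℝ → ℝ,
          (∀ w p, 0 ≤ π w p) ∧
          (∀ w p, π w p ≠ 0 → p ∈ Set.Icc (0:ℝ) 1) ∧
          Summable (fun x : ℕ × ℝ => π x.1 x.2) ∧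
          (∑' x : ℕ × ℝ, π x.1 x.2) = 1 ∧
          ∀ w' : ℕ, ∀ p' : ℝ,
            π w' p' = ∑' x : ℕ × ℝ, π x.1 x.2 *
              ((if x.1 ≤ w' + 1 ∧ f x.2 true = p' then
                  ((x.1 : ℝ) * x.2 * (1 - x.2) ^ (x.1 - 1)) *
                    (Real.exp (-lam) * lam ^ (w' + 1 - x.1) / ((w' + 1 - x.1).factorial : ℝ))
                else 0) +
               (if x.1 ≤ w' ∧ f x.2 false = p' then
                  (1 - (x.1 : ℝ) * x.2 * (1 - x.2) ^ (x.1 - 1)) *
                    (Real.exp (-lam) * lam ^ (w' - x.1) / ((w' - x.1).factorial : ℝ))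
                else 0)) := by
  classical
  set inv := Function.invFun P with hinvd
  have hli : ∀ m, inv (P m) = m := Function.leftInverse_invFun hinj
  have hμtop : ∀ x, μ x ≠ ∞ := by
    intro x
    refine ne_top_of_le_ne_top ENNReal.one_ne_top ?_
    rw [← h1]
    exact ENNReal.le_tsum x
  set f : ℝ → Bool → ℝ := fun p b => if p ∈ Set.range P then P (nxt (inv p) b) else p with hf
  set π : ℕ → ℝ → ℝ := fun w p => if p ∈ Set.range P then (μ (w, inv p)).toReal else 0 with hπ
  have hπP : ∀ w m, π w (P m) = (μ (w, m)).toReal := by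
    intro w m
    simp only [hπ, Set.mem_range_self, if_true, hli]
  have hfP : ∀ m b, f (P m) b = P (nxt m b) := by
    intro m b
    simp only [hf, Set.mem_range_self, if_true, hli]
  set ι : X → ℕ × ℝ := fun x => (x.1, P x.2) with hι
  have hιinj : Function.Injective ι := by
    rintro ⟨a, m⟩ ⟨b, n⟩ h
    simp only [hι, Prod.mk.injEq] at h
    rw [h.1, hinj h.2]
  have hsupp : ∀ g : ℕ × ℝ → ℝ, Function.support (fun x : ℕ × ℝ => π x.1 x.2 * g x) ⊆
      Set.range ι := by
    intro g x hx
    rw [Function.mem_support] at hx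
    by_cases hr : x.2 ∈ Set.range P
    · obtain ⟨m, hm⟩ := hr
      exact ⟨(x.1, m), by simp only [hι, hm]⟩
    · exfalso; apply hx
      simp only [hπ, if_neg hr, zero_mul]
  have hsupp1 : Function.support (fun x : ℕ × ℝ => π x.1 x.2) ⊆ Set.range ι := by
    have := hsupp (fun _ => 1)
    simpa using this
  refine ⟨lam, hlam, f, ?_, π, ?_, ?_, ?_, ?_, ?_⟩
  · intro p hp b
    by_cases hr : p ∈ Set.range P
    · obtain ⟨m, rfl⟩ := hr
      rw [hfP]; exact hP _
    · simp only [hf, if_neg hr]; exact hp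
  · intro w p
    simp only [hπ]
    split_ifs
    · exact ENNReal.toReal_nonneg
    · exact le_rfl
  · intro w p h
    by_cases hr : p ∈ Set.range P
    · obtain ⟨m, rfl⟩ := hr; exact hP _
    · exfalso; apply h; simp only [hπ, if_neg hr]
  · have hs : Summable (fun x : X => (μ x).toReal) := ENNReal.summable_toReal (by rw [h1]; simp)
    rw [← hιinj.summable_iff]
    · refine hs.congr (fun x => ?_)
      exact (hπP x.1 x.2).symm
    · intro x hx
      by_contra hne
      exact hx (hsupp1 hne)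
  · rw [← hιinj.tsum_eq hsupp1]
    have : ∀ x : X, π (ι x).1 (ι x).2 = (μ x).toReal := fun x => hπP x.1 x.2
    simp_rw [this]
    rw [← ENNReal.tsum_toReal_eq hμtop, h1, ENNReal.toReal_one]
  · intro w' p'
    rw [← hιinj.tsum_eq (hsupp _)]
    by_cases hr : p' ∈ Set.range P
    · obtain ⟨m', rfl⟩ := hr
      rw [hπP, hinv (w', m'), ENNReal.tsum_toReal_eq]
      · congr 1
        funext x
        rw [ENNReal.toReal_mul]
        have e1 : (K lam P nxt x (w', m')).toReal = k lam P nxt x (w', m') :=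
          ENNReal.toReal_ofReal (k_nonneg lam P nxt hlam.le hP x (w', m'))
        rw [e1]
        have e2 : π (ι x).1 (ι x).2 = (μ x).toReal := hπP x.1 x.2
        rw [e2]
        congr 1
        have e3 : ∀ b, f (ι x).2 b = P m' ↔ nxt x.2 b = m' := by
          intro b
          show f (P x.2) b = P m' ↔ _
          rw [hfP]
          exact hinj.eq_iff
        simp only [e3]
        unfold k suc pois
        rfl
      · intro x
        exact ENNReal.mul_ne_top (hμtop x) ENNReal.ofReal_ne_top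
    · have hz : π w' p' = 0 := by simp only [hπ, if_neg hr]
      rw [hz]
      symm
      refine (tsum_congr (fun x => ?_)).trans tsum_zero
      have e3 : ∀ b, ¬ f (ι x).2 b = p' := by
        intro b h
        apply hr
        have : f (P x.2) b = p' := h
        rw [hfP] at this
        exact ⟨_, this⟩
      simp only [e3, and_false, if_false, add_zero, mul_zero]

end Aloha
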