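import Pool.Agent.Helper29.Aloha3

namespace Aloha

open ENNReal

/-- variant of `Ex_le` with a pointwise nonnegativity hypothesis -/
theorem Ex_le' {lam : ℝ} (hlam : 0 ≤ lam) {g : ℕ → ℝ≥0∞} {c0 c2 : ℝ}
    (hnn : ∀ A : ℕ, 0 ≤ c0 + c2 * 2 ^ A)
    (h : ∀ A : ℕ, g A ≤ ENNReal.ofReal (c0 + c2 * 2 ^ A)) :
    Ex lam g ≤ ENNReal.ofReal (c0 + c2 * Real.exp lam) := by
  have hs : HasSum (fun A : ℕ => pois lam A * (c0 + c2 * 2 ^ A)) (c0 + c2 * Real.exp lam) := by
    have a0 := (hasSum_pois lam).mul_left c0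
    have a2 := (hasSum_pois_two lam).mul_left c2
    have a := a0.add a2
    rw [mul_one] at a
    refine a.congr_fun (fun A => by ring)
  rw [← hs.tsum_eq, ENNReal.ofReal_tsum_of_nonneg
    (fun A => mul_nonneg (pois_nonneg hlam A) (hnn A)) hs.summable]
  unfold Ex
  refine ENNReal.tsum_le_tsum (fun A => ?_)
  rw [ENNReal.ofReal_mul (pois_nonneg hlam A)]
  exact mul_le_mul_right (h A) _

/-- arrival rate -/
noncomputable def la : ℝ := 1 / 1048576

theorem la_pos : 0 < la := by unfold la; norm_num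

theorem exp_la_le : Real.exp la ≤ 1 + 2 * la := by
  have h := Real.abs_exp_sub_one_sub_id_le (x := la) (by unfold la; rw [abs_of_pos] <;> norm_num)
  have h2 := (abs_le.mp h).2
  have : la ^ 2 ≤ la := by unfold la; norm_num
  linarith

theorem exp_neg_la_le : Real.exp (-la) ≤ 1 - la + la ^ 2 := by
  have h := Real.abs_exp_sub_one_sub_id_le (x := -la)
    (by unfold la; rw [abs_neg, abs_of_pos] <;> norm_num)
  have h2 := (abs_le.mp h).2
  have : (-la) ^ 2 = la ^ 2 := by ring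
  linarith

/-- length of the waiting phase of stage `r` -/
def NN (r : ℕ) : ℕ := 2 ^ (44 + r)

theorem NN_cast (r : ℕ) : (NN r : ℝ) = 2 ^ (44 + r) := by unfold NN; push_cast; rfl

theorem NN_succ (r : ℕ) : (NN (r + 1) : ℝ) = 2 * NN r := by
  rw [NN_cast, NN_cast, ← add_assoc, pow_succ]; ring

theorem NN_ge (r : ℕ) : 17592186044416 ≤ NN r := by
  unfold NN
  rw [pow_add]
  have : 1 ≤ 2 ^ r := Nat.one_le_two_pow
  calc 17592186044416 = 2 ^ 44 * 1 := by norm_num
    _ ≤ 2 ^ 44 * 2 ^ r := Nat.mul_le_mul_left _ this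

theorem NN_ge' (r : ℕ) : (17592186044416 : ℝ) ≤ NN r := by exact_mod_cast NN_ge r

theorem NN_zero : (NN 0 : ℝ) = 17592186044416 := by rw [NN_cast]; norm_num

theorem NN_mono0 (r : ℕ) : (NN 0 : ℝ) ≤ NN r := by rw [NN_zero]; exact NN_ge' r

/-- total length of stage `r` -/
def TT (r : ℕ) : ℕ := NN r + (6000 + (NN r - 640))

/-- memory update -/
def nx (m : Mem) (b : Bool) : Mem :=
  if b then (if m.2 < NN m.1 then (0, TT 0 - 1) else (m.1, m.2 - 1))
  else (if m.2 = 0 then (m.1 + 1, TT (m.1 + 1) - 1) else (m.1, m.2 - 1))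

/-- the index `n` of a slot in the ramp phase -/
def ni (r j : ℕ) : ℕ := if j < 6000 then 640 else min (640 + (j - 6000) + 1) (NN r)

/-- base of the attempt probability -/
def base (m : Mem) : ℚ := if m.2 < NN m.1 then 1 else 16 / (ni m.1 (m.2 - NN m.1) : ℚ)

/-- injective perturbation -/
noncomputable def ep (m : Mem) : ℝ := Real.sqrt 2 * (1 / 2) ^ (Nat.pair m.1 m.2 + 60)

noncomputable def PP (m : Mem) : ℝ := (base m : ℝ) - ep m

theorem ep_pos (m : Mem) : 0 < ep m := by unfold ep; positivity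

theorem ep_mul_le (m : Mem) : ep m * NN m.1 ≤ 1 / 16384 := by
  unfold ep
  rw [NN_cast]
  have h1 : Real.sqrt 2 ≤ 2 := by
    rw [Real.sqrt_le_left (by norm_num)]; norm_num
  have h2 : ((1:ℝ) / 2) ^ (Nat.pair m.1 m.2 + 60) ≤ (1 / 2) ^ (m.1 + 60) :=
    pow_le_pow_of_le_one (by norm_num) (by norm_num)
      (Nat.add_le_add_right (Nat.left_le_pair _ _) _)
  calc Real.sqrt 2 * (1 / 2) ^ (Nat.pair m.1 m.2 + 60) * 2 ^ (44 + m.1)
      ≤ 2 * (1 / 2) ^ (m.1 + 60) * 2 ^ (44 + m.1) := by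
        apply mul_le_mul_of_nonneg_right _ (by positivity)
        exact mul_le_mul h1 h2 (by positivity) (by norm_num)
    _ = 2 * ((1 / 2) ^ m.1 * 2 ^ m.1) * ((1 / 2) ^ 60 * 2 ^ 44) := by
        rw [pow_add, pow_add]; ring
    _ = 1 / 32768 := by
        rw [← mul_pow]; norm_num
    _ ≤ 1 / 16384 := by norm_num

theorem ep_le (m : Mem) : ep m ≤ 1 / 16384 := by
  have h1 := ep_mul_le m
  have h2 := NN_ge' m.1
  have h3 := ep_pos m
  nlinarith

theorem ni_pos (r j : ℕ) : 640 ≤ ni r j := by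
  unfold ni
  split_ifs
  · exact le_rfl
  · exact le_min (by omega) (le_trans (by norm_num) (NN_ge r))

theorem ni_le (r j : ℕ) : ni r j ≤ NN r := by
  unfold ni
  split_ifs
  · exact le_trans (by norm_num) (NN_ge r)
  · exact min_le_right _ _

theorem PP_wait {m : Mem} (h : m.2 < NN m.1) : PP m = 1 - ep m := by
  unfold PP base; rw [if_pos h]; norm_num

theorem PP_ramp {m : Mem} (h : ¬ m.2 < NN m.1) :
    15 / (ni m.1 (m.2 - NN m.1) : ℝ) ≤ PP m ∧ PP m ≤ 16 / (ni m.1 (m.2 - NN m.1) : ℝ) := by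
  have h1 : PP m = 16 / (ni m.1 (m.2 - NN m.1) : ℝ) - ep m := by
    unfold PP base; rw [if_neg h]; push_cast; rfl
  have h2 := ep_mul_le m
  have h3 := ep_pos m
  set n := ni m.1 (m.2 - NN m.1) with hn
  have h4 : (640:ℝ) ≤ n := by exact_mod_cast ni_pos m.1 (m.2 - NN m.1)
  have h5 : (n:ℝ) ≤ NN m.1 := by exact_mod_cast ni_le m.1 (m.2 - NN m.1)
  rw [h1]
  constructor
  · have h6 : ep m ≤ 1 / (n:ℝ) := by
      rw [le_div_iff₀ (by linarith)]
      nlinarith
    have : (16:ℝ) / n - 15 / n = 1 / n := by ring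
    linarith
  · linarith

theorem PP_mem (m : Mem) : PP m ∈ Set.Icc (0:ℝ) 1 := by
  by_cases h : m.2 < NN m.1
  · rw [PP_wait h]
    have h1 := ep_le m
    have h2 := ep_pos m
    constructor <;> linarith
  · obtain ⟨h1, h2⟩ := PP_ramp h
    have h4 : (640:ℝ) ≤ ni m.1 (m.2 - NN m.1) := by exact_mod_cast ni_pos m.1 (m.2 - NN m.1)
    constructor
    · exact le_trans (by positivity) h1
    · refine le_trans h2 ?_
      rw [div_le_one (by linarith)]; linarith

theorem PP_inj : Function.Injective PP := by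
  intro m m' h
  unfold PP at h
  have h1 : Real.sqrt 2 * (((((1:ℚ) / 2) ^ (Nat.pair m.1 m.2 + 60) -
      (1 / 2) ^ (Nat.pair m'.1 m'.2 + 60) : ℚ)) : ℝ) = ((base m - base m' : ℚ) : ℝ) := by
    unfold ep at h
    push_cast
    linarith
  by_cases hq : ((1:ℚ) / 2) ^ (Nat.pair m.1 m.2 + 60) - (1 / 2) ^ (Nat.pair m'.1 m'.2 + 60) = 0
  · have h2 : ((1:ℚ) / 2) ^ (Nat.pair m.1 m.2 + 60) = (1 / 2) ^ (Nat.pair m'.1 m'.2 + 60) := by
      linarith
    have h3 : Nat.pair m.1 m.2 + 60 = Nat.pair m'.1 m'.2 + 60 :=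
      pow_right_injective₀ (by norm_num) (by norm_num) h2
    have h4 : Nat.pair m.1 m.2 = Nat.pair m'.1 m'.2 := by omega
    have h5 := Nat.pair_eq_pair.mp h4
    exact Prod.ext h5.1 h5.2
  · exfalso
    have hirr := irrational_sqrt_two.mul_ratCast hq
    rw [h1] at hirr
    exact hirr ⟨_, rfl⟩

end Aloha
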