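import Pool.Agent.Helper29.Aloha4

namespace Aloha

open ENNReal

/-- stage cost -/
noncomputable def GG (r w : ℕ) : ℝ := max (2 * (NN r : ℝ)) (2048 * w - 7 * NN r)

noncomputable def Va (w r t : ℕ) : ℝ := 2 * ((t : ℝ) + 1) + GG (r + 1) w

noncomputable def aa : ℝ := 9 / 1048576
noncomputable def eta : ℝ := 399 / 400
noncomputable def beta : ℝ := 99 / 100
noncomputable def delta : ℝ := 1003 / 1000
noncomputable def zeta : ℝ := 1 - la / 2

noncomputable def aM : ℝ := aa + 3 * eta ^ 6000

noncomputable def al (j : ℕ) : ℝ := if j ≤ 6000 then aa + 3 * eta ^ j else aM * beta ^ (j - 6000)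

noncomputable def inc (j : ℕ) : ℝ :=
  if j < 6000 then 8 * la else aM * beta ^ (j - 6000) * delta ^ (640 + (j - 6000) + 1) / 50

noncomputable def hs (j : ℕ) : ℝ := 16 * la + ∑ i ∈ Finset.range j, inc i

noncomputable def FF (j w : ℕ) : ℝ := al j * (2 ^ w - 1) + hs j

noncomputable def Vb (w r j : ℕ) : ℝ := ((j : ℝ) + 1) + NN r * FF (j + 1) w

/-- Lyapunov function -/
noncomputable def VV (x : X) : ℝ :=
  if x.2.2 < NN x.2.1 then
    (if x.1 = 0 then min (Va x.1 x.2.1 x.2.2) (NN x.2.1 * (8 * la + 4 * zeta ^ (x.2.2 + 1)))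
     else if x.1 = 1 then 2 + 3 * la * NN 0 else Va x.1 x.2.1 x.2.2)
  else if x.2.2 < TT x.2.1 then
    min (Va x.1 x.2.1 x.2.2) (Vb x.1 x.2.1 (x.2.2 - NN x.2.1))
  else Va x.1 x.2.1 x.2.2

theorem GG_le (r w : ℕ) : GG r w ≤ 2 * NN r + 2048 * w := by
  unfold GG
  have := NN_ge' r
  have : (0:ℝ) ≤ w := Nat.cast_nonneg w
  apply max_le <;> linarith

theorem GG_ge (r w : ℕ) : 2 * (NN r : ℝ) ≤ GG r w := le_max_left _ _

theorem GG_mono (r : ℕ) {w v : ℕ} (h : w ≤ v) : GG r w ≤ GG r v := by
  unfold GG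
  have : (w : ℝ) ≤ v := by exact_mod_cast h
  apply max_le_max le_rfl; linarith

theorem GG_add (r w A : ℕ) : GG r (w + A) ≤ GG r w + 2048 * A := by
  unfold GG
  have : (0:ℝ) ≤ A := Nat.cast_nonneg A
  apply max_le
  · have := le_max_left (2 * (NN r : ℝ)) (2048 * w - 7 * NN r); linarith
  · have := le_max_right (2 * (NN r : ℝ)) (2048 * w - 7 * NN r)
    push_cast; linarith

theorem GG_zero_le (r w : ℕ) : GG 0 w ≤ GG (r + 1) w + 7 * NN (r + 1) := by
  have h0 := NN_mono0 (r + 1)
  have h1 := NN_ge' (r + 1)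
  unfold GG
  apply max_le
  · have := le_max_left (2 * (NN (r + 1) : ℝ)) (2048 * w - 7 * NN (r + 1)); linarith
  · have := le_max_right (2 * (NN (r + 1) : ℝ)) (2048 * w - 7 * NN (r + 1))
    have := NN_ge' 0
    linarith

theorem VV_le_Va (w r t : ℕ) : VV (w, (r, t)) ≤ Va w r t := by
  unfold VV
  simp only
  split_ifs with h1 h2 h3 h4
  · exact min_le_left _ _
  · unfold Va
    have h5 := GG_ge (r + 1) w
    have h6 := NN_mono0 (r + 1)
    have h7 : (0:ℝ) ≤ t := Nat.cast_nonneg t
    have h8 : 3 * la * (NN 0 : ℝ) ≤ 2 * NN 0 := by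
      have := NN_ge' 0
      unfold la; nlinarith
    linarith
  · exact le_rfl
  · exact min_le_left _ _
  · exact le_rfl

theorem eta_pow : eta ^ 6000 ≤ 1 / 1048576 := by
  have h0 : eta ^ 100 ≤ 78 / 100 := by unfold eta; norm_num
  have h : eta ^ 400 ≤ 3 / 8 := by
    calc eta ^ 400 = (eta ^ 100) ^ 4 := by rw [← pow_mul]
      _ ≤ (78 / 100) ^ 4 := pow_le_pow_left₀ (by unfold eta; positivity) h0 4
      _ ≤ 3 / 8 := by norm_num
  calc eta ^ 6000 = (eta ^ 400) ^ 15 := by rw [← pow_mul]
    _ ≤ (3 / 8) ^ 15 := pow_le_pow_left₀ (by unfold eta; positivity) h 15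
    _ ≤ 1 / 1048576 := by norm_num

theorem aM_le : aM ≤ 12 / 1048576 := by
  unfold aM aa
  have := eta_pow
  linarith

theorem aM_pos : 0 < aM := by unfold aM aa eta; positivity

theorem aa_le_aM : aa ≤ aM := by
  unfold aM; have : 0 ≤ 3 * eta ^ 6000 := by unfold eta; positivity
  linarith

theorem al_pos (j : ℕ) : 0 < al j := by
  unfold al
  split_ifs
  · unfold aa eta; positivity
  · have := aM_pos; unfold beta; positivity

theorem al_le_four (j : ℕ) : al j ≤ 4 := by
  unfold al
  split_ifs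
  · have : eta ^ j ≤ 1 := pow_le_one₀ (by unfold eta; norm_num) (by unfold eta; norm_num)
    unfold aa; linarith
  · have h1 : beta ^ (j - 6000) ≤ 1 :=
      pow_le_one₀ (by unfold beta; norm_num) (by unfold beta; norm_num)
    have := aM_le; have := aM_pos
    nlinarith

theorem al_ramp {j : ℕ} (h : 6000 ≤ j) : al j = aM * beta ^ (j - 6000) := by
  unfold al
  split_ifs with h1
  · have : j = 6000 := by omega
    subst this
    simp [aM]
  · rfl

theorem inc_nonneg (j : ℕ) : 0 ≤ inc j := by
  unfold inc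
  have := la_pos
  have := aM_pos
  split_ifs
  · linarith
  · unfold beta delta; positivity

theorem hs_succ (j : ℕ) : hs (j + 1) = hs j + inc j := by
  unfold hs; rw [Finset.sum_range_succ]; ring

theorem hs_zero : hs 0 = 16 * la := by unfold hs; simp

theorem hs_nonneg (j : ℕ) : 0 ≤ hs j := by
  unfold hs
  have := la_pos
  have := Finset.sum_nonneg (fun i (_ : i ∈ Finset.range j) => inc_nonneg i)
  linarith

theorem hs_le (j : ℕ) : hs j ≤ 1 / 4 := by
  -- sum of the first 6000 increments and of the rest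
  have h1 : ∀ n : ℕ, n ≤ 6000 → ∑ i ∈ Finset.range n, inc i ≤ 8 * la * 6000 := by
    intro n hn
    calc ∑ i ∈ Finset.range n, inc i ≤ ∑ i ∈ Finset.range n, 8 * la := by
          apply Finset.sum_le_sum
          intro i hi
          have : i < 6000 := lt_of_lt_of_le (Finset.mem_range.mp hi) hn
          unfold inc; rw [if_pos this]
      _ = n * (8 * la) := by rw [Finset.sum_const, Finset.card_range, nsmul_eq_mul]
      _ ≤ 8 * la * 6000 := by
          have : (n : ℝ) ≤ 6000 := by exact_mod_cast hn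
          have := la_pos
          nlinarith
  have hgeo : ∀ n : ℕ, ∑ i ∈ Finset.range n, inc (6000 + i) ≤ aM * 1000 := by
    intro n
    have hr : beta * delta = 99297 / 100000 := by unfold beta delta; norm_num
    have hd0 : delta ^ 128 ≤ 14675 / 10000 := by unfold delta; norm_num
    have hd : delta ^ 641 ≤ 7 := by
      calc delta ^ 641 = (delta ^ 128) ^ 5 * delta := by rw [← pow_mul, ← pow_succ]
        _ ≤ (14675 / 10000) ^ 5 * delta := by
          apply mul_le_mul_of_nonneg_right _ (by unfold delta; norm_num)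
          exact pow_le_pow_left₀ (by unfold delta; positivity) hd0 5
        _ ≤ 7 := by unfold delta; norm_num
    have e : ∀ i, inc (6000 + i) = aM * (delta ^ 641 / 50) * (beta * delta) ^ i := by
      intro i
      unfold inc
      rw [if_neg (by omega), show 6000 + i - 6000 = i by omega,
        show 640 + i + 1 = 641 + i by omega, pow_add, mul_pow]
      ring
    simp_rw [e]
    rw [← Finset.mul_sum, hr, geom_sum_eq (by norm_num)]
    have h2 : (0:ℝ) ≤ (99297 / 100000) ^ n := by positivity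
    have h3 : (((99297:ℝ) / 100000) ^ n - 1) / (99297 / 100000 - 1) ≤ 143 := by
      rw [div_le_iff_of_neg (by norm_num)]; linarith
    have h4 : aM * (delta ^ 641 / 50) ≤ aM * (7 / 50) := by
      apply mul_le_mul_of_nonneg_left _ aM_pos.le; linarith
    have h5 : 0 ≤ aM * (delta ^ 641 / 50) := by
      have := aM_pos; unfold delta; positivity
    calc aM * (delta ^ 641 / 50) * ((((99297:ℝ) / 100000) ^ n - 1) / (99297 / 100000 - 1))
        ≤ aM * (delta ^ 641 / 50) * 143 := mul_le_mul_of_nonneg_left h3 h5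
      _ ≤ aM * (7 / 50) * 143 := mul_le_mul_of_nonneg_right h4 (by norm_num)
      _ ≤ aM * 1000 := by have := aM_pos; nlinarith
  have haM := aM_le
  unfold hs
  rcases le_total j 6000 with h | h
  · have := h1 j h
    unfold la at *; linarith
  · obtain ⟨n, rfl⟩ : ∃ n, j = 6000 + n := ⟨j - 6000, by omega⟩
    rw [Finset.sum_range_add]
    have a := h1 6000 le_rfl
    have b := hgeo n
    unfold la at *; linarith

end Aloha
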