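import Pool.Agent.Helper29.Aloha5

set_option maxRecDepth 20000

namespace Aloha

open ENNReal

theorem two_pow_sub_one_nonneg (w : ℕ) : (0:ℝ) ≤ 2 ^ w - 1 := by
  have : (1:ℝ) ≤ 2 ^ w := one_le_pow₀ (by norm_num)
  linarith

theorem al_lower {r j v : ℕ} (hj : j < 6000 + (NN r - 640)) (h : ni r j < 640 + 32 * v) :
    aa * beta ^ (32 * v) ≤ al (j + 1) := by
  unfold al
  have hb0 : (0:ℝ) < beta := by unfold beta; norm_num
  have hb1 : beta ≤ 1 := by unfold beta; norm_num
  have haa : 0 < aa := by unfold aa; norm_num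
  split_ifs with h1
  · have h2 : beta ^ (32 * v) ≤ 1 := pow_le_one₀ hb0.le hb1
    have : 0 ≤ 3 * eta ^ (j + 1) := by unfold eta; positivity
    nlinarith
  · have h3 : ¬ j < 6000 := by omega
    unfold ni at h
    rw [if_neg h3] at h
    have h4 : 640 + (j - 6000) + 1 ≤ NN r := by
      have := NN_ge r; omega
    rw [min_eq_left h4] at h
    have h5 : j + 1 - 6000 ≤ 32 * v := by omega
    have h6 : beta ^ (32 * v) ≤ beta ^ (j + 1 - 6000) := pow_le_pow_of_le_one hb0.le hb1 h5
    calc aa * beta ^ (32 * v) ≤ aa * beta ^ (j + 1 - 6000) := mul_le_mul_of_nonneg_left h6 haa.le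
      _ ≤ aM * beta ^ (j + 1 - 6000) :=
        mul_le_mul_of_nonneg_right aa_le_aM (by positivity)

/-- in the bad region the failure bound is the smaller one -/
theorem bad {w r j : ℕ} (hj : j < 6000 + (NN r - 640)) (hw : ni r j < 32 * w) :
    Va w r (NN r + j) ≤ Vb w r j := by
  have hw20 : 20 < w := by have := ni_pos r j; omega
  obtain ⟨v, rfl⟩ : ∃ v, w = v + 20 := ⟨w - 20, by omega⟩
  have hv : 1 ≤ v := by omega
  have hal := al_lower (v := v) hj (by omega)
  have hN := NN_ge' r
  have hjN : (j : ℝ) + 1 ≤ 2 * NN r := by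
    have h1 : j + 1 ≤ 2 * NN r := by have := NN_ge r; omega
    exact_mod_cast h1
  unfold Va Vb FF
  have h1 := GG_le (r + 1) (v + 20)
  rw [NN_succ] at h1
  have h2 := hs_nonneg (j + 1)
  have h3 : (144 / 100 : ℝ) ≤ 2 * beta ^ 32 := by unfold beta; norm_num
  have h4 : (1:ℝ) + v * (44 / 100) ≤ (144 / 100) ^ v := by
    have := one_add_mul_le_pow (a := (44 / 100 : ℝ)) (by norm_num) v
    norm_num at this ⊢; linarith
  have h5 : (144 / 100 : ℝ) ^ v ≤ 2 ^ v * beta ^ (32 * v) := by
    rw [pow_mul, ← mul_pow]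
    exact pow_le_pow_left₀ (by norm_num) h3 v
  have h6 : (2:ℝ) ^ (v + 20) - 1 ≥ 2 ^ v * 1048576 * (99 / 100) := by
    rw [pow_add]
    have : (1:ℝ) ≤ 2 ^ v := one_le_pow₀ (by norm_num)
    norm_num; linarith
  have h7 : 8 + 2048 * ((v + 20 : ℕ) : ℝ) / NN r ≤ al (j + 1) * (2 ^ (v + 20) - 1) := by
    have h8 : aa * beta ^ (32 * v) * (2 ^ v * 1048576 * (99 / 100)) ≤
        al (j + 1) * (2 ^ (v + 20) - 1) := by
      apply mul_le_mul hal h6 (by positivity) (al_pos _).le
    have h9 : aa * beta ^ (32 * v) * (2 ^ v * 1048576 * (99 / 100)) =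
        (891 / 100) * (2 ^ v * beta ^ (32 * v)) := by unfold aa; ring
    rw [h9] at h8
    have h10 : 2048 * ((v + 20 : ℕ) : ℝ) / NN r ≤ (v + 20) / 1000000 := by
      rw [div_le_iff₀ (by linarith)]
      push_cast
      have : (0:ℝ) ≤ v := Nat.cast_nonneg v
      nlinarith
    have hv' : (1:ℝ) ≤ v := by exact_mod_cast hv
    have h11 : (891 / 100 : ℝ) * (1 + v * (44 / 100)) ≤ (891 / 100) * (2 ^ v * beta ^ (32 * v)) := by
      apply mul_le_mul_of_nonneg_left (le_trans h4 h5) (by norm_num)
    linarith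
  have h12 : (NN r : ℝ) * (8 + 2048 * ((v + 20 : ℕ) : ℝ) / NN r) ≤
      NN r * (al (j + 1) * (2 ^ (v + 20) - 1)) := mul_le_mul_of_nonneg_left h7 (by linarith)
  have h13 : (NN r : ℝ) * (8 + 2048 * ((v + 20 : ℕ) : ℝ) / NN r) =
      8 * NN r + 2048 * ((v + 20 : ℕ) : ℝ) := by
    have : (NN r : ℝ) ≠ 0 := by linarith
    field_simp
  have h14 : 0 ≤ (NN r : ℝ) * hs (j + 1) := by
    apply mul_nonneg (by linarith) h2
  rw [h13] at h12
  push_cast at h1 h12 ⊢
  rw [mul_add]
  linarith

/-- cost at the start of a stage -/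
theorem start_le (r w : ℕ) : VV (w, (r, TT r - 1)) ≤ GG r w := by
  have hN := NN_ge' r
  have hNn := NN_ge r
  have hTT : TT r = NN r + (6000 + (NN r - 640)) := rfl
  by_cases hw : 128 * w ≤ NN r
  · have h1 : VV (w, (r, TT r - 1)) ≤ Vb w r (6000 + (NN r - 640) - 1) := by
      unfold VV
      simp only
      rw [if_neg (by omega), if_pos (by omega)]
      refine le_trans (min_le_right _ _) (le_of_eq ?_)
      congr 1
      omega
    refine le_trans h1 (le_trans ?_ (GG_ge r w))
    unfold Vb FF
    have e1 : 6000 + (NN r - 640) - 1 + 1 = 6000 + (NN r - 640) := by omega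
    rw [e1]
    have e2 : (((6000 + (NN r - 640) - 1 : ℕ) : ℝ)) + 1 ≤ NN r + 6000 := by
      have : 6000 + (NN r - 640) - 1 + 1 ≤ NN r + 6000 := by omega
      exact_mod_cast this
    have h2 := hs_le (6000 + (NN r - 640))
    have h3 : al (6000 + (NN r - 640)) * (2 ^ w - 1) ≤ 1 / 4 := by
      rw [al_ramp (by omega), show 6000 + (NN r - 640) - 6000 = NN r - 640 by omega]
      have hb0 : (0:ℝ) < beta := by unfold beta; norm_num
      have hb1 : beta ≤ 1 := by unfold beta; norm_num
      have key : beta ^ (NN r - 640) * 2 ^ w ≤ 32 := by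
        rcases le_total w 5 with h5 | h5
        · have a1 : beta ^ (NN r - 640) ≤ 1 := pow_le_one₀ hb0.le hb1
          have a2 : (2:ℝ) ^ w ≤ 2 ^ 5 := pow_le_pow_right₀ (by norm_num) h5
          have a3 : (0:ℝ) < 2 ^ w := by positivity
          nlinarith
        · obtain ⟨v, rfl⟩ : ∃ v, w = v + 5 := ⟨w - 5, by omega⟩
          have a1 : beta ^ (NN r - 640) ≤ beta ^ (128 * v) :=
            pow_le_pow_of_le_one hb0.le hb1 (by omega)
          have a2 : beta ^ 128 * 2 ≤ 1 := by unfold beta; norm_num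
          calc beta ^ (NN r - 640) * 2 ^ (v + 5) ≤ beta ^ (128 * v) * 2 ^ (v + 5) :=
                mul_le_mul_of_nonneg_right a1 (by positivity)
            _ = (beta ^ 128 * 2) ^ v * 32 := by rw [pow_mul, mul_pow, pow_add]; ring
            _ ≤ 1 * 32 := by
                apply mul_le_mul_of_nonneg_right _ (by norm_num)
                exact pow_le_one₀ (by positivity) a2
            _ = 32 := one_mul _
      have h4 := aM_le
      have h5 := aM_pos
      have h6 : 0 < beta ^ (NN r - 640) := by positivity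
      calc aM * beta ^ (NN r - 640) * (2 ^ w - 1) ≤ aM * beta ^ (NN r - 640) * 2 ^ w := by
            apply mul_le_mul_of_nonneg_left (by linarith) (by positivity)
        _ = aM * (beta ^ (NN r - 640) * 2 ^ w) := by ring
        _ ≤ aM * 32 := mul_le_mul_of_nonneg_left key h5.le
        _ ≤ 1 / 4 := by linarith
    have h4 : (NN r : ℝ) * (al (6000 + (NN r - 640)) * (2 ^ w - 1) + hs (6000 + (NN r - 640))) ≤
        NN r * (1 / 2) := mul_le_mul_of_nonneg_left (by linarith) (by linarith)
    linarith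
  · refine le_trans (VV_le_Va _ _ _) ?_
    have hw' : (NN r : ℝ) < 128 * w := by
      have : NN r < 128 * w := by omega
      exact_mod_cast this
    unfold Va GG
    rw [NN_succ]
    have e1 : ((TT r - 1 : ℕ) : ℝ) + 1 ≤ 2 * NN r + 5360 := by
      have : TT r - 1 + 1 ≤ 2 * NN r + 5360 := by omega
      exact_mod_cast this
    refine le_trans ?_ (le_max_right _ _)
    have : max (2 * (2 * (NN r : ℝ))) (2048 * w - 7 * (2 * NN r)) ≤ 2048 * w - 12 * NN r := by
      apply max_le <;> linarith
    linarith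

theorem zeta_pow_NN (r : ℕ) : zeta ^ (NN r) ≤ 2 * la := by
  have h1 : zeta ≤ (1 + la / 2)⁻¹ := by
    rw [le_inv_comm₀ (by unfold zeta la; norm_num) (by unfold la; norm_num)]
    rw [le_inv_comm₀ (by unfold la; norm_num) (by unfold zeta la; norm_num)]
    unfold zeta la; norm_num
  have h2 : 0 ≤ zeta := by unfold zeta la; norm_num
  have h3 : zeta ^ (NN r) ≤ ((1 + la / 2)⁻¹) ^ (NN r) := pow_le_pow_left₀ h2 h1 _
  have h4 : 1 + (NN r : ℝ) * (la / 2) ≤ (1 + la / 2) ^ (NN r) :=
    one_add_mul_le_pow (by have := la_pos; linarith) _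
  have hN := NN_ge' r
  have h5 : (8388608 : ℝ) ≤ 1 + (NN r : ℝ) * (la / 2) := by unfold la; linarith
  rw [inv_pow] at h3
  refine le_trans h3 ?_
  have hpos : 0 < (1 + la / 2) ^ (NN r) := by have := la_pos; positivity
  rw [inv_le_comm₀ hpos (by have := la_pos; positivity)]
  refine le_trans ?_ (le_trans h5 h4)
  unfold la; norm_num

/-- cost at the start of the waiting phase -/
theorem wait_start_le (r w : ℕ) : VV (w, (r, NN r - 1)) ≤ NN r * FF 0 w := by
  have hN := NN_ge' r
  have hNn := NN_ge r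
  have hal : al 0 = aa + 3 := by unfold al; simp
  have haa : 0 < aa := by unfold aa; norm_num
  unfold FF
  rw [hal, hs_zero]
  unfold VV
  simp only
  rw [if_pos (by omega)]
  split_ifs with h0 h1
  · subst h0
    refine le_trans (min_le_right _ _) ?_
    rw [show NN r - 1 + 1 = NN r by omega]
    have := zeta_pow_NN r
    apply mul_le_mul_of_nonneg_left _ (by linarith)
    simp only [pow_zero, sub_self, mul_zero, zero_add]
    linarith
  · subst h1
    have := NN_mono0 r
    have h2 : 3 * la * (NN 0 : ℝ) ≤ NN 0 := by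
      have := NN_ge' 0
      unfold la; nlinarith
    have h3 : (NN r : ℝ) * 3 ≤ NN r * ((aa + 3) * (2 ^ 1 - 1) + 16 * la) := by
      apply mul_le_mul_of_nonneg_left _ (by linarith)
      have := la_pos
      norm_num; linarith
    linarith
  · have hw2 : 2 ≤ w := by omega
    unfold Va
    have h1 := GG_le (r + 1) w
    rw [NN_succ] at h1
    have e1 : ((NN r - 1 : ℕ) : ℝ) + 1 = NN r := by
      have : NN r - 1 + 1 = NN r := by omega
      exact_mod_cast this
    rw [e1]
    have h2 : (w : ℝ) + 2 ≤ 2 ^ w := by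
      have : ∀ n : ℕ, n + 2 + 2 ≤ 2 ^ (n + 2) := by
        intro n
        induction n with
        | zero => norm_num
        | succ n ih => rw [show n + 1 + 2 = n + 2 + 1 by ring, pow_succ]; omega
      obtain ⟨n, rfl⟩ : ∃ n, w = n + 2 := ⟨w - 2, by omega⟩
      exact_mod_cast this n
    have hw2' : (2:ℝ) ≤ w := by exact_mod_cast hw2
    have hla := la_pos
    have h3 : (6:ℝ) + w ≤ (aa + 3) * (2 ^ w - 1) + 16 * la := by nlinarith
    have h4 : (NN r : ℝ) * (6 + w) ≤ NN r * ((aa + 3) * (2 ^ w - 1) + 16 * la) :=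
      mul_le_mul_of_nonneg_left h3 (by linarith)
    nlinarith

/-- lower bound for the success probability -/
theorem suc_lower {w n : ℕ} {p : ℝ} (hw : 1 ≤ w) (hn : 640 ≤ n) (h32 : 32 * w ≤ n)
    (h1 : 15 / (n : ℝ) ≤ p) (h2 : p ≤ 16 / (n : ℝ)) : 15 / 2 * w / n ≤ suc w p := by
  have hn' : (640:ℝ) ≤ n := by exact_mod_cast hn
  have hw' : (1:ℝ) ≤ w := by exact_mod_cast hw
  have h32' : 32 * (w:ℝ) ≤ n := by exact_mod_cast h32
  have hp0 : 0 ≤ p := le_trans (by positivity) h1
  have h3 : p * (w - 1) ≤ 1 / 2 := by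
    have : p * (w - 1) ≤ 16 / n * (w - 1) := mul_le_mul_of_nonneg_right h2 (by linarith)
    refine le_trans this ?_
    rw [div_mul_eq_mul_div, div_le_iff₀ (by linarith)]; linarith
  have h4 : 1 - p * (w - 1) ≤ (1 - p) ^ (w - 1) := by
    have hp2 : p ≤ 2 := by
      refine le_trans h2 ?_
      rw [div_le_iff₀ (by linarith)]; linarith
    have := one_add_mul_le_pow (a := -p) (by linarith) (w - 1)
    rw [Nat.cast_sub hw] at this
    have e : 1 + -p = 1 - p := by ring
    rw [e] at this
    push_cast at this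
    linarith
  unfold suc
  have h5 : (1:ℝ) / 2 ≤ (1 - p) ^ (w - 1) := by linarith
  calc 15 / 2 * (w:ℝ) / n = w * (15 / n) * (1 / 2) := by ring
    _ ≤ w * p * (1 / 2) := by
      apply mul_le_mul_of_nonneg_right _ (by norm_num)
      exact mul_le_mul_of_nonneg_left h1 (by linarith)
    _ ≤ w * p * (1 - p) ^ (w - 1) := mul_le_mul_of_nonneg_left h5 (by positivity)

theorem step_zero (j : ℕ) : al j * (Real.exp la - 1) + hs j ≤ hs (j + 1) := by
  rw [hs_succ]
  have h1 := exp_la_le
  have h2 := al_pos j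
  have h3 := al_le_four j
  have hla := la_pos
  have h4 : al j * (Real.exp la - 1) ≤ al j * (2 * la) :=
    mul_le_mul_of_nonneg_left (by linarith) h2.le
  have h5 : al j * (2 * la) ≤ inc j := by
    unfold inc
    split_ifs with h
    · nlinarith
    · rw [al_ramp (by omega)]
      have h6 : (1:ℝ) ≤ delta ^ (640 + (j - 6000) + 1) := one_le_pow₀ (by unfold delta; norm_num)
      have h7 : 0 < aM * beta ^ (j - 6000) := by have := aM_pos; unfold beta; positivity
      have h8 : 2 * la ≤ 1 / 50 := by unfold la; norm_num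
      calc aM * beta ^ (j - 6000) * (2 * la) ≤ aM * beta ^ (j - 6000) * (1 / 50) :=
            mul_le_mul_of_nonneg_left h8 h7.le
        _ ≤ aM * beta ^ (j - 6000) * (delta ^ (640 + (j - 6000) + 1) / 50) :=
            mul_le_mul_of_nonneg_left (by linarith) h7.le
        _ = _ := by ring
  linarith

theorem step_pos {r j w : ℕ} {p : ℝ} (hj : j < 6000 + (NN r - 640)) (hw : 1 ≤ w)
    (h32 : 32 * w ≤ ni r j) (h1 : 15 / (ni r j : ℝ) ≤ p) (h2 : p ≤ 16 / (ni r j : ℝ))
    (hp : p ≤ 1) :
    al j * (2 ^ w * (1 - suc w p / 2) * Real.exp la - 1) + hs j ≤ FF (j + 1) w := by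
  unfold FF
  rw [hs_succ]
  have hp0 : 0 ≤ p := le_trans (by positivity) h1
  have hs1 := suc_le_one (w := w) hp0 hp
  have hs0 := suc_nonneg (w := w) hp0 hp
  have hsl := suc_lower hw (ni_pos r j) h32 h1 h2
  have he := exp_la_le
  have he0 := Real.exp_pos la
  have hla := la_pos
  have hinc := inc_nonneg j
  have hal := al_pos j
  have h2w : (1:ℝ) ≤ 2 ^ w := one_le_pow₀ (by norm_num)
  have hn' : (640:ℝ) ≤ ni r j := by exact_mod_cast ni_pos r j
  have hw' : (1:ℝ) ≤ w := by exact_mod_cast hw
  have e1 : al j * (2 ^ w * (1 - suc w p / 2) * Real.exp la - 1) =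
    al j * (2 ^ w * (1 - suc w p / 2) * Real.exp la) - al j := by ring
  have e2 : al (j + 1) * (2 ^ w - 1) = al (j + 1) * 2 ^ w - al (j + 1) := by ring
  by_cases hc : j < 6000
  · -- clearing phase
    have hni : ni r j = 640 := by unfold ni; rw [if_pos hc]
    rw [hni] at hsl
    have hs2 : (15:ℝ) / 2 / 640 ≤ suc w p := by
      refine le_trans ?_ hsl
      push_cast
      rw [div_le_div_iff_of_pos_right (by norm_num)]
      linarith
    have hfac : (1 - suc w p / 2) * Real.exp la ≤ eta := by
      have a1 : 1 - suc w p / 2 ≤ 1 - 15 / 2 / 640 / 2 := by linarith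
      have a2 : 0 ≤ 1 - suc w p / 2 := by linarith
      calc (1 - suc w p / 2) * Real.exp la ≤ (1 - 15 / 2 / 640 / 2) * (1 + 2 * la) :=
            mul_le_mul a1 he he0.le (by norm_num)
        _ ≤ eta := by unfold eta la; norm_num
    have hal1 : al j * eta ≤ al (j + 1) := by
      unfold al
      rw [if_pos (by omega), if_pos (by omega), pow_succ]
      have : 0 < aa := by unfold aa; norm_num
      have : eta ≤ 1 := by unfold eta; norm_num
      nlinarith
    have hal2 : al (j + 1) ≤ al j := by
      unfold al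
      rw [if_pos (by omega), if_pos (by omega), pow_succ]
      have h5 : 0 < eta ^ j := by unfold eta; positivity
      have : eta ≤ 1 := by unfold eta; norm_num
      nlinarith
    have h6 : al j * (2 ^ w * (1 - suc w p / 2) * Real.exp la) ≤ al (j + 1) * 2 ^ w := by
      calc al j * (2 ^ w * (1 - suc w p / 2) * Real.exp la)
          = al j * 2 ^ w * ((1 - suc w p / 2) * Real.exp la) := by ring
        _ ≤ al j * 2 ^ w * eta := mul_le_mul_of_nonneg_left hfac (by positivity)
        _ = al j * eta * 2 ^ w := by ring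
        _ ≤ al (j + 1) * 2 ^ w := mul_le_mul_of_nonneg_right hal1 (by positivity)
    rw [e1, e2]
    linarith
  · have hal1 : al (j + 1) = beta * al j := by
      rw [al_ramp (by omega), al_ramp (by omega), show j + 1 - 6000 = (j - 6000) + 1 by omega,
        pow_succ]
      ring
    have hni : ni r j = 640 + (j - 6000) + 1 := by
      unfold ni
      rw [if_neg hc, min_eq_left]
      have := NN_ge r; omega
    by_cases ha : ni r j ≤ 256 * w
    · -- active
      have hs2 : (15:ℝ) / 2 / 256 ≤ suc w p := by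
        refine le_trans ?_ hsl
        have ha' : (ni r j : ℝ) ≤ 256 * w := by exact_mod_cast ha
        rw [div_le_div_iff₀ (by norm_num) (by linarith)]
        linarith
      have hfac : (1 - suc w p / 2) * Real.exp la ≤ beta := by
        have a1 : 1 - suc w p / 2 ≤ 1 - 15 / 2 / 256 / 2 := by linarith
        calc (1 - suc w p / 2) * Real.exp la ≤ (1 - 15 / 2 / 256 / 2) * (1 + 2 * la) :=
              mul_le_mul a1 he he0.le (by norm_num)
          _ ≤ beta := by unfold beta la; norm_num
      have h6 : al j * (2 ^ w * (1 - suc w p / 2) * Real.exp la) ≤ al (j + 1) * 2 ^ w := by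
        calc al j * (2 ^ w * (1 - suc w p / 2) * Real.exp la)
            = al j * 2 ^ w * ((1 - suc w p / 2) * Real.exp la) := by ring
          _ ≤ al j * 2 ^ w * beta := mul_le_mul_of_nonneg_left hfac (by positivity)
          _ = al (j + 1) * 2 ^ w := by rw [hal1]; ring
      have hal2 : al (j + 1) ≤ al j := by
        rw [hal1]; unfold beta; linarith
      rw [e1, e2]
      linarith
    · -- inactive
      have h7 : (2:ℝ) ^ w ≤ delta ^ (640 + (j - 6000) + 1) := by
        have a1 : (2:ℝ) ≤ delta ^ 256 := by unfold delta; norm_num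
        calc (2:ℝ) ^ w ≤ (delta ^ 256) ^ w := pow_le_pow_left₀ (by norm_num) a1 w
          _ = delta ^ (256 * w) := by rw [← pow_mul]
          _ ≤ delta ^ (640 + (j - 6000) + 1) :=
            pow_le_pow_right₀ (by unfold delta; norm_num) (by omega)
      have hinc' : inc j = al j * delta ^ (640 + (j - 6000) + 1) / 50 := by
        unfold inc; rw [if_neg hc, al_ramp (by omega)]
      have h8 : al j * 2 ^ w / 50 ≤ inc j := by
        rw [hinc']
        have := mul_le_mul_of_nonneg_left h7 hal.le
        linarith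
      have h9 : al j * (2 ^ w * (1 - suc w p / 2) * Real.exp la) ≤
          al j * (2 ^ w * (1 + 2 * la)) := by
        apply mul_le_mul_of_nonneg_left _ hal.le
        calc 2 ^ w * (1 - suc w p / 2) * Real.exp la = 2 ^ w * ((1 - suc w p / 2) * Real.exp la) := by
              ring
          _ ≤ 2 ^ w * (1 * (1 + 2 * la)) := by
              apply mul_le_mul_of_nonneg_left _ (by positivity)
              exact mul_le_mul (by linarith) he he0.le (by norm_num)
          _ = 2 ^ w * (1 + 2 * la) := by ring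
      have h10 : al j * (2 ^ w * (1 + 2 * la)) - al (j + 1) * 2 ^ w ≤ al j * 2 ^ w / 50 := by
        rw [hal1]
        have hA : 0 < al j * 2 ^ w := by positivity
        have e3 : al j * (2 ^ w * (1 + 2 * la)) - beta * al j * 2 ^ w =
          (al j * 2 ^ w) * (1 + 2 * la - beta) := by ring
        rw [e3]
        have e4 : 1 + 2 * la - beta ≤ 1 / 50 := by unfold beta la; norm_num
        have e5 := mul_le_mul_of_nonneg_left e4 hA.le
        linarith
      have hal2 : al (j + 1) ≤ al j := by
        rw [hal1]; unfold beta; linarith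
      rw [e1, e2]
      linarith

end Aloha
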