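import Pool.Agent.Helper29.Aloha6

set_option maxRecDepth 20000

namespace Aloha

open ENNReal

def xs : X := (0, (0, TT 0 - 1))

open Classical in
noncomputable def V' (y : X) : ℝ≥0∞ := if y = xs then 0 else ENNReal.ofReal (VV y)

theorem V'_le (y : X) : V' y ≤ ENNReal.ofReal (VV y) := by
  unfold V'; split_ifs
  · exact zero_le
  · exact le_rfl

theorem combine {s e1 e2 v : ℝ} {E1 E2 : ℝ≥0∞} (hs0 : 0 ≤ s) (hs1 : s ≤ 1) (he1 : 0 ≤ e1)
    (he2 : 0 ≤ e2) (h1 : E1 ≤ ENNReal.ofReal e1) (h2 : E2 ≤ ENNReal.ofReal e2)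
    (h : 1 + (s * e1 + (1 - s) * e2) ≤ v) :
    1 + (ENNReal.ofReal s * E1 + ENNReal.ofReal (1 - s) * E2) ≤ ENNReal.ofReal v := by
  calc 1 + (ENNReal.ofReal s * E1 + ENNReal.ofReal (1 - s) * E2)
      ≤ 1 + (ENNReal.ofReal s * ENNReal.ofReal e1 + ENNReal.ofReal (1 - s) * ENNReal.ofReal e2) := by
        gcongr
    _ = ENNReal.ofReal (1 + (s * e1 + (1 - s) * e2)) := by
        have a1 : 0 ≤ s * e1 := mul_nonneg hs0 he1
        have a2 : 0 ≤ (1 - s) * e2 := mul_nonneg (by linarith) he2
        rw [ENNReal.ofReal_add (by norm_num) (by linarith), ENNReal.ofReal_add a1 a2,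
          ENNReal.ofReal_mul hs0, ENNReal.ofReal_mul (by linarith), ENNReal.ofReal_one]
    _ ≤ ENNReal.ofReal v := ENNReal.ofReal_le_ofReal h

theorem GG_nonneg (r w : ℕ) : 0 ≤ GG r w := by
  have := GG_ge r w; have := NN_ge' r; linarith

theorem nx_false_le (w r t : ℕ) : VV (w, nx (r, t) false) ≤ 2 * t + GG (r + 1) w := by
  unfold nx
  simp only [Bool.false_eq_true, if_false]
  split_ifs with h
  · subst h
    have := start_le (r + 1) w
    simpa using this
  · refine le_trans (VV_le_Va _ _ _) ?_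
    unfold Va
    have : ((t - 1 : ℕ) : ℝ) + 1 = t := by
      have : t - 1 + 1 = t := by omega
      exact_mod_cast this
    rw [this]

theorem Ex_const_lin {g : ℕ → ℝ≥0∞} {c0 c1 : ℝ} (h0 : 0 ≤ c0) (h1 : 0 ≤ c1)
    (h : ∀ A : ℕ, g A ≤ ENNReal.ofReal (c0 + c1 * A)) :
    Ex la g ≤ ENNReal.ofReal (c0 + c1 * la) := by
  have := Ex_le (g := g) la_pos.le h0 h1 le_rfl le_rfl le_rfl (c2 := 0) (c3 := 0) (c4 := 0)
    (fun A => by simpa using h A)
  simpa using this

theorem Ex_fail (w r t : ℕ) : Ex la (fun A => V' (w + A, nx (r, t) false)) ≤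
    ENNReal.ofReal (2 * t + GG (r + 1) w + 2048 * la) := by
  apply Ex_const_lin
  · have := GG_nonneg (r + 1) w
    positivity
  · norm_num
  · intro A
    refine le_trans (V'_le _) (ENNReal.ofReal_le_ofReal ?_)
    have h1 := nx_false_le (w + A) r t
    have h2 := GG_add (r + 1) w A
    linarith

theorem nx_true_ramp {r t : ℕ} (h : NN r ≤ t) : nx (r, t) true = nx (r, t) false := by
  have := NN_ge r
  unfold nx
  simp only [if_true, Bool.false_eq_true, if_false]
  rw [if_neg (by omega), if_neg (by omega)]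

theorem Ex_suc_ramp {w r t : ℕ} (h : NN r ≤ t) :
    Ex la (fun A => V' (w - 1 + A, nx (r, t) true)) ≤
      ENNReal.ofReal (2 * t + GG (r + 1) w + 2048 * la) := by
  apply Ex_const_lin
  · have := GG_nonneg (r + 1) w
    positivity
  · norm_num
  · intro A
    rw [nx_true_ramp h]
    refine le_trans (V'_le _) (ENNReal.ofReal_le_ofReal ?_)
    have h1 := nx_false_le (w - 1 + A) r t
    have h2 := GG_add (r + 1) w A
    have h3 := GG_mono (r + 1) (show w - 1 + A ≤ w + A by omega)
    linarith

theorem nx_true_wait {r t : ℕ} (h : t < NN r) : nx (r, t) true = (0, TT 0 - 1) := by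
  unfold nx
  simp only [if_true]
  rw [if_pos h]

theorem Ex_suc_wait {w r t : ℕ} (h : t < NN r) :
    Ex la (fun A => V' (w - 1 + A, nx (r, t) true)) ≤
      ENNReal.ofReal (GG (r + 1) w + 7 * NN (r + 1) + 2048 * la) := by
  apply Ex_const_lin
  · have := GG_nonneg (r + 1) w
    positivity
  · norm_num
  · intro A
    rw [nx_true_wait h]
    refine le_trans (V'_le _) (ENNReal.ofReal_le_ofReal ?_)
    have h1 := start_le 0 (w - 1 + A)
    have h2 := GG_add (r + 1) w A
    have h3 := GG_mono 0 (show w - 1 + A ≤ w + A by omega)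
    have h4 := GG_zero_le r (w + A)
    linarith

theorem suc_wait_le {w : ℕ} (hw : w ≠ 1) {e : ℝ} (h0 : 0 < e) (h1 : e ≤ 1 / 2) :
    suc w (1 - e) ≤ 2 * e := by
  rcases Nat.lt_or_ge w 2 with h | h
  · have : w = 0 := by omega
    subst this
    simp [suc]; linarith
  · obtain ⟨n, rfl⟩ : ∃ n, w = n + 2 := ⟨w - 2, by omega⟩
    have key : ∀ n : ℕ, ((n : ℝ) + 2) * (1 / 2) ^ n ≤ 2 := by
      intro n
      induction n with
      | zero => norm_num
      | succ n ih =>
        rw [pow_succ]
        push_cast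
        have : (0:ℝ) < (1 / 2) ^ n := by positivity
        have : (0:ℝ) ≤ n := Nat.cast_nonneg n
        nlinarith
    have h2 : e ^ n ≤ (1 / 2) ^ n := pow_le_pow_left₀ h0.le h1 n
    unfold suc
    rw [show (1:ℝ) - (1 - e) = e by ring, show n + 2 - 1 = n + 1 by omega, pow_succ]
    push_cast
    have h3 : 0 < e ^ n := by positivity
    calc ((n:ℝ) + 2) * (1 - e) * (e ^ n * e) ≤ ((n:ℝ) + 2) * 1 * ((1 / 2) ^ n * e) := by
          gcongr
          linarith
      _ = ((n : ℝ) + 2) * (1 / 2) ^ n * e := by ring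
      _ ≤ 2 * e := mul_le_mul_of_nonneg_right (key n) h0.le

theorem tot_eq (w : ℕ) (m : Mem) : 1 + ∑' y, K la PP nx (w, m) y * V' y =
    1 + (ENNReal.ofReal (suc w (PP m)) * Ex la (fun A => V' (w - 1 + A, nx m true)) +
      ENNReal.ofReal (1 - suc w (PP m)) * Ex la (fun A => V' (w + A, nx m false))) := by
  rw [K_sum la PP nx la_pos.le PP_mem]

theorem drift_Va {w r t : ℕ} (h : ¬ (t < NN r ∧ w = 1)) :
    1 + ∑' y, K la PP nx (w, (r, t)) y * V' y ≤ ENNReal.ofReal (Va w r t) := by
  rw [tot_eq]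
  have hs0 := suc_nonneg (w := w) (PP_mem (r, t)).1 (PP_mem (r, t)).2
  have hs1 := suc_le_one (w := w) (PP_mem (r, t)).1 (PP_mem (r, t)).2
  have hG := GG_nonneg (r + 1) w
  have hla := la_pos
  have ht : (0:ℝ) ≤ t := Nat.cast_nonneg t
  by_cases hw : t < NN r
  · have hw1 : w ≠ 1 := fun e => h ⟨hw, e⟩
    have hN := NN_ge' (r + 1)
    refine combine hs0 hs1 (e1 := GG (r + 1) w + 7 * NN (r + 1) + 2048 * la)
      (e2 := 2 * t + GG (r + 1) w + 2048 * la) (by positivity) (by positivity)
      (Ex_suc_wait hw) (Ex_fail w r t) ?_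
    have hp : PP (r, t) = 1 - ep (r, t) := PP_wait hw
    have he0 := ep_pos (r, t)
    have he1 := ep_le (r, t)
    have he2 : ep (r, t) * NN r ≤ 1 / 16384 := ep_mul_le (r, t)
    have hs := suc_wait_le hw1 he0 (by linarith)
    rw [← hp] at hs
    set s := suc w (PP (r, t)) with hsd
    have h7 : s * (7 * NN (r + 1)) ≤ 1 / 4 := by
      rw [NN_succ]
      have hNr := NN_ge' r
      calc s * (7 * (2 * NN r)) ≤ 2 * ep (r, t) * (7 * (2 * NN r)) :=
            mul_le_mul_of_nonneg_right hs (by linarith)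
        _ = 28 * (ep (r, t) * NN r) := by ring
        _ ≤ 1 / 4 := by linarith
    have h8 : s * (GG (r + 1) w + 7 * NN (r + 1) + 2048 * la) +
        (1 - s) * (2 * t + GG (r + 1) w + 2048 * la) =
        GG (r + 1) w + 2048 * la + s * (7 * NN (r + 1)) + (1 - s) * (2 * t) := by ring
    have h9 : (1 - s) * (2 * t) ≤ 2 * t := by nlinarith
    have h10 : 2048 * la ≤ 1 / 4 := by unfold la; norm_num
    rw [h8]
    unfold Va
    linarith
  · refine combine hs0 hs1 (e1 := 2 * t + GG (r + 1) w + 2048 * la)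
      (e2 := 2 * t + GG (r + 1) w + 2048 * la) (by positivity) (by positivity)
      (Ex_suc_ramp (by omega)) (Ex_fail w r t) ?_
    have h10 : 2048 * la ≤ 1 / 4 := by unfold la; norm_num
    unfold Va
    have : ∀ s : ℝ, s * (2 * t + GG (r + 1) w + 2048 * la) +
      (1 - s) * (2 * t + GG (r + 1) w + 2048 * la) = 2 * t + GG (r + 1) w + 2048 * la := by
      intro s; ring
    rw [this]
    linarith

theorem drift_wait_one {r t : ℕ} (h : t < NN r) :
    1 + ∑' y, K la PP nx (1, (r, t)) y * V' y ≤ ENNReal.ofReal (2 + 3 * la * NN 0) := by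
  rw [tot_eq]
  have hs0 := suc_nonneg (w := 1) (PP_mem (r, t)).1 (PP_mem (r, t)).2
  have hs1 := suc_le_one (w := 1) (PP_mem (r, t)).1 (PP_mem (r, t)).2
  have hla := la_pos
  have hN0 := NN_ge' 0
  have hNr := NN_ge' r
  have ht : (0:ℝ) ≤ t := Nat.cast_nonneg t
  have ht2 : (t:ℝ) ≤ NN r := by exact_mod_cast h.le
  have hG := GG_nonneg (r + 1) 1
  have hE1 : Ex la (fun A => V' (1 - 1 + A, nx (r, t) true)) ≤
      ENNReal.ofReal (0 + (2 * NN 0 + 2048) * la) := by
    apply Ex_const_lin le_rfl (by positivity)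
    intro A
    rw [nx_true_wait h]
    rcases Nat.eq_zero_or_pos A with hA | hA
    · subst hA
      have : V' (1 - 1 + 0, (0, TT 0 - 1)) = 0 := by unfold V' xs; simp
      rw [this]; exact zero_le
    · refine le_trans (V'_le _) (ENNReal.ofReal_le_ofReal ?_)
      have h1 := start_le 0 (1 - 1 + A)
      have h2 := GG_le 0 (1 - 1 + A)
      have hA' : (1:ℝ) ≤ A := by exact_mod_cast hA
      simp only [Nat.sub_self, zero_add] at h1 h2 ⊢
      nlinarith
  refine combine hs0 hs1 (e1 := 0 + (2 * NN 0 + 2048) * la)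
      (e2 := 2 * t + GG (r + 1) 1 + 2048 * la) (by positivity) (by positivity)
      hE1 (Ex_fail 1 r t) ?_
  have hp : PP (r, t) = 1 - ep (r, t) := PP_wait h
  have he0 := ep_pos (r, t)
  have he1 := ep_le (r, t)
  have he2 : ep (r, t) * NN r ≤ 1 / 16384 := ep_mul_le (r, t)
  have hs : suc 1 (PP (r, t)) = 1 - ep (r, t) := by rw [hp]; simp [suc]
  rw [hs]
  have hGle := GG_le (r + 1) 1
  rw [NN_succ] at hGle
  have h10 : 2048 * la ≤ 1 / 4 := by unfold la; norm_num
  have h11 : (1 - (1 - ep (r, t))) * (2 * t + GG (r + 1) 1 + 2048 * la) ≤ 1 / 2 := by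
    rw [show 1 - (1 - ep (r, t)) = ep (r, t) by ring]
    calc ep (r, t) * (2 * t + GG (r + 1) 1 + 2048 * la) ≤ ep (r, t) * (7 * NN r) := by
          apply mul_le_mul_of_nonneg_left _ he0.le
          push_cast at hGle
          linarith
      _ = 7 * (ep (r, t) * NN r) := by ring
      _ ≤ 1 / 2 := by linarith
  have h12 : (1 - ep (r, t)) * (0 + (2 * NN 0 + 2048) * la) ≤ (2 * NN 0 + 2048) * la := by
    rw [zero_add]
    have : 0 ≤ (2 * NN 0 + 2048) * la := by positivity
    nlinarith
  have h13 : 0 ≤ la * NN 0 := by positivity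
  linarith

theorem drift_wait_zero {r t : ℕ} (h : t < NN r) :
    1 + ∑' y, K la PP nx (0, (r, t)) y * V' y ≤
      ENNReal.ofReal (NN r * (8 * la + 4 * zeta ^ (t + 1))) := by
  rw [tot_eq]
  have hsz : suc 0 (PP (r, t)) = 0 := by simp [suc]
  rw [hsz, sub_zero, ENNReal.ofReal_zero, zero_mul, zero_add, ENNReal.ofReal_one, one_mul]
  have hla := la_pos
  have hN0 := NN_ge' 0
  have hNr := NN_ge' r
  have hN0r := NN_mono0 r
  have hz0 : 0 < zeta := by unfold zeta la; norm_num
  rcases Nat.eq_zero_or_pos t with ht | ht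
  · subst ht
    have hE : Ex la (fun A => V' (0 + A, nx (r, 0) false)) ≤
        ENNReal.ofReal (4 * NN r + 2048 * la) := by
      apply Ex_const_lin (by positivity) (by norm_num)
      intro A
      refine le_trans (V'_le _) (ENNReal.ofReal_le_ofReal ?_)
      have h1 := nx_false_le (0 + A) r 0
      have h2 := GG_le (r + 1) (0 + A)
      rw [NN_succ] at h2
      simp only [zero_add, Nat.cast_zero, mul_zero] at h1 h2 ⊢
      linarith
    refine le_trans (add_le_add_right hE 1) ?_
    rw [← ENNReal.ofReal_one, ← ENNReal.ofReal_add (by norm_num) (by positivity)]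
    apply ENNReal.ofReal_le_ofReal
    unfold zeta la
    norm_num
    linarith
  · have ht1 : (t:ℝ) ≤ NN r := by exact_mod_cast h.le
    have hE : Ex la (fun A => V' (0 + A, nx (r, t) false)) ≤
        ENNReal.ofReal (0 + (2 + 3 * la * NN 0) * la + 0 * Real.exp la +
          (NN r * (8 * la + 4 * zeta ^ t)) * Real.exp (-la) + (3 * NN r + 2048) * la ^ 2) := by
      apply Ex_le hla.le le_rfl (by positivity) le_rfl (by positivity) (by positivity)
      intro A
      refine le_trans (V'_le _) (ENNReal.ofReal_le_ofReal ?_)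
      have hnx : nx (r, t) false = (r, t - 1) := by
        unfold nx
        simp only [Bool.false_eq_true, if_false]
        rw [if_neg (by omega)]
      rw [hnx]
      rcases Nat.lt_or_ge A 2 with hA | hA
      · interval_cases A
        · unfold VV
          simp only
          rw [if_pos (by omega), if_pos (by norm_num), show t - 1 + 1 = t by omega]
          refine le_trans (min_le_right _ _) (le_of_eq ?_)
          norm_num
        · unfold VV
          simp only
          rw [if_pos (by omega), if_neg (by norm_num), if_pos (by norm_num)]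
          norm_num
      · have hA' : (2:ℝ) ≤ A := by exact_mod_cast hA
        refine le_trans (VV_le_Va _ _ _) ?_
        unfold Va
        have h2 := GG_le (r + 1) (0 + A)
        rw [NN_succ] at h2
        have e1 : ((t - 1 : ℕ) : ℝ) + 1 = t := by
          have : t - 1 + 1 = t := by omega
          exact_mod_cast this
        rw [e1, if_neg (by omega)]
        simp only [zero_add] at h2 ⊢
        have h3 : (2:ℝ) ≤ A * (A - 1) := by nlinarith
        have h4 : (A:ℝ) ≤ A * (A - 1) := by nlinarith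
        have h5 : 6 * (NN r : ℝ) + 2048 * A ≤ (3 * NN r + 2048) * (A * (A - 1)) := by nlinarith
        have h6 : 0 ≤ (2 + 3 * la * NN 0) * (A:ℝ) := by positivity
        linarith
    refine le_trans (add_le_add_right hE 1) ?_
    have hexp := exp_neg_la_le
    have hexp0 := Real.exp_pos (-la)
    rw [← ENNReal.ofReal_one, ← ENNReal.ofReal_add (by norm_num) (by positivity)]
    apply ENNReal.ofReal_le_ofReal
    set Z := zeta ^ t with hZ
    have hZ0 : 0 < Z := by positivity
    have hzs : zeta ^ (t + 1) = Z * (1 - la / 2) := by rw [pow_succ]; rfl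
    rw [hzs]
    have h1 : (NN r * (8 * la + 4 * Z)) * Real.exp (-la) ≤
        (NN r * (8 * la + 4 * Z)) * (1 - la + la ^ 2) :=
      mul_le_mul_of_nonneg_left hexp (by positivity)
    have h2 : (1 - la + la ^ 2) * (4 * Z) ≤ 4 * (Z * (1 - la / 2)) := by
      have : 1 - la + la ^ 2 ≤ 1 - la / 2 := by unfold la; norm_num
      have := mul_le_mul_of_nonneg_right this (show 0 ≤ 4 * Z by positivity)
      linarith
    have h3 : (NN r : ℝ) * ((1 - la + la ^ 2) * (4 * Z)) ≤ NN r * (4 * (Z * (1 - la / 2))) :=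
      mul_le_mul_of_nonneg_left h2 (by linarith)
    have h4 : 1 + ((2 + 3 * la * NN 0) * la + (3 * NN r + 2048) * la ^ 2) ≤
        NN r * (8 * la * (la - la ^ 2)) := by
      have e1 : 3 * la * NN 0 * la ≤ 3 * la * NN r * la := by
        apply mul_le_mul_of_nonneg_right _ hla.le
        exact mul_le_mul_of_nonneg_left hN0r (by positivity)
      have e2 : 1 + ((2 + 3 * la * NN r) * la + (3 * NN r + 2048) * la ^ 2) ≤
        NN r * (8 * la * (la - la ^ 2)) := by
        unfold la
        norm_num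
        linarith
      linarith
    linarith

theorem ramp_next {r j w : ℕ} (hj : j < 6000 + (NN r - 640)) :
    VV (w, nx (r, NN r + j) false) ≤ j + NN r * FF j w := by
  have hN := NN_ge r
  have hnx : nx (r, NN r + j) false = (r, NN r + j - 1) := by
    unfold nx
    simp only [Bool.false_eq_true, if_false]
    rw [if_neg (by omega)]
  rw [hnx]
  rcases Nat.eq_zero_or_pos j with h0 | h0
  · subst h0
    have := wait_start_le r w
    simpa using this
  · unfold VV
    simp only
    have hTT : TT r = NN r + (6000 + (NN r - 640)) := rfl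
    rw [if_neg (by omega), if_pos (by omega)]
    refine le_trans (min_le_right _ _) (le_of_eq ?_)
    rw [show NN r + j - 1 - NN r = j - 1 by omega]
    unfold Vb
    rw [show j - 1 + 1 = j by omega]
    congr 1
    have : j - 1 + 1 = j := by omega
    exact_mod_cast this

theorem FF_nonneg (j w : ℕ) : 0 ≤ FF j w := by
  unfold FF
  have := al_pos j
  have := hs_nonneg j
  have := two_pow_sub_one_nonneg w
  positivity

theorem Ex_ramp {r j w : ℕ} (hj : j < 6000 + (NN r - 640)) :
    Ex la (fun A => V' (w + A, nx (r, NN r + j) false)) ≤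
      ENNReal.ofReal (j + NN r * (hs j - al j) + NN r * al j * 2 ^ w * Real.exp la) := by
  have e : ∀ A : ℕ, (j : ℝ) + NN r * (hs j - al j) + NN r * al j * 2 ^ w * 2 ^ A =
      j + NN r * FF j (w + A) := by
    intro A
    unfold FF
    rw [pow_add]; ring
  apply Ex_le' la_pos.le
  · intro A
    rw [e]
    have := FF_nonneg j (w + A)
    positivity
  · intro A
    rw [e]
    exact le_trans (V'_le _) (ENNReal.ofReal_le_ofReal (ramp_next hj))

theorem drift_Vb {r j w : ℕ} (hj : j < 6000 + (NN r - 640)) (hw : 32 * w ≤ ni r j) :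
    1 + ∑' y, K la PP nx (w, (r, NN r + j)) y * V' y ≤ ENNReal.ofReal (Vb w r j) := by
  rw [tot_eq]
  have hs0 := suc_nonneg (w := w) (PP_mem (r, NN r + j)).1 (PP_mem (r, NN r + j)).2
  have hs1 := suc_le_one (w := w) (PP_mem (r, NN r + j)).1 (PP_mem (r, NN r + j)).2
  have hla := la_pos
  have hNr := NN_ge' r
  have hal := al_pos j
  have hhs := hs_nonneg j
  have hexp : 1 ≤ Real.exp la := Real.one_le_exp hla.le
  have hj0 : (0:ℝ) ≤ j := Nat.cast_nonneg j
  have hnn : ∀ v : ℕ, 0 ≤ (j : ℝ) + NN r * (hs j - al j) + NN r * al j * 2 ^ v * Real.exp la := by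
    intro v
    have h1 : (1:ℝ) ≤ 2 ^ v := one_le_pow₀ (by norm_num)
    have h2 : 1 ≤ 2 ^ v * Real.exp la := by nlinarith
    have h3 : NN r * al j * 1 ≤ NN r * al j * (2 ^ v * Real.exp la) :=
      mul_le_mul_of_nonneg_left h2 (by positivity)
    have h4 : 0 ≤ NN r * hs j := by positivity
    have h5 : (j : ℝ) + NN r * (hs j - al j) + NN r * al j * 2 ^ v * Real.exp la =
      j + NN r * hs j - NN r * al j * 1 + NN r * al j * (2 ^ v * Real.exp la) := by ring
    rw [h5]; linarith
  have hsuc : Ex la (fun A => V' (w - 1 + A, nx (r, NN r + j) true)) ≤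
      ENNReal.ofReal (j + NN r * (hs j - al j) + NN r * al j * 2 ^ (w - 1) * Real.exp la) := by
    have := Ex_ramp (w := w - 1) hj
    rw [← nx_true_ramp (show NN r ≤ NN r + j by omega)] at this
    exact this
  refine combine hs0 hs1 (hnn (w - 1)) (hnn w) hsuc (Ex_ramp hj) ?_
  unfold Vb
  rcases Nat.eq_zero_or_pos w with h0 | h0
  · subst h0
    have hsz : suc 0 (PP (r, NN r + j)) = 0 := by simp [suc]
    rw [hsz]
    have h1 := step_zero j
    have h2 : (NN r : ℝ) * (al j * (Real.exp la - 1) + hs j) ≤ NN r * hs (j + 1) :=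
      mul_le_mul_of_nonneg_left h1 (by linarith)
    have h3 : FF (j + 1) 0 = hs (j + 1) := by unfold FF; simp
    rw [h3]
    simp only [pow_zero]
    linarith
  · have hge : ¬ (NN r + j < NN r) := by omega
    obtain ⟨p1, p2⟩ := PP_ramp (m := (r, NN r + j)) hge
    have hsub : NN r + j - NN r = j := by omega
    simp only [hsub] at p1 p2
    have h1 := step_pos hj h0 hw p1 p2 (PP_mem _).2
    have h2 : (NN r : ℝ) * (al j * (2 ^ w * (1 - suc w (PP (r, NN r + j)) / 2) * Real.exp la - 1) +
        hs j) ≤ NN r * FF (j + 1) w := mul_le_mul_of_nonneg_left h1 (by linarith)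
    have h3 : (2:ℝ) ^ w = 2 * 2 ^ (w - 1) := by
      rw [← pow_succ']; congr 1; omega
    set s := suc w (PP (r, NN r + j)) with hsd
    have h4 : s * ((j : ℝ) + NN r * (hs j - al j) + NN r * al j * 2 ^ (w - 1) * Real.exp la) +
        (1 - s) * ((j : ℝ) + NN r * (hs j - al j) + NN r * al j * 2 ^ w * Real.exp la) =
        j + NN r * (al j * (2 ^ w * (1 - s / 2) * Real.exp la - 1) + hs j) := by
      rw [h3]; ring
    rw [h4]
    linarith

theorem drift (x : X) : 1 + ∑' y, K la PP nx x y * V' y ≤ ENNReal.ofReal (VV x) := by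
  obtain ⟨w, r, t⟩ := x
  unfold VV
  simp only
  split_ifs with h1 h2 h3 h4
  · subst h2
    rcases min_choice (Va 0 r t) (NN r * (8 * la + 4 * zeta ^ (t + 1))) with h | h
    · rw [h]; exact drift_Va (by omega)
    · rw [h]; exact drift_wait_zero h1
  · subst h3
    exact drift_wait_one h1
  · exact drift_Va (by omega)
  · obtain ⟨j, rfl⟩ : ∃ j, t = NN r + j := ⟨t - NN r, by omega⟩
    have hTT : TT r = NN r + (6000 + (NN r - 640)) := rfl
    have hj : j < 6000 + (NN r - 640) := by omega
    rw [show NN r + j - NN r = j by omega]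
    have hVa := drift_Va (w := w) (r := r) (t := NN r + j) (by omega)
    rcases min_choice (Va w r (NN r + j)) (Vb w r j) with h | h
    · rw [h]; exact hVa
    · rw [h]
      by_cases hw : 32 * w ≤ ni r j
      · exact drift_Vb hj hw
      · exact le_trans hVa (ENNReal.ofReal_le_ofReal (bad hj (by omega)))
  · exact drift_Va (by omega)

theorem exists_stationary : ∃ μ : X → ℝ≥0∞, ∑' x, μ x = 1 ∧
    ∀ y, μ y = ∑' x, μ x * K la PP nx x y := by
  classical
  have hV : ∀ x, 1 + ∑' y, K la PP nx x y * (if y = xs then 0 else ENNReal.ofReal (VV y)) ≤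
      ENNReal.ofReal (VV x) := by
    intro x
    have := drift x
    unfold V' at this
    convert this using 5
  refine foster (K la PP nx) (K_row la PP nx la_pos.le PP_mem) xs
    (fun x => ENNReal.ofReal (VV x)) (fun x _ => hV x) ?_
  refine ne_top_of_le_ne_top (ENNReal.ofReal_ne_top (r := VV xs)) ?_
  exact le_trans le_add_self (hV xs)

end Aloha
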