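import Mathlib

namespace GlauberMono

/-- slot sizes (40 bits per slot) -/
@[reducible] def W (T x0 x1 x2 x3 : ℕ) : ℕ :=
  (((((((T >>> (13720 * x3)) % 2 ^ 13720) >>> (1960 * x2)) % 2 ^ 1960) >>> (280 * x1)) % 2 ^ 280)
    >>> (40 * x0)) % 2 ^ 40

def sum7 (f : ℕ → ℕ) : ℕ := f 0 + f 1 + f 2 + f 3 + f 4 + f 5 + f 6
def all7 (f : ℕ → Bool) : Bool := f 0 && f 1 && f 2 && f 3 && f 4 && f 5 && f 6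

def M0 (T x1 x2 x3 : ℕ) : ℕ := sum7 fun c => W T c x1 x2 x3
def M1 (T x0 x2 x3 : ℕ) : ℕ := sum7 fun c => W T x0 c x2 x3
def M2 (T x0 x1 x3 : ℕ) : ℕ := sum7 fun c => W T x0 x1 c x3
def M3 (T x0 x1 x2 : ℕ) : ℕ := sum7 fun c => W T x0 x1 x2 c

/-- number of rejected moves -/
def rej (x0 x1 x2 x3 : ℕ) : ℕ :=
  2 + (bif Nat.beq x0 x2 then 1 else 2) + (bif Nat.beq x1 x3 then 1 else 2)

def S (T x0 x1 x2 x3 : ℕ) : ℕ :=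
  M0 T x1 x2 x3 + M1 T x0 x2 x3 + M2 T x0 x1 x3 + M3 T x0 x1 x2
    + rej x0 x1 x2 x3 * W T x0 x1 x2 x3

def prop4 (x0 x1 x2 x3 : ℕ) : Bool :=
  !(Nat.beq x0 x1) && !(Nat.beq x1 x2) && !(Nat.beq x2 x3)

def build (T : ℕ) : ℕ :=
  sum7 fun x3 => sum7 fun x2 => sum7 fun x1 => sum7 fun x0 =>
    bif prop4 x0 x1 x2 x3 then (S T x0 x1 x2 x3) <<< (40 * (x0 + 7 * x1 + 49 * x2 + 343 * x3))
    else 0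

def check (T T' : ℕ) : Bool :=
  all7 fun x3 => all7 fun x2 => all7 fun x1 => all7 fun x0 =>
    bif prop4 x0 x1 x2 x3 then Nat.beq (W T' x0 x1 x2 x3) (S T x0 x1 x2 x3)
    else Nat.beq (W T' x0 x1 x2 x3) 0

def start (a0 a1 a2 a3 : ℕ) : ℕ := 1 <<< (40 * (a0 + 7 * a1 + 49 * a2 + 343 * a3))

def checkStart (a0 a1 a2 a3 T : ℕ) : Bool :=
  all7 fun x3 => all7 fun x2 => all7 fun x1 => all7 fun x0 =>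
    Nat.beq (W T x0 x1 x2 x3)
      (bif (Nat.beq x0 a0 && Nat.beq x1 a1 && Nat.beq x2 a2 && Nat.beq x3 a3) then 1 else 0)

def total (T : ℕ) : ℕ :=
  sum7 fun x3 => sum7 fun x2 => sum7 fun x1 => sum7 fun x0 =>
    bif prop4 x0 x1 x2 x3 then (1512 * W T x0 x1 x2 x3 - 28 ^ 8) + (28 ^ 8 - 1512 * W T x0 x1 x2 x3)
    else 0

def T0 (a0 a1 a2 a3 : ℕ) : ℕ := start a0 a1 a2 a3
def T1 (a0 a1 a2 a3 : ℕ) : ℕ := build (T0 a0 a1 a2 a3)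
def T2 (a0 a1 a2 a3 : ℕ) : ℕ := build (T1 a0 a1 a2 a3)
def T3 (a0 a1 a2 a3 : ℕ) : ℕ := build (T2 a0 a1 a2 a3)
def T4 (a0 a1 a2 a3 : ℕ) : ℕ := build (T3 a0 a1 a2 a3)
def T5 (a0 a1 a2 a3 : ℕ) : ℕ := build (T4 a0 a1 a2 a3)
def T6 (a0 a1 a2 a3 : ℕ) : ℕ := build (T5 a0 a1 a2 a3)
def T7 (a0 a1 a2 a3 : ℕ) : ℕ := build (T6 a0 a1 a2 a3)
def T8 (a0 a1 a2 a3 : ℕ) : ℕ := build (T7 a0 a1 a2 a3)

def fullCheck (a0 a1 a2 a3 : ℕ) : Bool :=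
  checkStart a0 a1 a2 a3 (T0 a0 a1 a2 a3) &&
  check (T0 a0 a1 a2 a3) (T1 a0 a1 a2 a3) && check (T1 a0 a1 a2 a3) (T2 a0 a1 a2 a3) &&
  check (T2 a0 a1 a2 a3) (T3 a0 a1 a2 a3) && check (T3 a0 a1 a2 a3) (T4 a0 a1 a2 a3) &&
  check (T4 a0 a1 a2 a3) (T5 a0 a1 a2 a3) && check (T5 a0 a1 a2 a3) (T6 a0 a1 a2 a3) &&
  check (T6 a0 a1 a2 a3) (T7 a0 a1 a2 a3) && check (T7 a0 a1 a2 a3) (T8 a0 a1 a2 a3) &&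
  Nat.ble (10000 * total (T8 a0 a1 a2 a3)) (2 * 3678 * 1512 * 28 ^ 8)

end GlauberMono
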