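import Mathlib

namespace GlauberMono

/-- the proper `q`-colourings of the graph `G` -/
@[ext]
structure Col {V : Type} (G : SimpleGraph V) (q : ℕ) where
  /-- the colour of each vertex -/
  col : V → Fin q
  /-- adjacent vertices receive different colours -/
  proper : ∀ u v, G.Adj u v → col u ≠ col v

noncomputable instance {V : Type} [Fintype V] (G : SimpleGraph V) (q : ℕ) :
    Fintype (Col G q) := by
  classical
  exact Fintype.ofInjective (fun σ : Col G q => σ.col) (fun _ _ h => Col.ext h)

noncomputable instance {V : Type} (G : SimpleGraph V) (q : ℕ) :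
    DecidableEq (Col G q) := Classical.decEq _

/-- one Glauber update: recolour vertex `m.1` with colour `m.2` if the result is proper,
otherwise stay put -/
noncomputable def step {V : Type} [DecidableEq V] (G : SimpleGraph V) (q : ℕ)
    (σ : Col G q) (m : V × Fin q) : Col G q :=
  open Classical in
  if h : ∀ u v, G.Adj u v → Function.update σ.col m.1 m.2 u ≠ Function.update σ.col m.1 m.2 v
  then ⟨Function.update σ.col m.1 m.2, h⟩ else σ

/-- the transition matrix of the Glauber dynamics: the move `m = (v, c)` is uniform on `V × Fin q` -/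
noncomputable def P {V : Type} [Fintype V] [DecidableEq V] (G : SimpleGraph V) (q : ℕ) :
    Matrix (Col G q) (Col G q) ℝ :=
  fun σ τ => ((Finset.univ.filter (fun m : V × Fin q => step G q σ m = τ)).card : ℝ)
    / ((Fintype.card V : ℝ) * q)

/-- total variation distance between the law after `t` steps from `σ` and the uniform law -/
noncomputable def tv {V : Type} [Fintype V] [DecidableEq V] (G : SimpleGraph V) (q t : ℕ)
    (σ : Col G q) : ℝ :=
  (1 / 2) * ∑ τ : Col G q, |(P G q ^ t) σ τ - 1 / (Fintype.card (Col G q) : ℝ)|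

/-- the mixing time `t_G(q)` (with value `⊤` if there is no such `t`) -/
noncomputable def tmix {V : Type} [Fintype V] [DecidableEq V] (G : SimpleGraph V) (q : ℕ) : ℕ∞ :=
  sInf {T : ℕ∞ | ∃ t : ℕ, T = t ∧ ∀ σ : Col G q, tv G q t σ ≤ Real.exp (-1)}

section general
variable {V : Type} [Fintype V] [DecidableEq V] (G : SimpleGraph V) (q : ℕ)

theorem step_proper {σ : Col G q} {m : V × Fin q}
    (h : ∀ u v, G.Adj u v → Function.update σ.col m.1 m.2 u ≠ Function.update σ.col m.1 m.2 v) :
    (step G q σ m).col = Function.update σ.col m.1 m.2 := by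
  unfold step; rw [dif_pos h]

theorem step_improper {σ : Col G q} {m : V × Fin q}
    (h : ¬ ∀ u v, G.Adj u v → Function.update σ.col m.1 m.2 u ≠ Function.update σ.col m.1 m.2 v) :
    step G q σ m = σ := by
  unfold step; rw [dif_neg h]

/-- expectation of a function after one step -/
theorem P_sum (f : Col G q → ℝ) (σ : Col G q) :
    ∑ τ, P G q σ τ * f τ = (∑ m : V × Fin q, f (step G q σ m)) / ((Fintype.card V : ℝ) * q) := by
  have h1 : ∀ τ, P G q σ τ * f τ =
      (∑ m ∈ Finset.univ.filter (fun m : V × Fin q => step G q σ m = τ), f (step G q σ m))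
        / ((Fintype.card V : ℝ) * q) := by
    intro τ
    unfold P
    rw [Finset.sum_congr rfl (g := fun _ => f τ)]
    · rw [Finset.sum_const, nsmul_eq_mul]; ring
    · intro m hm
      rw [(Finset.mem_filter.mp hm).2]
  rw [Finset.sum_congr rfl (fun τ _ => h1 τ), ← Finset.sum_div]
  congr 1
  exact Finset.sum_fiberwise Finset.univ (fun m => step G q σ m) (fun m => f (step G q σ m))

theorem step_ne {σ τ : Col G q} (hne : σ ≠ τ) {m : V × Fin q} (h : step G q σ m = τ) :
    τ.col = Function.update σ.col m.1 m.2 := by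
  by_cases hp : ∀ u v, G.Adj u v →
      Function.update σ.col m.1 m.2 u ≠ Function.update σ.col m.1 m.2 v
  · rw [← h, step_proper G q hp]
  · rw [step_improper G q hp] at h; exact absurd h hne

theorem P_symm (σ τ : Col G q) : P G q σ τ = P G q τ σ := by
  by_cases hne : σ = τ
  · rw [hne]
  unfold P
  congr 2
  have key : ∀ (σ τ : Col G q), σ ≠ τ → ∀ m : V × Fin q, step G q σ m = τ →
      step G q τ (m.1, σ.col m.1) = σ := by
    intro σ τ hne m hm
    have h1 := step_ne G q hne hm
    have h2 : Function.update τ.col m.1 (σ.col m.1) = σ.col := by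
      rw [h1]; simp
    apply Col.ext
    rw [step_proper]
    · exact h2
    · rw [h2]; exact σ.proper
  refine Finset.card_nbij' (fun m => (m.1, σ.col m.1)) (fun m => (m.1, τ.col m.1)) ?_ ?_ ?_ ?_
  · intro m hm
    simp only [Finset.coe_filter, Finset.mem_univ, true_and, Set.mem_ofPred_eq] at hm ⊢
    exact key σ τ hne m hm
  · intro m hm
    simp only [Finset.coe_filter, Finset.mem_univ, true_and, Set.mem_ofPred_eq] at hm ⊢
    exact key τ σ (Ne.symm hne) m hm
  · intro m hm
    simp only [Finset.coe_filter, Finset.mem_univ, true_and, Set.mem_ofPred_eq] at hm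
    have := step_ne G q hne hm
    rw [this]
    simp
  · intro m hm
    simp only [Finset.coe_filter, Finset.mem_univ, true_and, Set.mem_ofPred_eq] at hm
    have := step_ne G q (Ne.symm hne) hm
    rw [this]
    simp

/-- forward recursion -/
theorem pow_succ_apply (t : ℕ) (σ τ : Col G q) :
    (P G q ^ (t + 1)) σ τ =
      (∑ m : V × Fin q, (P G q ^ t) σ (step G q τ m)) / ((Fintype.card V : ℝ) * q) := by
  rw [pow_succ, Matrix.mul_apply, ← P_sum G q (fun ρ => (P G q ^ t) σ ρ) τ]
  refine Finset.sum_congr rfl (fun ρ _ => ?_)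
  rw [P_symm G q ρ τ]; ring

/-- backward recursion -/
theorem pow_succ_sum (t : ℕ) (f : Col G q → ℝ) (σ : Col G q) :
    ∑ τ, (P G q ^ (t + 1)) σ τ * f τ =
      (∑ m : V × Fin q, ∑ τ, (P G q ^ t) (step G q σ m) τ * f τ) / ((Fintype.card V : ℝ) * q) := by
  rw [← P_sum G q (fun ρ => ∑ τ, (P G q ^ t) ρ τ * f τ) σ]
  rw [pow_succ']
  simp only [Matrix.mul_apply, Finset.sum_mul, Finset.mul_sum]
  rw [Finset.sum_comm]
  refine Finset.sum_congr rfl (fun ρ _ => Finset.sum_congr rfl (fun τ _ => ?_))
  ring

/-- action of a permutation of the colours -/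
def act (g : Equiv.Perm (Fin q)) : Col G q ≃ Col G q where
  toFun σ := ⟨fun v => g (σ.col v), fun u v h e => σ.proper u v h (g.injective e)⟩
  invFun σ := ⟨fun v => g.symm (σ.col v), fun u v h e => σ.proper u v h (g.symm.injective e)⟩
  left_inv σ := by apply Col.ext; funext v; simp
  right_inv σ := by apply Col.ext; funext v; simp

theorem act_update (g : Equiv.Perm (Fin q)) (σ : Col G q) (v : V) (c : Fin q) :
    Function.update (act G q g σ).col v (g c) = fun w => g (Function.update σ.col v c w) := by
  funext w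
  by_cases h : w = v
  · subst h; simp
  · simp [Function.update_of_ne h, act]

theorem step_act (g : Equiv.Perm (Fin q)) (σ : Col G q) (v : V) (c : Fin q) :
    step G q (act G q g σ) (v, g c) = act G q g (step G q σ (v, c)) := by
  have hu := act_update G q g σ v c
  by_cases hp : ∀ a b, G.Adj a b →
      Function.update σ.col v c a ≠ Function.update σ.col v c b
  · have hp' : ∀ a b, G.Adj a b → Function.update (act G q g σ).col v (g c) a ≠
        Function.update (act G q g σ).col v (g c) b := by
      rw [hu]; intro a b hab e; exact hp a b hab (g.injective e)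
    apply Col.ext
    rw [step_proper G q (m := (v, g c)) hp']
    change Function.update (act G q g σ).col v (g c) = fun w => g ((step G q σ (v, c)).col w)
    rw [step_proper G q (m := (v, c)) hp, hu]
  · have hp' : ¬ ∀ a b, G.Adj a b → Function.update (act G q g σ).col v (g c) a ≠
        Function.update (act G q g σ).col v (g c) b := by
      rw [hu]; intro h; exact hp (fun a b hab e => h a b hab (congrArg g e))
    rw [step_improper G q (m := (v, g c)) hp', step_improper G q (m := (v, c)) hp]

theorem pow_act (g : Equiv.Perm (Fin q)) (t : ℕ) (σ τ : Col G q) :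
    (P G q ^ t) (act G q g σ) (act G q g τ) = (P G q ^ t) σ τ := by
  induction t generalizing τ with
  | zero =>
    simp [Matrix.one_apply]
  | succ t ih =>
    rw [pow_succ_apply, pow_succ_apply]
    congr 1
    rw [← Equiv.sum_comp (Equiv.prodCongr (Equiv.refl V) g)]
    refine Finset.sum_congr rfl (fun m _ => ?_)
    have : (Equiv.prodCongr (Equiv.refl V) g) m = (m.1, g m.2) := rfl
    rw [this, step_act, ih]

theorem tv_act (g : Equiv.Perm (Fin q)) (t : ℕ) (σ : Col G q) :
    tv G q t (act G q g σ) = tv G q t σ := by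
  unfold tv
  congr 1
  rw [← Equiv.sum_comp (act G q g)]
  refine Finset.sum_congr rfl (fun τ _ => ?_)
  rw [pow_act]

theorem row_sum (hV : 0 < Fintype.card V) (hq : 0 < q) (t : ℕ) (σ : Col G q) :
    ∑ τ, (P G q ^ t) σ τ = 1 := by
  have hpos : (0:ℝ) < (Fintype.card V : ℝ) * q := by positivity
  induction t generalizing σ with
  | zero => simp [Matrix.one_apply]
  | succ t ih =>
    have h := pow_succ_sum G q t (fun _ => 1) σ
    simp only [mul_one] at h
    rw [h]
    simp only [ih]
    rw [Finset.sum_const, Finset.card_univ, Fintype.card_prod, Fintype.card_fin]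
    simp only [nsmul_eq_mul, mul_one]
    rw [div_eq_one_iff_eq (ne_of_gt hpos)]
    push_cast; ring

/-- lower bound for the total variation distance through an event -/
theorem tv_lower (hV : 0 < Fintype.card V) (hq : 0 < q) [Nonempty (Col G q)] (t : ℕ)
    (σ : Col G q) (A : Finset (Col G q)) :
    ∑ τ, (P G q ^ t) σ τ * (if τ ∈ A then 1 else 0) - (A.card : ℝ) / Fintype.card (Col G q)
      ≤ tv G q t σ := by
  classical
  have hN : (0:ℝ) < Fintype.card (Col G q) := by
    exact_mod_cast Fintype.card_pos
  have h1 := row_sum G q hV hq t σ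
  set μ : Col G q → ℝ := fun τ => (P G q ^ t) σ τ with hμ
  set N : ℝ := (Fintype.card (Col G q) : ℝ) with hNd
  have h2 : ∑ τ : Col G q, (μ τ - 1 / N) = 0 := by
    rw [Finset.sum_sub_distrib, h1, Finset.sum_const, Finset.card_univ, nsmul_eq_mul]
    field_simp
    ring
  have h3 : ∑ τ : Col G q, (μ τ - 1 / N) * (if τ ∈ A then 1 else 0)
      = ∑ τ, μ τ * (if τ ∈ A then 1 else 0) - (A.card : ℝ) / N := by
    have : ∀ τ : Col G q, (μ τ - 1 / N) * (if τ ∈ A then (1:ℝ) else 0) =
        μ τ * (if τ ∈ A then (1:ℝ) else 0) - (if τ ∈ A then (1:ℝ) else 0) / N := by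
      intro τ; ring
    rw [Finset.sum_congr rfl (fun τ _ => this τ), Finset.sum_sub_distrib, ← Finset.sum_div]
    congr 2
    simp
  rw [← h3]
  unfold tv
  have h4 : ∀ τ : Col G q, (μ τ - 1 / N) * (if τ ∈ A then (1:ℝ) else 0)
      ≤ (1/2) * |μ τ - 1 / N| + (1/2) * (μ τ - 1 / N) := by
    intro τ
    split_ifs
    · have := le_abs_self (μ τ - 1/N); linarith
    · have := neg_abs_le (μ τ - 1/N); linarith
  calc ∑ τ : Col G q, (μ τ - 1 / N) * (if τ ∈ A then (1:ℝ) else 0)
      ≤ ∑ τ : Col G q, ((1/2) * |μ τ - 1 / N| + (1/2) * (μ τ - 1 / N)) :=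
        Finset.sum_le_sum (fun τ _ => h4 τ)
    _ = (1/2) * ∑ τ : Col G q, |μ τ - 1 / N| := by
        rw [Finset.sum_add_distrib, ← Finset.mul_sum, ← Finset.mul_sum, h2]; ring

end general
end GlauberMono
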