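import Pool.Agent.Helper29.GlauberCheck
namespace GlauberMono
theorem fc0101 : fullCheck 0 1 0 1 = true := by decide +kernel
theorem fc0102 : fullCheck 0 1 0 2 = true := by decide +kernel
theorem fc0120 : fullCheck 0 1 2 0 = true := by decide +kernel
theorem fc0121 : fullCheck 0 1 2 1 = true := by decide +kernel
theorem fc0123 : fullCheck 0 1 2 3 = true := by decide +kernel
theorem tot1 : (sum7 fun x3 => sum7 fun x2 => sum7 fun x1 => sum7 fun x0 =>
    bif prop4 x0 x1 x2 x3 then 1 else 0) = 1512 := by decide +kernel
end GlauberMono
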