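import Pool.Agent.Helper29.GlauberUpper

namespace GlauberMono

/-- probability (over `t` uniform vertices of the four) that a fixed `k`-set is not covered -/
noncomputable def hh : ℕ → ℕ → ℝ
  | 0, k => if k = 0 then 0 else 1
  | t + 1, k => ((4 - k) * hh t k + k * hh t (k - 1)) / 4

theorem hh_lower (t : ℕ) (ht : t ≤ 8) : (0.377 : ℝ) ≤ hh t 4 := by
  interval_cases t <;> norm_num [hh]

theorem step_off {q : ℕ} (σ : Col P4 q) (m : Fin 4 × Fin q) (w : Fin 4) (hw : w ≠ m.1) :
    (step P4 q σ m).col w = σ.col w := by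
  by_cases hp : ∀ u v, P4.Adj u v →
      Function.update σ.col m.1 m.2 u ≠ Function.update σ.col m.1 m.2 v
  · rw [step_proper P4 q hp, Function.update_of_ne hw]
  · rw [step_improper P4 q hp]

theorem hit_lower {q : ℕ} (hq : 0 < q) (σ0 : Col P4 q) (A : Finset (Col P4 q))
    (hA : ∀ τ, (∃ v, τ.col v = σ0.col v) → τ ∈ A) (t : ℕ) :
    ∀ (σ : Col P4 q) (D : Finset (Fin 4)), (∀ v ∈ D, σ.col v = σ0.col v) →
      hh t D.card ≤ ∑ τ, (P P4 q ^ t) σ τ * (if τ ∈ A then (1:ℝ) else 0) := by
  classical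
  have hq' : (0:ℝ) < q := by exact_mod_cast hq
  induction t with
  | zero =>
    intro σ D hD
    simp only [pow_zero, Matrix.one_apply, ite_mul, one_mul, zero_mul, Finset.sum_ite_eq,
      Finset.mem_univ, if_true]
    unfold hh
    by_cases hc : D.card = 0
    · rw [if_pos hc]; split_ifs <;> norm_num
    · rw [if_neg hc]
      obtain ⟨v, hv⟩ := Finset.card_pos.mp (Nat.pos_of_ne_zero hc)
      rw [if_pos (hA σ ⟨v, hD v hv⟩)]
  | succ t ih =>
    intro σ D hD
    rw [pow_succ_sum, Fintype.card_fin, le_div_iff₀ (by positivity)]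
    have h1 : ∀ m : Fin 4 × Fin q, (if m.1 ∈ D then hh t (D.card - 1) else hh t D.card) ≤
        ∑ τ, (P P4 q ^ t) (step P4 q σ m) τ * (if τ ∈ A then (1:ℝ) else 0) := by
      intro m
      by_cases hm : m.1 ∈ D
      · rw [if_pos hm, ← Finset.card_erase_of_mem hm]
        apply ih
        intro v hv
        rw [step_off σ m v (Finset.ne_of_mem_erase hv)]
        exact hD v (Finset.mem_of_mem_erase hv)
      · rw [if_neg hm]
        apply ih
        intro v hv
        rw [step_off σ m v (fun h => hm (h ▸ hv))]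
        exact hD v hv
    refine le_trans (le_of_eq ?_) (Finset.sum_le_sum (fun m _ => h1 m))
    rw [Fintype.sum_prod_type]
    have hx : ∀ x : Fin 4, (∑ y : Fin q, (if ((x, y) : Fin 4 × Fin q).1 ∈ D then
        hh t (D.card - 1) else hh t D.card)) =
        (q : ℝ) * (if x ∈ D then hh t (D.card - 1) else hh t D.card) := by
      intro x
      show (∑ y : Fin q, (if x ∈ D then hh t (D.card - 1) else hh t D.card)) = _
      rw [Finset.sum_const, Finset.card_univ, Fintype.card_fin, nsmul_eq_mul]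
    rw [Finset.sum_congr rfl (fun x _ => hx x), ← Finset.mul_sum, Finset.sum_ite]
    simp only [Finset.sum_const, nsmul_eq_mul]
    have c1 : (Finset.univ.filter (fun v : Fin 4 => v ∈ D)).card = D.card := by
      congr 1; ext v; simp
    have c2 : (Finset.univ.filter (fun v : Fin 4 => ¬ v ∈ D)).card = 4 - D.card := by
      have := Finset.card_filter_add_card_filter_not (s := (Finset.univ : Finset (Fin 4)))
        (fun v : Fin 4 => v ∈ D)
      rw [c1, Finset.card_univ, Fintype.card_fin] at this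
      omega
    have hle : D.card ≤ 4 := by simpa using Finset.card_le_univ D
    rw [c1, c2, Nat.cast_sub hle]
    have hrec : hh (t + 1) D.card =
        ((4 - (D.card : ℝ)) * hh t D.card + D.card * hh t (D.card - 1)) / 4 := rfl
    rw [hrec]
    push_cast
    ring

/-- a set of functions `Fin 4 → Fin q` that is determined off one vertex is small -/
theorem card_le_cube {q : ℕ} (v : Fin 4) (B : Finset (Fin 4 → Fin q))
    (h : ∀ f ∈ B, ∀ g ∈ B, (∀ w, w ≠ v → f w = g w) → f = g) : B.card ≤ q ^ 3 := by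
  classical
  have h1 : B.card ≤ Fintype.card ({w : Fin 4 // w ≠ v} → Fin q) := by
    rw [← Finset.card_univ]
    refine Finset.card_le_card_of_injOn (fun f w => f w.1) (fun _ _ => Finset.mem_univ _) ?_
    intro f hf g hg hfg
    exact h f hf g hg (fun w hw => congrFun hfg ⟨w, hw⟩)
  refine le_trans h1 (le_of_eq ?_)
  rw [Fintype.card_fun, Fintype.card_fin]
  congr 1
  rw [Fintype.card_subtype_compl]
  simp

theorem card_col_lower (q : ℕ) : q ^ 4 ≤ Fintype.card (Col P4 q) + 3 * q ^ 3 := by
  classical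
  have h0 : (Finset.univ : Finset (Fin 4 → Fin q)).card = q ^ 4 := by
    rw [Finset.card_univ, Fintype.card_fun, Fintype.card_fin, Fintype.card_fin]
  set B : Fin 3 → Finset (Fin 4 → Fin q) :=
    fun i => Finset.univ.filter (fun f => f i.castSucc = f i.succ) with hB
  have hcover : (Finset.univ : Finset (Fin 4 → Fin q)) ⊆
      (Finset.univ.image (fun τ : Col P4 q => τ.col)) ∪ (Finset.univ.biUnion B) := by
    intro f _
    rw [Finset.mem_union, Finset.mem_image, Finset.mem_biUnion]
    by_cases hf : f 0 ≠ f 1 ∧ f 1 ≠ f 2 ∧ f 2 ≠ f 3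
    · left
      exact ⟨⟨f, (proper_iff _).mpr hf⟩, Finset.mem_univ _, rfl⟩
    · right
      by_cases e0 : f 0 = f 1
      · exact ⟨0, Finset.mem_univ _, by simp [hB, e0]⟩
      · by_cases e1 : f 1 = f 2
        · refine ⟨1, Finset.mem_univ _, ?_⟩
          simp only [hB, Finset.mem_filter, Finset.mem_univ, true_and]
          exact e1
        · refine ⟨2, Finset.mem_univ _, ?_⟩
          simp only [hB, Finset.mem_filter, Finset.mem_univ, true_and]
          by_contra e2
          exact hf ⟨e0, e1, e2⟩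
  have h1 := Finset.card_le_card hcover
  rw [h0] at h1
  have h2 : ∀ i, (B i).card ≤ q ^ 3 := by
    intro i
    apply card_le_cube i.castSucc
    intro f hf g hg hfg
    simp only [hB, Finset.mem_filter, Finset.mem_univ, true_and] at hf hg
    funext w
    by_cases hw : w = i.castSucc
    · rw [hw, hf, hg]
      exact hfg _ (Fin.castSucc_lt_succ).ne'
    · exact hfg w hw
  calc q ^ 4 ≤ _ := h1
    _ ≤ _ := Finset.card_union_le _ _
    _ ≤ Fintype.card (Col P4 q) + 3 * q ^ 3 := by
      apply Nat.add_le_add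
      · exact Finset.card_image_le
      · refine le_trans Finset.card_biUnion_le ?_
        refine le_trans (Finset.sum_le_sum (fun i _ => h2 i)) ?_
        simp

theorem card_hit (q : ℕ) (σ0 : Col P4 q) (A : Finset (Col P4 q))
    (hA : ∀ τ ∈ A, ∃ v, τ.col v = σ0.col v) : A.card ≤ 4 * q ^ 3 := by
  classical
  set B : Fin 4 → Finset (Fin 4 → Fin q) :=
    fun i => Finset.univ.filter (fun f => f i = σ0.col i) with hB
  have h1 : A.card ≤ (Finset.univ.biUnion B).card := by
    refine Finset.card_le_card_of_injOn (fun τ => τ.col) ?_ ?_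
    · intro τ hτ
      obtain ⟨v, hv⟩ := hA τ hτ
      simp only [Finset.coe_biUnion, Set.mem_iUnion]
      refine ⟨v, by simp, ?_⟩
      simp [hB, hv]
    · intro a _ b _ hab
      exact Col.ext hab
  have h2 : ∀ i, (B i).card ≤ q ^ 3 := by
    intro i
    apply card_le_cube i
    intro f hf g hg hfg
    simp only [hB, Finset.mem_filter, Finset.mem_univ, true_and] at hf hg
    funext w
    by_cases hw : w = i
    · rw [hw, hf, hg]
    · exact hfg w hw
  refine le_trans h1 (le_trans Finset.card_biUnion_le ?_)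
  refine le_trans (Finset.sum_le_sum (fun i _ => h2 i)) ?_
  simp

/-- a proper colouring for every `q ≥ 2` -/
def sigma0 (q : ℕ) (hq : 2 ≤ q) : Col P4 q where
  col := ![⟨0, by omega⟩, ⟨1, by omega⟩, ⟨0, by omega⟩, ⟨1, by omega⟩]
  proper := by
    rw [proper_iff]
    simp [Fin.ext_iff]

theorem lower (q : ℕ) (hq : 1000 ≤ q) (t : ℕ) (ht : t ≤ 8) :
    Real.exp (-1) < tv P4 q t (sigma0 q (by omega)) := by
  classical
  set σ0 := sigma0 q (by omega) with hσ
  have : Nonempty (Col P4 q) := ⟨σ0⟩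
  set A : Finset (Col P4 q) := Finset.univ.filter (fun τ => ∃ v, τ.col v = σ0.col v) with hA
  have h1 := tv_lower P4 q (by simp) (by omega) t σ0 A
  have h2 := hit_lower (by omega : 0 < q) σ0 A (by intro τ h; simp [hA, h]) t σ0 Finset.univ
    (fun _ _ => rfl)
  have h3 : hh t (Finset.univ : Finset (Fin 4)).card = hh t 4 := by simp
  rw [h3] at h2
  have h4 := hh_lower t ht
  have h5 : A.card ≤ 4 * q ^ 3 := card_hit q σ0 A (by intro τ h; simpa [hA] using h)
  have h6 := card_col_lower q
  have hq' : (1000:ℝ) ≤ q := by exact_mod_cast hq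
  have h5' : (A.card : ℝ) ≤ 4 * (q:ℝ) ^ 3 := by exact_mod_cast h5
  have h6' : (q:ℝ) ^ 4 - 3 * (q:ℝ) ^ 3 ≤ Fintype.card (Col P4 q) := by
    have : ((q ^ 4 : ℕ) : ℝ) ≤ ((Fintype.card (Col P4 q) + 3 * q ^ 3 : ℕ) : ℝ) := by
      exact_mod_cast h6
    push_cast at this
    linarith
  have hq3 : (0:ℝ) < (q:ℝ) ^ 3 := by positivity
  have h7 : (997 : ℝ) * (q:ℝ) ^ 3 ≤ Fintype.card (Col P4 q) := by
    refine le_trans ?_ h6'
    have : (q:ℝ) ^ 4 - 3 * (q:ℝ) ^ 3 = ((q:ℝ) - 3) * (q:ℝ) ^ 3 := by ring
    rw [this]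
    exact mul_le_mul_of_nonneg_right (by linarith) hq3.le
  have hcpos : (0:ℝ) < Fintype.card (Col P4 q) := lt_of_lt_of_le (by positivity) h7
  have h8 : (A.card : ℝ) / Fintype.card (Col P4 q) ≤ 4 / 997 := by
    rw [div_le_div_iff₀ hcpos (by norm_num)]
    nlinarith
  have hexp : Real.exp (-1) < 0.368 := by
    rw [Real.exp_neg]
    have h1 := Real.exp_one_gt_d9
    rw [inv_lt_comm₀ (Real.exp_pos 1) (by norm_num)]
    refine lt_of_le_of_lt ?_ h1
    norm_num
  have h9 : (4:ℝ) / 997 < 0.0041 := by norm_num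
  linarith

end GlauberMono
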