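import Pool.Agent.Helper29.GlauberDefs
import Pool.Agent.Helper29.GlauberKer

namespace GlauberMono

/-- the path on four vertices -/
abbrev P4 : SimpleGraph (Fin 4) := SimpleGraph.pathGraph 4

theorem proper_iff {α : Type*} (f : Fin 4 → α) :
    (∀ u v, P4.Adj u v → f u ≠ f v) ↔ (f 0 ≠ f 1 ∧ f 1 ≠ f 2 ∧ f 2 ≠ f 3) := by
  constructor
  · intro h
    refine ⟨h 0 1 ?_, h 1 2 ?_, h 2 3 ?_⟩ <;> simp [SimpleGraph.pathGraph_adj]
  · rintro ⟨h1, h2, h3⟩ u v huv
    rw [SimpleGraph.pathGraph_adj] at huv
    fin_cases u <;> fin_cases v <;>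
      first
        | exact absurd huv (by decide)
        | exact h1
        | exact h1.symm
        | exact h2
        | exact h2.symm
        | exact h3
        | exact h3.symm

theorem sum7_eq (f : ℕ → ℕ) : sum7 f = ∑ c : Fin 7, f c := by
  simp [sum7, Fin.sum_univ_succ]
  ring

theorem all7_iff (f : ℕ → Bool) : all7 f = true ↔ ∀ c : Fin 7, f c = true := by
  simp [all7, Fin.forall_fin_succ]
  tauto

/-- sum over all functions as an iterated sum -/
def fun4Equiv (α : Type*) : (Fin 4 → α) ≃ α × α × α × α where
  toFun f := (f 3, f 2, f 1, f 0)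
  invFun p := ![p.2.2.2, p.2.2.1, p.2.1, p.1]
  left_inv f := by funext i; fin_cases i <;> rfl
  right_inv p := rfl

theorem sum_col7 {M : Type*} [AddCommMonoid M] (h : Fin 7 → Fin 7 → Fin 7 → Fin 7 → M) :
    ∑ τ : Col P4 7, h (τ.col 0) (τ.col 1) (τ.col 2) (τ.col 3) =
      ∑ x3 : Fin 7, ∑ x2 : Fin 7, ∑ x1 : Fin 7, ∑ x0 : Fin 7,
        if (x0 ≠ x1 ∧ x1 ≠ x2 ∧ x2 ≠ x3) then h x0 x1 x2 x3 else 0 := by
  classical
  have e1 : ∑ τ : Col P4 7, h (τ.col 0) (τ.col 1) (τ.col 2) (τ.col 3) =
      ∑ f ∈ Finset.univ.filter (fun f : Fin 4 → Fin 7 => f 0 ≠ f 1 ∧ f 1 ≠ f 2 ∧ f 2 ≠ f 3),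
        h (f 0) (f 1) (f 2) (f 3) := by
    refine Finset.sum_bij (fun τ _ => τ.col) ?_ ?_ ?_ ?_
    · intro τ _
      simp only [Finset.mem_filter, Finset.mem_univ, true_and]
      exact (proper_iff _).mp τ.proper
    · intro a _ b _ hab; exact Col.ext hab
    · intro f hf
      simp only [Finset.mem_filter, Finset.mem_univ, true_and] at hf
      exact ⟨⟨f, (proper_iff _).mpr hf⟩, Finset.mem_univ _, rfl⟩
    · intro τ _; rfl
  rw [e1, Finset.sum_filter, ← Equiv.sum_comp (fun4Equiv (Fin 7)).symm, Fintype.sum_prod_type]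
  refine Finset.sum_congr rfl (fun x3 _ => ?_)
  rw [Fintype.sum_prod_type]
  refine Finset.sum_congr rfl (fun x2 _ => ?_)
  rw [Fintype.sum_prod_type]
  rfl

theorem prop4_iff (x0 x1 x2 x3 : Fin 7) :
    prop4 x0 x1 x2 x3 = true ↔ (x0 ≠ x1 ∧ x1 ≠ x2 ∧ x2 ≠ x3) := by
  revert x0 x1 x2 x3
  decide +kernel

theorem card7 : Fintype.card (Col P4 7) = 1512 := by
  have h := sum_col7 (fun _ _ _ _ => (1:ℕ))
  rw [Finset.sum_const, Finset.card_univ, smul_eq_mul, mul_one] at h
  rw [h, ← tot1]
  simp only [sum7_eq]
  refine Finset.sum_congr rfl (fun x3 _ => Finset.sum_congr rfl (fun x2 _ =>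
    Finset.sum_congr rfl (fun x1 _ => Finset.sum_congr rfl (fun x0 _ => ?_))))
  by_cases hp : (x0 ≠ x1 ∧ x1 ≠ x2 ∧ x2 ≠ x3)
  · rw [if_pos hp, (prop4_iff x0 x1 x2 x3).mpr hp]; rfl
  · have : prop4 x0 x1 x2 x3 = false := by
      rw [← Bool.not_eq_true, prop4_iff]; exact hp
    rw [if_neg hp, this]; rfl

/-- value of a packed table at a colouring -/
def val (T : ℕ) (τ : Col P4 7) : ℕ := W T (τ.col 0) (τ.col 1) (τ.col 2) (τ.col 3)

/-- the packed table vanishes off proper colourings -/
def Good (T : ℕ) : Prop :=
  ∀ x0 x1 x2 x3 : Fin 7, ¬ (x0 ≠ x1 ∧ x1 ≠ x2 ∧ x2 ≠ x3) → W T x0 x1 x2 x3 = 0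

theorem sum_ite_aux (p : Fin 7 → Prop) [DecidablePred p] (w : Fin 7 → ℕ) (a : ℕ)
    (h : ∀ c, p c → w c = 0) :
    ∑ c, (if p c then a else w c) = ∑ c, w c + (Finset.univ.filter p).card * a := by
  have : ∀ c, (if p c then a else w c) = w c + (if p c then a else 0) := by
    intro c
    split_ifs with hc
    · rw [h c hc, zero_add]
    · rw [add_zero]
  rw [Finset.sum_congr rfl (fun c _ => this c), Finset.sum_add_distrib]
  congr 1
  rw [← Finset.sum_filter, Finset.sum_const, smul_eq_mul]

theorem val_step (T : ℕ) (hT : Good T) (τ : Col P4 7) :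
    ∑ m : Fin 4 × Fin 7, val T (step P4 7 τ m) =
      S T (τ.col 0) (τ.col 1) (τ.col 2) (τ.col 3) := by
  rw [Fintype.sum_prod_type, Fin.sum_univ_four]
  obtain ⟨h01, h12, h23⟩ := (proper_iff _).mp τ.proper
  have key : ∀ (v : Fin 4) (c : Fin 7), val T (step P4 7 τ (v, c)) =
      if (Function.update τ.col v c 0 ≠ Function.update τ.col v c 1 ∧
        Function.update τ.col v c 1 ≠ Function.update τ.col v c 2 ∧
        Function.update τ.col v c 2 ≠ Function.update τ.col v c 3) then
        W T (Function.update τ.col v c 0) (Function.update τ.col v c 1)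
          (Function.update τ.col v c 2) (Function.update τ.col v c 3)
      else val T τ := by
    intro v c
    by_cases hp : ∀ a b, P4.Adj a b →
      Function.update τ.col v c a ≠ Function.update τ.col v c b
    · rw [if_pos ((proper_iff _).mp hp)]
      unfold val
      rw [step_proper P4 7 (m := (v, c)) hp]
    · rw [if_neg (fun h => hp ((proper_iff _).mpr h)), step_improper P4 7 (m := (v, c)) hp]
  simp only [key]
  set a := τ.col 0 with ha
  set b := τ.col 1 with hb
  set c := τ.col 2 with hc
  set d := τ.col 3 with hd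
  have hv : val T τ = W T a b c d := rfl
  have card1 : ∀ u : Fin 7, (Finset.univ.filter (fun x : Fin 7 => x = u)).card = 1 := by decide
  rw [hv]
  have e0 : ∑ x : Fin 7, (if (Function.update τ.col 0 x 0 ≠ Function.update τ.col 0 x 1 ∧
        Function.update τ.col 0 x 1 ≠ Function.update τ.col 0 x 2 ∧
        Function.update τ.col 0 x 2 ≠ Function.update τ.col 0 x 3) then
        W T (Function.update τ.col 0 x 0) (Function.update τ.col 0 x 1)
          (Function.update τ.col 0 x 2) (Function.update τ.col 0 x 3)
      else W T a b c d) = M0 T b c d + W T a b c d := by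
    have : ∀ x : Fin 7, (if (Function.update τ.col 0 x 0 ≠ Function.update τ.col 0 x 1 ∧
        Function.update τ.col 0 x 1 ≠ Function.update τ.col 0 x 2 ∧
        Function.update τ.col 0 x 2 ≠ Function.update τ.col 0 x 3) then
        W T (Function.update τ.col 0 x 0) (Function.update τ.col 0 x 1)
          (Function.update τ.col 0 x 2) (Function.update τ.col 0 x 3)
      else W T a b c d) = if x = b then W T a b c d else W T x b c d := by
      intro x
      have n1 : Function.update τ.col 0 x 0 = x := by simp
      have n2 : Function.update τ.col 0 x 1 = b := by simp [hb]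
      have n3 : Function.update τ.col 0 x 2 = c := by simp [hc]
      have n4 : Function.update τ.col 0 x 3 = d := by simp [hd]
      rw [n1, n2, n3, n4]
      by_cases hx : x = b
      · rw [if_neg (by simp [hx]), if_pos hx]
      · rw [if_pos ⟨hx, h12, h23⟩, if_neg hx]
    rw [Finset.sum_congr rfl (fun x _ => this x),
      sum_ite_aux (fun x => x = b) (fun x => W T x b c d)]
    · rw [M0, sum7_eq, card1, one_mul]
    · intro x hx
      exact hT x b c d (by simp [hx])
  have e3 : ∑ x : Fin 7, (if (Function.update τ.col 3 x 0 ≠ Function.update τ.col 3 x 1 ∧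
        Function.update τ.col 3 x 1 ≠ Function.update τ.col 3 x 2 ∧
        Function.update τ.col 3 x 2 ≠ Function.update τ.col 3 x 3) then
        W T (Function.update τ.col 3 x 0) (Function.update τ.col 3 x 1)
          (Function.update τ.col 3 x 2) (Function.update τ.col 3 x 3)
      else W T a b c d) = M3 T a b c + W T a b c d := by
    have : ∀ x : Fin 7, (if (Function.update τ.col 3 x 0 ≠ Function.update τ.col 3 x 1 ∧
        Function.update τ.col 3 x 1 ≠ Function.update τ.col 3 x 2 ∧
        Function.update τ.col 3 x 2 ≠ Function.update τ.col 3 x 3) then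
        W T (Function.update τ.col 3 x 0) (Function.update τ.col 3 x 1)
          (Function.update τ.col 3 x 2) (Function.update τ.col 3 x 3)
      else W T a b c d) = if x = c then W T a b c d else W T a b c x := by
      intro x
      have n1 : Function.update τ.col 3 x 0 = a := by simp [ha]
      have n2 : Function.update τ.col 3 x 1 = b := by simp [hb]
      have n3 : Function.update τ.col 3 x 2 = c := by simp [hc]
      have n4 : Function.update τ.col 3 x 3 = x := by simp
      rw [n1, n2, n3, n4]
      by_cases hx : x = c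
      · rw [if_neg (by simp [hx]), if_pos hx]
      · rw [if_pos ⟨h01, h12, fun h => hx h.symm⟩, if_neg hx]
    rw [Finset.sum_congr rfl (fun x _ => this x),
      sum_ite_aux (fun x => x = c) (fun x => W T a b c x)]
    · rw [M3, sum7_eq, card1, one_mul]
    · intro x hx
      exact hT a b c x (by simp [hx])
  have cardpair : ∀ u v : Fin 7, (Finset.univ.filter (fun x : Fin 7 => x = u ∨ x = v)).card =
      (bif Nat.beq (u:ℕ) (v:ℕ) then 1 else 2) := by decide
  have e1 : ∑ x : Fin 7, (if (Function.update τ.col 1 x 0 ≠ Function.update τ.col 1 x 1 ∧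
        Function.update τ.col 1 x 1 ≠ Function.update τ.col 1 x 2 ∧
        Function.update τ.col 1 x 2 ≠ Function.update τ.col 1 x 3) then
        W T (Function.update τ.col 1 x 0) (Function.update τ.col 1 x 1)
          (Function.update τ.col 1 x 2) (Function.update τ.col 1 x 3)
      else W T a b c d) = M1 T a c d + (bif Nat.beq (a:ℕ) (c:ℕ) then 1 else 2) * W T a b c d := by
    have : ∀ x : Fin 7, (if (Function.update τ.col 1 x 0 ≠ Function.update τ.col 1 x 1 ∧
        Function.update τ.col 1 x 1 ≠ Function.update τ.col 1 x 2 ∧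
        Function.update τ.col 1 x 2 ≠ Function.update τ.col 1 x 3) then
        W T (Function.update τ.col 1 x 0) (Function.update τ.col 1 x 1)
          (Function.update τ.col 1 x 2) (Function.update τ.col 1 x 3)
      else W T a b c d) = if (x = a ∨ x = c) then W T a b c d else W T a x c d := by
      intro x
      have n1 : Function.update τ.col 1 x 0 = a := by simp [ha]
      have n2 : Function.update τ.col 1 x 1 = x := by simp
      have n3 : Function.update τ.col 1 x 2 = c := by simp [hc]
      have n4 : Function.update τ.col 1 x 3 = d := by simp [hd]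
      rw [n1, n2, n3, n4]
      by_cases hx : x = a ∨ x = c
      · rw [if_neg (by rintro ⟨p, q, _⟩; rcases hx with h | h; exact p h.symm; exact q h),
          if_pos hx]
      · rw [if_pos ⟨fun h => hx (Or.inl h.symm), fun h => hx (Or.inr h), h23⟩, if_neg hx]
    rw [Finset.sum_congr rfl (fun x _ => this x),
      sum_ite_aux (fun x => x = a ∨ x = c) (fun x => W T a x c d)]
    · rw [M1, sum7_eq, cardpair]
    · intro x hx
      apply hT a x c d
      rintro ⟨p, q, _⟩
      rcases hx with h | h
      · exact p h.symm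
      · exact q h
  have e2 : ∑ x : Fin 7, (if (Function.update τ.col 2 x 0 ≠ Function.update τ.col 2 x 1 ∧
        Function.update τ.col 2 x 1 ≠ Function.update τ.col 2 x 2 ∧
        Function.update τ.col 2 x 2 ≠ Function.update τ.col 2 x 3) then
        W T (Function.update τ.col 2 x 0) (Function.update τ.col 2 x 1)
          (Function.update τ.col 2 x 2) (Function.update τ.col 2 x 3)
      else W T a b c d) = M2 T a b d + (bif Nat.beq (b:ℕ) (d:ℕ) then 1 else 2) * W T a b c d := by
    have : ∀ x : Fin 7, (if (Function.update τ.col 2 x 0 ≠ Function.update τ.col 2 x 1 ∧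
        Function.update τ.col 2 x 1 ≠ Function.update τ.col 2 x 2 ∧
        Function.update τ.col 2 x 2 ≠ Function.update τ.col 2 x 3) then
        W T (Function.update τ.col 2 x 0) (Function.update τ.col 2 x 1)
          (Function.update τ.col 2 x 2) (Function.update τ.col 2 x 3)
      else W T a b c d) = if (x = b ∨ x = d) then W T a b c d else W T a b x d := by
      intro x
      have n1 : Function.update τ.col 2 x 0 = a := by simp [ha]
      have n2 : Function.update τ.col 2 x 1 = b := by simp [hb]
      have n3 : Function.update τ.col 2 x 2 = x := by simp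
      have n4 : Function.update τ.col 2 x 3 = d := by simp [hd]
      rw [n1, n2, n3, n4]
      by_cases hx : x = b ∨ x = d
      · rw [if_neg (by rintro ⟨_, p, q⟩; rcases hx with h | h; exact p h.symm; exact q h),
          if_pos hx]
      · rw [if_pos ⟨h01, fun h => hx (Or.inl h.symm), fun h => hx (Or.inr h)⟩, if_neg hx]
    rw [Finset.sum_congr rfl (fun x _ => this x),
      sum_ite_aux (fun x => x = b ∨ x = d) (fun x => W T a b x d)]
    · rw [M2, sum7_eq, cardpair]
    · intro x hx
      apply hT a b x d
      rintro ⟨_, p, q⟩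
      rcases hx with h | h
      · exact p h.symm
      · exact q h
  rw [e0, e1, e2, e3]
  unfold S rej
  ring

end GlauberMono
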