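import Pool.Agent.Helper29.GlauberP4

namespace GlauberMono

theorem check_spec {T T' : ℕ} (h : check T T' = true) (x0 x1 x2 x3 : Fin 7) :
    (bif prop4 x0 x1 x2 x3 then Nat.beq (W T' x0 x1 x2 x3) (S T x0 x1 x2 x3)
      else Nat.beq (W T' x0 x1 x2 x3) 0) = true := by
  unfold check at h
  exact (all7_iff _).mp ((all7_iff _).mp ((all7_iff _).mp ((all7_iff _).mp h x3) x2) x1) x0

theorem check_good {T T' : ℕ} (h : check T T' = true) : Good T' := by
  intro x0 x1 x2 x3 hp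
  have h1 := check_spec h x0 x1 x2 x3
  have h2 : prop4 x0 x1 x2 x3 = false := by
    rw [← Bool.not_eq_true, prop4_iff]; exact hp
  rw [h2, cond_false] at h1
  exact Nat.eq_of_beq_eq_true h1

theorem check_val {T T' : ℕ} (h : check T T' = true) (τ : Col P4 7) :
    val T' τ = S T (τ.col 0) (τ.col 1) (τ.col 2) (τ.col 3) := by
  have h1 := check_spec h (τ.col 0) (τ.col 1) (τ.col 2) (τ.col 3)
  have h2 := (prop4_iff (τ.col 0) (τ.col 1) (τ.col 2) (τ.col 3)).mpr ((proper_iff _).mp τ.proper)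
  rw [h2, cond_true] at h1
  exact Nat.eq_of_beq_eq_true h1

/-- `T` is the table of `28 ^ t * P ^ t (σ, ·)` -/
def IsTable (σ : Col P4 7) (t T : ℕ) : Prop :=
  Good T ∧ ∀ τ, (P P4 7 ^ t) σ τ * 28 ^ t = (val T τ : ℝ)

theorem table_step {σ : Col P4 7} {t T T' : ℕ} (hT : IsTable σ t T) (hc : check T T' = true) :
    IsTable σ (t + 1) T' := by
  refine ⟨check_good hc, fun τ => ?_⟩
  rw [check_val hc, ← val_step T hT.1 τ, pow_succ_apply]
  push_cast
  rw [← Finset.sum_congr rfl (fun m _ => hT.2 (step P4 7 τ m)), ← Finset.sum_mul]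
  rw [Fintype.card_fin]
  push_cast
  rw [pow_succ]
  ring

theorem table_start {σ : Col P4 7} {a0 a1 a2 a3 : ℕ} {T : ℕ}
    (h : checkStart a0 a1 a2 a3 T = true)
    (h0 : (σ.col 0 : ℕ) = a0) (h1 : (σ.col 1 : ℕ) = a1) (h2 : (σ.col 2 : ℕ) = a2)
    (h3 : (σ.col 3 : ℕ) = a3) : IsTable σ 0 T := by
  have key : ∀ x0 x1 x2 x3 : Fin 7, W T x0 x1 x2 x3 =
      (bif (Nat.beq x0 a0 && Nat.beq x1 a1 && Nat.beq x2 a2 && Nat.beq x3 a3) then 1 else 0) := by
    intro x0 x1 x2 x3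
    unfold checkStart at h
    exact Nat.eq_of_beq_eq_true
      ((all7_iff _).mp ((all7_iff _).mp ((all7_iff _).mp ((all7_iff _).mp h x3) x2) x1) x0)
  have hiff : ∀ x0 x1 x2 x3 : Fin 7,
      (Nat.beq x0 a0 && Nat.beq x1 a1 && Nat.beq x2 a2 && Nat.beq x3 a3) = true ↔
      (x0 = σ.col 0 ∧ x1 = σ.col 1 ∧ x2 = σ.col 2 ∧ x3 = σ.col 3) := by
    intro x0 x1 x2 x3
    simp only [Bool.and_eq_true, Nat.beq_eq, Fin.ext_iff, h0, h1, h2, h3, and_assoc]
  constructor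
  · intro x0 x1 x2 x3 hp
    rw [key]
    have : (Nat.beq x0 a0 && Nat.beq x1 a1 && Nat.beq x2 a2 && Nat.beq x3 a3) = false := by
      rw [← Bool.not_eq_true, hiff]
      rintro ⟨e0, e1, e2, e3⟩
      apply hp
      rw [e0, e1, e2, e3]
      exact (proper_iff _).mp σ.proper
    rw [this]; rfl
  · intro τ
    rw [pow_zero, pow_zero, mul_one]
    unfold val
    rw [key, Matrix.one_apply]
    by_cases e : σ = τ
    · have : (Nat.beq (τ.col 0) a0 && Nat.beq (τ.col 1) a1 && Nat.beq (τ.col 2) a2 &&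
          Nat.beq (τ.col 3) a3) = true := by
        rw [hiff, e]; exact ⟨rfl, rfl, rfl, rfl⟩
      rw [if_pos e, this]; simp
    · have : (Nat.beq (τ.col 0) a0 && Nat.beq (τ.col 1) a1 && Nat.beq (τ.col 2) a2 &&
          Nat.beq (τ.col 3) a3) = false := by
        rw [← Bool.not_eq_true, hiff]
        rintro ⟨e0, e1, e2, e3⟩
        apply e
        apply Col.ext
        funext i
        fin_cases i
        · exact e0.symm
        · exact e1.symm
        · exact e2.symm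
        · exact e3.symm
      rw [if_neg e, this]; simp

theorem natdist (a b : ℕ) : (((a - b) + (b - a) : ℕ) : ℝ) = |(a : ℝ) - b| := by
  rcases le_total a b with h | h
  · have h' : (a : ℝ) ≤ b := by exact_mod_cast h
    rw [Nat.sub_eq_zero_of_le h, zero_add, abs_of_nonpos (by linarith), Nat.cast_sub h]
    ring
  · have h' : (b : ℝ) ≤ a := by exact_mod_cast h
    rw [Nat.sub_eq_zero_of_le h, add_zero, abs_of_nonneg (by linarith), Nat.cast_sub h]

theorem table_total {σ : Col P4 7} {T : ℕ} (hT : IsTable σ 8 T)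
    (hc : Nat.ble (10000 * total T) (2 * 3678 * 1512 * 28 ^ 8) = true) :
    tv P4 7 8 σ ≤ Real.exp (-1) := by
  have hc' : 10000 * total T ≤ 2 * 3678 * 1512 * 28 ^ 8 := Nat.le_of_ble_eq_true hc
  have htot : (total T : ℝ) = ∑ τ : Col P4 7, |1512 * (val T τ : ℝ) - 28 ^ 8| := by
    have e := sum_col7 (fun x0 x1 x2 x3 =>
      ((1512 * W T x0 x1 x2 x3 - 28 ^ 8) + (28 ^ 8 - 1512 * W T x0 x1 x2 x3) : ℕ))
    have e2 : total T = ∑ τ : Col P4 7,
        ((1512 * val T τ - 28 ^ 8) + (28 ^ 8 - 1512 * val T τ)) := by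
      unfold val
      rw [e]
      unfold total
      simp only [sum7_eq]
      refine Finset.sum_congr rfl (fun x3 _ => Finset.sum_congr rfl (fun x2 _ =>
        Finset.sum_congr rfl (fun x1 _ => Finset.sum_congr rfl (fun x0 _ => ?_))))
      by_cases hp : (x0 ≠ x1 ∧ x1 ≠ x2 ∧ x2 ≠ x3)
      · rw [if_pos hp, (prop4_iff x0 x1 x2 x3).mpr hp, cond_true]
      · have : prop4 x0 x1 x2 x3 = false := by
          rw [← Bool.not_eq_true, prop4_iff]; exact hp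
        rw [if_neg hp, this, cond_false]
    rw [e2, Nat.cast_sum]
    refine Finset.sum_congr rfl (fun τ _ => ?_)
    rw [natdist]
    norm_num
  have hexp : (0.3678 : ℝ) ≤ Real.exp (-1) := by
    rw [Real.exp_neg]
    have h1 := Real.exp_one_lt_d9
    have h0 := Real.exp_pos 1
    rw [le_inv_comm₀ (by norm_num) h0]
    refine le_trans h1.le ?_
    norm_num
  unfold tv
  rw [card7]
  have e3 : ∀ τ : Col P4 7, |(P P4 7 ^ 8) σ τ - 1 / ((1512 : ℕ) : ℝ)| =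
      |1512 * (val T τ : ℝ) - 28 ^ 8| / (1512 * 28 ^ 8) := by
    intro τ
    rw [← hT.2 τ]
    have hpos : (0:ℝ) < 1512 * 28 ^ 8 := by positivity
    rw [eq_div_iff (ne_of_gt hpos)]
    have h5 : |(P P4 7 ^ 8) σ τ - 1 / ((1512 : ℕ) : ℝ)| * (1512 * 28 ^ 8) =
        |((P P4 7 ^ 8) σ τ - 1 / ((1512 : ℕ) : ℝ)) * (1512 * 28 ^ 8)| := by
      rw [abs_mul, abs_of_pos hpos]
    rw [h5]
    congr 1
    push_cast
    ring
  rw [Finset.sum_congr rfl (fun τ _ => e3 τ), ← Finset.sum_div, ← htot]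
  have hc'' : (10000 : ℝ) * total T ≤ 2 * 3678 * 1512 * 28 ^ 8 := by exact_mod_cast hc'
  refine le_trans ?_ hexp
  rw [← mul_div_assoc, div_le_iff₀ (by positivity)]
  linarith

theorem tv_of_fullCheck {σ : Col P4 7} {a0 a1 a2 a3 : ℕ} (h : fullCheck a0 a1 a2 a3 = true)
    (h0 : (σ.col 0 : ℕ) = a0) (h1 : (σ.col 1 : ℕ) = a1) (h2 : (σ.col 2 : ℕ) = a2)
    (h3 : (σ.col 3 : ℕ) = a3) : tv P4 7 8 σ ≤ Real.exp (-1) := by
  unfold fullCheck at h
  simp only [Bool.and_eq_true] at h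
  obtain ⟨⟨⟨⟨⟨⟨⟨⟨⟨c0, c1⟩, c2⟩, c3⟩, c4⟩, c5⟩, c6⟩, c7⟩, c8⟩, c9⟩ := h
  have t0 := table_start c0 h0 h1 h2 h3
  have t1 := table_step t0 c1
  have t2 := table_step t1 c2
  have t3 := table_step t2 c3
  have t4 := table_step t3 c4
  have t5 := table_step t4 c5
  have t6 := table_step t5 c6
  have t7 := table_step t6 c7
  have t8 := table_step t7 c8
  exact table_total t8 c9

/-- a permutation of the colours bringing a 4-tuple of colours to canonical form -/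
def canonPerm (x0 x1 x2 x3 : Fin 7) : Equiv.Perm (Fin 7) :=
  let g1 := Equiv.swap x0 0
  let g2 := Equiv.swap (g1 x1) 1 * g1
  let y2 := g2 x2
  let g3 := if y2 = 0 ∨ y2 = 1 then g2 else Equiv.swap y2 2 * g2
  let y3 := g3 x3
  if y2 = 0 ∨ y2 = 1 then
    (if y3 = 0 ∨ y3 = 1 then g3 else Equiv.swap y3 2 * g3)
  else
    (if y3 = 0 ∨ y3 = 1 ∨ y3 = 2 then g3 else Equiv.swap y3 3 * g3)

theorem canon_spec : ∀ x0 x1 x2 x3 : Fin 7, (x0 ≠ x1 ∧ x1 ≠ x2 ∧ x2 ≠ x3) →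
    ((canonPerm x0 x1 x2 x3 x0, canonPerm x0 x1 x2 x3 x1, canonPerm x0 x1 x2 x3 x2,
      canonPerm x0 x1 x2 x3 x3) ∈
      ([(0, 1, 0, 1), (0, 1, 0, 2), (0, 1, 2, 0), (0, 1, 2, 1), (0, 1, 2, 3)] :
        List (Fin 7 × Fin 7 × Fin 7 × Fin 7))) := by
  decide +kernel

theorem upper (σ : Col P4 7) : tv P4 7 8 σ ≤ Real.exp (-1) := by
  have h := canon_spec (σ.col 0) (σ.col 1) (σ.col 2) (σ.col 3) ((proper_iff _).mp σ.proper)
  set g := canonPerm (σ.col 0) (σ.col 1) (σ.col 2) (σ.col 3) with hg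
  rw [← tv_act P4 7 g 8 σ]
  have a0 : (act P4 7 g σ).col 0 = g (σ.col 0) := rfl
  have a1 : (act P4 7 g σ).col 1 = g (σ.col 1) := rfl
  have a2 : (act P4 7 g σ).col 2 = g (σ.col 2) := rfl
  have a3 : (act P4 7 g σ).col 3 = g (σ.col 3) := rfl
  simp only [List.mem_cons, Prod.mk.injEq, List.not_mem_nil, or_false] at h
  rcases h with ⟨e0, e1, e2, e3⟩ | ⟨e0, e1, e2, e3⟩ | ⟨e0, e1, e2, e3⟩ | ⟨e0, e1, e2, e3⟩ |
    ⟨e0, e1, e2, e3⟩
  · exact tv_of_fullCheck fc0101 (by rw [a0, e0]; rfl) (by rw [a1, e1]; rfl)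
      (by rw [a2, e2]; rfl) (by rw [a3, e3]; rfl)
  · exact tv_of_fullCheck fc0102 (by rw [a0, e0]; rfl) (by rw [a1, e1]; rfl)
      (by rw [a2, e2]; rfl) (by rw [a3, e3]; rfl)
  · exact tv_of_fullCheck fc0120 (by rw [a0, e0]; rfl) (by rw [a1, e1]; rfl)
      (by rw [a2, e2]; rfl) (by rw [a3, e3]; rfl)
  · exact tv_of_fullCheck fc0121 (by rw [a0, e0]; rfl) (by rw [a1, e1]; rfl)
      (by rw [a2, e2]; rfl) (by rw [a3, e3]; rfl)
  · exact tv_of_fullCheck fc0123 (by rw [a0, e0]; rfl) (by rw [a1, e1]; rfl)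
      (by rw [a2, e2]; rfl) (by rw [a3, e3]; rfl)

end GlauberMono
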