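import Mathlib

set_option autoImplicit false

namespace Pool.Agent.Helper29.RBM43

/-! Combinatorial core: threshold codes from the 3-cube onto the even words of length 4. -/

/-- nontrivial additive quadruples `a + b = c + d` in the 3-cube (indices in binary). -/
def quads : List (ℕ × ℕ × ℕ × ℕ) :=
  [(0,3,1,2),(1,2,0,3),(4,7,5,6),(5,6,4,7),
   (0,5,1,4),(1,4,0,5),(2,7,3,6),(3,6,2,7),
   (0,6,2,4),(2,4,0,6),(1,7,3,5),(3,5,1,7),
   (0,7,1,6),(1,6,0,7),(0,7,2,5),(2,5,0,7),(0,7,3,4),(3,4,0,7),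
   (1,6,2,5),(2,5,1,6),(1,6,3,4),(3,4,1,6),(2,5,3,4),(3,4,2,5)]

def tb (n k : ℕ) : Bool := n.testBit k

def asumB (n : ℕ) : Bool :=
  quads.all fun q => !(tb n q.1 && tb n q.2.1 && !tb n q.2.2.1 && !tb n q.2.2.2)

/-- number of `k < 8` satisfying a boolean predicate. -/
def cnt (p : ℕ → Bool) : ℕ := ((List.range 8).filter p).length

def inj2 (n0 n1 : ℕ) : Bool :=
  Nat.ble (cnt fun k => tb n0 k && tb n1 k) 2 && Nat.ble (cnt fun k => tb n0 k && !tb n1 k) 2 &&
  Nat.ble (cnt fun k => !tb n0 k && tb n1 k) 2 && Nat.ble (cnt fun k => !tb n0 k && !tb n1 k) 2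

def inj3 (n0 n1 n2 : ℕ) : Bool :=
  (List.range 8).all fun k => (List.range 8).all fun l =>
    Nat.beq k l || !(tb n0 k == tb n0 l) || !(tb n1 k == tb n1 l) || !(tb n2 k == tb n2 l)

/-- `(k)` is a non-critical point of the function coded by `n`. -/
def ncrit (n k : ℕ) : Bool :=
  quads.any fun q =>
    (Nat.beq q.1 k && (tb n k == tb n q.2.2.1) && (tb n k == tb n q.2.2.2) && !(tb n k == tb n q.2.1)) ||
    (Nat.beq q.2.1 k && (tb n k == tb n q.2.2.1) && (tb n k == tb n q.2.2.2) && !(tb n k == tb n q.1))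

/-- condition at a point: the set of coordinates where the code word differs from `u`
is either a single non-critical coordinate or has three elements. -/
def okAt (n0 n1 n2 n3 : ℕ) (u0 u1 u2 u3 : Bool) (k : ℕ) : Bool :=
  let d0 := !(tb n0 k == u0)
  let d1 := !(tb n1 k == u1)
  let d2 := !(tb n2 k == u2)
  let d3 := !(tb n3 k == u3)
  (d0 && !d1 && !d2 && !d3 && ncrit n0 k) || (!d0 && d1 && !d2 && !d3 && ncrit n1 k) ||
  (!d0 && !d1 && d2 && !d3 && ncrit n2 k) || (!d0 && !d1 && !d2 && d3 && ncrit n3 k) ||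
  (d0 && d1 && d2 && !d3) || (d0 && d1 && !d2 && d3) || (d0 && !d1 && d2 && d3) || (!d0 && d1 && d2 && d3)

def concl (n0 n1 n2 n3 : ℕ) : Bool :=
  [true, false].any fun u0 => [true, false].any fun u1 => [true, false].any fun u2 =>
    (List.range 8).all fun k => okAt n0 n1 n2 n3 u0 u1 u2 (!(xor (xor u0 u1) u2)) k

def check : Bool :=
  (List.range 256).all fun n0 => !asumB n0 ||
    (List.range 256).all fun n1 => !asumB n1 || !inj2 n0 n1 ||
      (List.range 256).all fun n2 => !asumB n2 || !inj3 n0 n1 n2 ||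
        !asumB (n0 ^^^ n1 ^^^ n2) || concl n0 n1 n2 (n0 ^^^ n1 ^^^ n2)

theorem check_true : check = true := by decide +kernel

/-- vertex of the 3-cube with index `k`. -/
def hv (k : ℕ) : Fin 3 → Bool := fun i => k.testBit i

/-- parity of a word of length 4. -/
def par (v : Fin 4 → Bool) : Bool := xor (xor (v 0) (v 1)) (xor (v 2) (v 3))

def enc (f : ℕ → Bool) : ℕ :=
  (f 0).toNat + 2 * (f 1).toNat + 4 * (f 2).toNat + 8 * (f 3).toNat + 16 * (f 4).toNat +
    32 * (f 5).toNat + 64 * (f 6).toNat + 128 * (f 7).toNat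

theorem enc_aux : ∀ b0 b1 b2 b3 b4 b5 b6 b7 : Bool,
    let n := b0.toNat + 2 * b1.toNat + 4 * b2.toNat + 8 * b3.toNat + 16 * b4.toNat +
      32 * b5.toNat + 64 * b6.toNat + 128 * b7.toNat
    n < 256 ∧ n.testBit 0 = b0 ∧ n.testBit 1 = b1 ∧ n.testBit 2 = b2 ∧ n.testBit 3 = b3 ∧
      n.testBit 4 = b4 ∧ n.testBit 5 = b5 ∧ n.testBit 6 = b6 ∧ n.testBit 7 = b7 := by
  decide +kernel

theorem enc_lt (f : ℕ → Bool) : enc f < 256 := (enc_aux _ _ _ _ _ _ _ _).1

theorem tb_enc (f : ℕ → Bool) (k : ℕ) (hk : k < 8) : tb (enc f) k = f k := by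
  obtain ⟨_, h0, h1, h2, h3, h4, h5, h6, h7⟩ :=
    enc_aux (f 0) (f 1) (f 2) (f 3) (f 4) (f 5) (f 6) (f 7)
  unfold tb enc
  interval_cases k <;> assumption

theorem hv_surj : ∀ h : Fin 3 → Bool, ∃ k, k < 8 ∧ hv k = h := by
  decide +kernel

theorem quads_lt : ∀ q ∈ quads, q.1 < 8 ∧ q.2.1 < 8 ∧ q.2.2.1 < 8 ∧ q.2.2.2 < 8 := by
  decide

theorem quads_add : ∀ q ∈ quads, ∀ i : Fin 3,
    (hv q.1 i).toNat + (hv q.2.1 i).toNat = (hv q.2.2.1 i).toNat + (hv q.2.2.2 i).toNat := by
  decide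

/-- the point with index `k` is non-critical for `g`. -/
def NC (g : ℕ → Bool) (k : ℕ) : Prop :=
  ∃ q ∈ quads, (q.1 = k ∧ g k = g q.2.2.1 ∧ g k = g q.2.2.2 ∧ g k ≠ g q.2.1) ∨
    (q.2.1 = k ∧ g k = g q.2.2.1 ∧ g k = g q.2.2.2 ∧ g k ≠ g q.1)

theorem cnt_le (p : ℕ → Bool) (f2 : ℕ → Bool)
    (h : ∀ k < 8, ∀ l < 8, p k = true → p l = true → f2 k = f2 l → k = l) : cnt p ≤ 2 := by
  have h0 : (fun k => decide (p k = true)) = p := by funext k; simp
  have h1 : cnt p = ((Finset.range 8).filter (fun k => p k = true)).card := by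
    unfold cnt
    conv_lhs => rw [← h0]
    rfl
  rw [h1]
  have h2 : (Finset.univ : Finset Bool).card = 2 := rfl
  rw [← h2]
  apply Finset.card_le_card_of_injOn f2
  · intro x _
    simp
  · intro x hx y hy hxy
    simp only [Finset.coe_filter, Finset.mem_range, Set.mem_ofPred_eq] at hx hy
    exact h x hx.1 y hy.1 hx.2 hy.2 hxy

theorem comb (f : Fin 4 → ℕ → Bool)
    (hpar : ∀ k < 8, xor (xor (f 0 k) (f 1 k)) (xor (f 2 k) (f 3 k)) = false)
    (has : ∀ j, ∀ q ∈ quads, ¬ (f j q.1 = true ∧ f j q.2.1 = true ∧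
      f j q.2.2.1 = false ∧ f j q.2.2.2 = false))
    (hinj : ∀ k < 8, ∀ l < 8, f 0 k = f 0 l → f 1 k = f 1 l → f 2 k = f 2 l → k = l) :
    ∃ u : Fin 4 → Bool, par u = true ∧ ∀ k < 8,
      (∃ j, (∀ i, i ≠ j → f i k = u i) ∧ f j k ≠ u j ∧ NC (f j) k) ∨
      (∃ j, f j k = u j ∧ ∀ i, i ≠ j → f i k ≠ u i) := by
  have hc := check_true
  unfold check at hc
  rw [List.all_eq_true] at hc
  have h0 := hc (enc (f 0)) (List.mem_range.2 (enc_lt _))
  have as : ∀ j, asumB (enc (f j)) = true := by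
    intro j
    unfold asumB
    rw [List.all_eq_true]
    intro q hq
    have hl := quads_lt q hq
    have hh := has j q hq
    rw [tb_enc _ _ hl.1, tb_enc _ _ hl.2.1, tb_enc _ _ hl.2.2.1, tb_enc _ _ hl.2.2.2]
    revert hh
    cases f j q.1 <;> cases f j q.2.1 <;> cases f j q.2.2.1 <;> cases f j q.2.2.2 <;> simp
  have tb3 : ∀ k < 8, tb (enc (f 0) ^^^ enc (f 1) ^^^ enc (f 2)) k = f 3 k := by
    intro k hk
    have e0 := tb_enc (f 0) k hk
    have e1 := tb_enc (f 1) k hk
    have e2 := tb_enc (f 2) k hk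
    unfold tb at *
    rw [Nat.testBit_xor, Nat.testBit_xor, e0, e1, e2]
    have := hpar k hk
    revert this
    cases f 0 k <;> cases f 1 k <;> cases f 2 k <;> cases f 3 k <;> simp
  have as3 : asumB (enc (f 0) ^^^ enc (f 1) ^^^ enc (f 2)) = true := by
    unfold asumB
    rw [List.all_eq_true]
    intro q hq
    have hl := quads_lt q hq
    have hh := has 3 q hq
    rw [tb3 _ hl.1, tb3 _ hl.2.1, tb3 _ hl.2.2.1, tb3 _ hl.2.2.2]
    revert hh
    cases f 3 q.1 <;> cases f 3 q.2.1 <;> cases f 3 q.2.2.1 <;> cases f 3 q.2.2.2 <;> simp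
  rw [as 0] at h0
  simp only [Bool.not_true, Bool.false_or] at h0
  rw [List.all_eq_true] at h0
  have h1 := h0 (enc (f 1)) (List.mem_range.2 (enc_lt _))
  have hi2 : inj2 (enc (f 0)) (enc (f 1)) = true := by
    unfold inj2
    have key : ∀ p0 p1 : Bool, cnt (fun k => (tb (enc (f 0)) k == p0) && (tb (enc (f 1)) k == p1)) ≤ 2 := by
      intro p0 p1
      apply cnt_le _ (f 2)
      intro k hk l hl hpk hpl h2
      rw [tb_enc _ _ hk, tb_enc _ _ hk] at hpk
      rw [tb_enc _ _ hl, tb_enc _ _ hl] at hpl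
      simp only [Bool.and_eq_true, beq_iff_eq] at hpk hpl
      exact hinj k hk l hl (hpk.1.trans hpl.1.symm) (hpk.2.trans hpl.2.symm) h2
    have k1 := key true true
    have k2 := key true false
    have k3 := key false true
    have k4 := key false false
    have e1 : ∀ x : Bool, (x == true) = x := by decide
    have e2 : ∀ x : Bool, (x == false) = !x := by decide
    simp only [e1, e2] at k1 k2 k3 k4
    rw [Bool.and_eq_true, Bool.and_eq_true, Bool.and_eq_true]
    exact ⟨⟨⟨Nat.ble_eq_true_of_le k1, Nat.ble_eq_true_of_le k2⟩, Nat.ble_eq_true_of_le k3⟩,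
      Nat.ble_eq_true_of_le k4⟩
  rw [as 1, hi2] at h1
  simp only [Bool.not_true, Bool.false_or] at h1
  rw [List.all_eq_true] at h1
  have h2 := h1 (enc (f 2)) (List.mem_range.2 (enc_lt _))
  have hi3 : inj3 (enc (f 0)) (enc (f 1)) (enc (f 2)) = true := by
    unfold inj3
    rw [List.all_eq_true]
    intro k hk
    rw [List.all_eq_true]
    intro l hl
    have hk' := List.mem_range.1 hk
    have hl' := List.mem_range.1 hl
    have hh := hinj k hk' l hl'
    rw [tb_enc _ _ hk', tb_enc _ _ hk', tb_enc _ _ hk', tb_enc _ _ hl', tb_enc _ _ hl', tb_enc _ _ hl']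
    by_cases hkl : k = l
    · subst hkl
      simp
    · have : ¬ (f 0 k = f 0 l ∧ f 1 k = f 1 l ∧ f 2 k = f 2 l) := fun h => hkl (hh h.1 h.2.1 h.2.2)
      revert this
      cases f 0 k <;> cases f 0 l <;> cases f 1 k <;> cases f 1 l <;> cases f 2 k <;> cases f 2 l <;> simp
  rw [as 2, hi3, as3] at h2
  simp only [Bool.not_true, Bool.false_or] at h2
  unfold concl at h2
  simp only [List.any_eq_true, List.all_eq_true] at h2
  obtain ⟨u0, _, u1, _, u2, _, hu⟩ := h2
  refine ⟨![u0, u1, u2, !(xor (xor u0 u1) u2)], ?_, ?_⟩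
  · unfold par
    simp only [Matrix.cons_val_zero, Matrix.cons_val_one, Matrix.cons_val]
    cases u0 <;> cases u1 <;> cases u2 <;> rfl
  · intro k hk
    have hk2 := hu k (List.mem_range.2 hk)
    have nc : ∀ (n : ℕ) (g : ℕ → Bool), (∀ k < 8, tb n k = g k) → ncrit n k = true → NC g k := by
      intro n g hg hn
      unfold ncrit at hn
      rw [List.any_eq_true] at hn
      obtain ⟨q, hq, hqq⟩ := hn
      have hl := quads_lt q hq
      rw [hg k hk, hg _ hl.1, hg _ hl.2.1, hg _ hl.2.2.1, hg _ hl.2.2.2] at hqq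
      refine ⟨q, hq, ?_⟩
      simp only [Bool.or_eq_true, Bool.and_eq_true, beq_iff_eq,
        Bool.not_eq_true', beq_eq_false_iff_ne, ne_eq] at hqq
      rcases hqq with h | h
      · exact Or.inl ⟨Nat.eq_of_beq_eq_true h.1.1.1, h.1.1.2, h.1.2, h.2⟩
      · exact Or.inr ⟨Nat.eq_of_beq_eq_true h.1.1.1, h.1.1.2, h.1.2, h.2⟩
    have nc0 := nc _ (f 0) (tb_enc (f 0))
    have nc1 := nc _ (f 1) (tb_enc (f 1))
    have nc2 := nc _ (f 2) (tb_enc (f 2))
    have nc3 := nc _ (f 3) tb3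
    unfold okAt at hk2
    simp only [tb_enc _ _ hk, tb3 _ hk] at hk2
    generalize (!(xor (xor u0 u1) u2)) = u3 at hk2 ⊢
    simp only [Bool.or_eq_true, Bool.and_eq_true, Bool.not_eq_true', beq_eq_false_iff_ne,
      Bool.not_eq_false', beq_iff_eq, ne_eq] at hk2
    rcases hk2 with ((((((h | h) | h) | h) | h) | h) | h) | h
    · left
      refine ⟨0, ?_, h.1.1.1.1, nc0 h.2⟩
      intro i hi
      fin_cases i
      · exact absurd rfl hi
      · exact h.1.1.1.2
      · exact h.1.1.2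
      · exact h.1.2
    · left
      refine ⟨1, ?_, h.1.1.1.2, nc1 h.2⟩
      intro i hi
      fin_cases i
      · exact h.1.1.1.1
      · exact absurd rfl hi
      · exact h.1.1.2
      · exact h.1.2
    · left
      refine ⟨2, ?_, h.1.1.2, nc2 h.2⟩
      intro i hi
      fin_cases i
      · exact h.1.1.1.1
      · exact h.1.1.1.2
      · exact absurd rfl hi
      · exact h.1.2
    · left
      refine ⟨3, ?_, h.1.2, nc3 h.2⟩
      intro i hi
      fin_cases i
      · exact h.1.1.1.1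
      · exact h.1.1.1.2
      · exact h.1.1.2
      · exact absurd rfl hi
    · right
      refine ⟨3, h.2, ?_⟩
      intro i hi
      fin_cases i
      · exact h.1.1.1
      · exact h.1.1.2
      · exact h.1.2
      · exact absurd rfl hi
    · right
      refine ⟨2, h.1.2, ?_⟩
      intro i hi
      fin_cases i
      · exact h.1.1.1
      · exact h.1.1.2
      · exact absurd rfl hi
      · exact h.2
    · right
      refine ⟨1, h.1.1.2, ?_⟩
      intro i hi
      fin_cases i
      · exact h.1.1.1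
      · exact absurd rfl hi
      · exact h.1.2
      · exact h.2
    · right
      refine ⟨0, h.1.1.1, ?_⟩
      intro i hi
      fin_cases i
      · exact absurd rfl hi
      · exact h.1.1.2
      · exact h.1.2
      · exact h.2

end Pool.Agent.Helper29.RBM43
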