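import Pool.Agent.Helper29.RBM43a

set_option autoImplicit false

namespace Pool.Agent.Helper29.RBM43

open Finset

variable (W : Fin 3 → Fin 4 → ℝ) (b : Fin 4 → ℝ) (c : Fin 3 → ℝ)

/-- the exponent in the RBM weight. -/
noncomputable def E (h : Fin 3 → Bool) (v : Fin 4 → Bool) : ℝ :=
  ∑ i : Fin 3, ∑ j : Fin 4,
    W i j * (if h i then (1:ℝ) else 0) * (if v j then (1:ℝ) else 0)
    + ∑ j : Fin 4, b j * (if v j then (1:ℝ) else 0)
    + ∑ i : Fin 3, c i * (if h i then (1:ℝ) else 0)

noncomputable def A (j : Fin 4) (h : Fin 3 → Bool) : ℝ :=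
  b j + ∑ i : Fin 3, W i j * (if h i then (1:ℝ) else 0)

noncomputable def C (h : Fin 3 → Bool) : ℝ := ∑ i : Fin 3, c i * (if h i then (1:ℝ) else 0)

/-- `t j h x`: contribution of coordinate `j` when the visible bit is `x`. -/
noncomputable def ph (j : Fin 4) (h : Fin 3 → Bool) (x : Bool) : ℝ :=
  A W b j h * (if x then (1:ℝ) else 0)

theorem E_eq (h : Fin 3 → Bool) (v : Fin 4 → Bool) :
    E W b c h v = ph W b 0 h (v 0) + ph W b 1 h (v 1) + ph W b 2 h (v 2) + ph W b 3 h (v 3) + C c h := by
  unfold E ph A C
  simp only [Fin.sum_univ_three, Fin.sum_univ_four]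
  ring

theorem A_add (j : Fin 4) (h h1 h2 h3 : Fin 3 → Bool)
    (hh : ∀ i, (h i).toNat + (h1 i).toNat = (h2 i).toNat + (h3 i).toNat) :
    A W b j h + A W b j h1 = A W b j h2 + A W b j h3 := by
  unfold A
  have key : ∀ i, (if h i then (1:ℝ) else 0) + (if h1 i then (1:ℝ) else 0)
      = (if h2 i then (1:ℝ) else 0) + (if h3 i then (1:ℝ) else 0) := by
    intro i
    have := hh i
    revert this
    cases h i <;> cases h1 i <;> cases h2 i <;> cases h3 i <;> simp
  simp only [Fin.sum_univ_three]
  linear_combination (W 0 j) * key 0 + (W 1 j) * key 1 + (W 2 j) * key 2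

/-- sign-normalised field. -/
noncomputable def t (j : Fin 4) (h : Fin 3 → Bool) (x : Bool) : ℝ :=
  if x then - A W b j h else A W b j h

theorem ph_flip (j : Fin 4) (h : Fin 3 → Bool) (x y : Bool) (hxy : x ≠ y) :
    ph W b j h y = ph W b j h x + t W b j h x := by
  unfold ph t
  revert hxy
  cases x <;> cases y <;> simp

/-- the target distribution. -/
noncomputable def q0 (v : Fin 4 → Bool) : ℝ :=
  if par v = true then 1/10000 else 1/8 - 1/10000

theorem q0_nonneg (v : Fin 4 → Bool) : 0 ≤ q0 v := by
  unfold q0; split_ifs <;> norm_num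

theorem q0_sum : ∑ v, q0 v = 1 := by
  unfold q0
  rw [Finset.sum_ite]
  simp only [Finset.sum_const, nsmul_eq_mul]
  have h1 : (Finset.univ.filter (fun v : Fin 4 → Bool => par v = true)).card = 8 := by decide +kernel
  have h2 : (Finset.univ.filter (fun v : Fin 4 → Bool => ¬ par v = true)).card = 8 := by decide +kernel
  rw [h1, h2]
  norm_num

theorem par_update : ∀ (v v' : Fin 4 → Bool) (j : Fin 4), v j ≠ v' j →
    par (Function.update v j (v' j)) = !par v := by
  decide +kernel

theorem card_even : (Finset.univ.filter (fun v : Fin 4 → Bool => par v = false)).card = 8 := by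
  decide +kernel

theorem parity_odd : ∀ (v u : Fin 4 → Bool) (j : Fin 4), (∀ i, i ≠ j → v i = u i) → v j ≠ u j →
    u = Function.update v j (!(v j)) := by
  decide +kernel

/-- exchanging one coordinate between two words. -/
theorem E_swap (h : Fin 3 → Bool) (v v' : Fin 4 → Bool) (j : Fin 4) :
    E W b c h v + E W b c h v' =
      E W b c h (Function.update v j (v' j)) + E W b c h (Function.update v' j (v j)) := by
  rw [E_eq, E_eq, E_eq, E_eq]
  fin_cases j <;> simp [Function.update] <;> ring

theorem E_flip (h : Fin 3 → Bool) (v : Fin 4 → Bool) (j : Fin 4) :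
    E W b c h (Function.update v j (!(v j))) = E W b c h v + t W b j h (v j) := by
  have hne : v j ≠ !(v j) := by cases v j <;> simp
  have := ph_flip W b j h (v j) (!(v j)) hne
  rw [E_eq, E_eq]
  fin_cases j <;> simp [Function.update] at this ⊢ <;> linarith

/-- flipping three coordinates. -/
theorem E_flip3 (h : Fin 3 → Bool) (v u : Fin 4 → Bool) (j : Fin 4)
    (h1 : v j = u j) (h2 : ∀ i, i ≠ j → v i ≠ u i) :
    ∃ i1 i2 i3 : Fin 4, E W b c h u =
      E W b c h v + t W b i1 h (v i1) + t W b i2 h (v i2) + t W b i3 h (v i3) := by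
  rw [E_eq, E_eq]
  have e : ∀ i, i ≠ j → ph W b i h (u i) = ph W b i h (v i) + t W b i h (v i) :=
    fun i hi => ph_flip W b i h (v i) (u i) (h2 i hi)
  fin_cases j
  · refine ⟨1, 2, 3, ?_⟩
    rw [e 1 (by decide), e 2 (by decide), e 3 (by decide)]
    have : v 0 = u 0 := h1
    rw [this]; ring
  · refine ⟨0, 2, 3, ?_⟩
    rw [e 0 (by decide), e 2 (by decide), e 3 (by decide)]
    have : v 1 = u 1 := h1
    rw [this]; ring
  · refine ⟨0, 1, 3, ?_⟩
    rw [e 0 (by decide), e 1 (by decide), e 3 (by decide)]
    have : v 2 = u 2 := h1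
    rw [this]; ring
  · refine ⟨0, 1, 2, ?_⟩
    rw [e 0 (by decide), e 1 (by decide), e 2 (by decide)]
    have : v 3 = u 3 := h1
    rw [this]; ring

theorem far (W : Fin 3 → Fin 4 → ℝ) (b : Fin 4 → ℝ) (c : Fin 3 → ℝ)
    (hclose : ∀ v : Fin 4 → Bool,
      |(∑ h : Fin 3 → Bool, Real.exp (E W b c h v)) /
        (∑ v' : Fin 4 → Bool, ∑ h : Fin 3 → Bool, Real.exp (E W b c h v')) - q0 v| < 1/100000) :
    False := by
  set Z : ℝ := ∑ v' : Fin 4 → Bool, ∑ h : Fin 3 → Bool, Real.exp (E W b c h v') with hZ
  have Zpos : 0 < Z := by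
    rw [hZ]
    apply Finset.sum_pos
    · intro v _
      apply Finset.sum_pos
      · intro h _
        exact Real.exp_pos _
      · exact Finset.univ_nonempty
    · exact Finset.univ_nonempty
  -- normalised weights
  set g : (Fin 3 → Bool) → (Fin 4 → Bool) → ℝ := fun h v => Real.exp (E W b c h v) / Z with hg
  have gpos : ∀ h v, 0 < g h v := fun h v => div_pos (Real.exp_pos _) Zpos
  have psum : ∀ v, (∑ h : Fin 3 → Bool, Real.exp (E W b c h v)) / Z = ∑ h, g h v := by
    intro v
    rw [hg, Finset.sum_div]
  have hcl : ∀ v, |∑ h, g h v - q0 v| < 1/100000 := by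
    intro v
    rw [← psum]
    exact hclose v
  have gle1 : ∀ h v, g h v ≤ 1 := by
    intro h v
    rw [hg]
    simp only
    rw [div_le_one Zpos, hZ]
    calc Real.exp (E W b c h v) ≤ ∑ h : Fin 3 → Bool, Real.exp (E W b c h v) :=
          Finset.single_le_sum (f := fun h => Real.exp (E W b c h v))
            (fun _ _ => (Real.exp_pos _).le) (Finset.mem_univ h)
      _ ≤ _ := Finset.single_le_sum (f := fun v => ∑ h : Fin 3 → Bool, Real.exp (E W b c h v))
            (fun _ _ => Finset.sum_nonneg fun _ _ => (Real.exp_pos _).le) (Finset.mem_univ v)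
  have gle : ∀ h v, g h v ≤ ∑ h, g h v := by
    intro h v
    exact Finset.single_le_sum (f := fun h => g h v) (fun _ _ => (gpos _ _).le) (Finset.mem_univ h)
  -- odd words are rare
  have godd : ∀ h v, par v = true → g h v ≤ 11/100000 := by
    intro h v hv
    have h1 := hcl v
    have h2 : q0 v = 1/10000 := by unfold q0; rw [if_pos hv]
    rw [h2] at h1
    have := (abs_lt.1 h1).2
    have := gle h v
    linarith
  -- every even word is produced by some hidden state
  have hex : ∀ v, par v = false → ∃ h, 1/65 ≤ g h v := by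
    intro v hv
    by_contra hcon
    push Not at hcon
    have h1 := hcl v
    have h2 : q0 v = 1/8 - 1/10000 := by unfold q0; rw [if_neg (by simp [hv])]
    rw [h2] at h1
    have h3 := (abs_lt.1 h1).1
    have h4 : ∑ h, g h v ≤ ∑ _h : Fin 3 → Bool, (1/65 : ℝ) :=
      Finset.sum_le_sum (fun h _ => (hcon h).le)
    simp only [Finset.sum_const, Finset.card_univ, Fintype.card_pi, Fintype.card_bool,
      Finset.prod_const, Fintype.card_fin, nsmul_eq_mul] at h4
    norm_num at h4 h3
    linarith
  have hex' : ∀ v, ∃ h, par v = false → 1/65 ≤ g h v := by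
    intro v
    by_cases hv : par v = false
    · obtain ⟨h, hh⟩ := hex v hv
      exact ⟨h, fun _ => hh⟩
    · exact ⟨fun _ => true, fun h => absurd h hv⟩
  choose H hH using hex'
  have gmul : ∀ h v v' (j : Fin 4), g h v * g h v' =
      g h (Function.update v j (v' j)) * g h (Function.update v' j (v j)) := by
    intro h v v' j
    rw [hg]
    simp only
    rw [div_mul_div_comm, div_mul_div_comm, ← Real.exp_add, ← Real.exp_add, E_swap W b c h v v' j]
  have injH : ∀ v v', par v = false → par v' = false → H v = H v' → v = v' := by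
    intro v v' hv hv' hvv
    by_contra hne
    obtain ⟨j, hj⟩ : ∃ j, v j ≠ v' j := by
      by_contra hcon
      push Not at hcon
      exact hne (funext hcon)
    have e1 := hH v hv
    have e2 := hH v' hv'
    rw [← hvv] at e2
    have e3 := gmul (H v) v v' j
    have o1 : par (Function.update v j (v' j)) = true := by
      rw [par_update v v' j hj, hv]; rfl
    have o2 : par (Function.update v' j (v j)) = true := by
      rw [par_update v' v j (Ne.symm hj), hv']; rfl
    have f1 := godd (H v) _ o1
    have f2 := godd (H v) _ o2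
    have g1 := gpos (H v) (Function.update v j (v' j))
    have g2 := gpos (H v) (Function.update v' j (v j))
    have l1 : (1/65 : ℝ) * (1/65) ≤ g (H v) v * g (H v) v' :=
      mul_le_mul e1 e2 (by norm_num) (gpos _ _).le
    have l2 : g (H v) (Function.update v j (v' j)) * g (H v) (Function.update v' j (v j)) ≤
        (11/100000) * (11/100000) := mul_le_mul f1 f2 g2.le (by norm_num)
    rw [e3] at l1
    norm_num at l1 l2
    linarith
  -- surjectivity of H on even words
  have surj : ∀ h, ∃ v, par v = false ∧ H v = h := by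
    have hc : ((Finset.univ.filter (fun v : Fin 4 → Bool => par v = false)).image H).card = 8 := by
      rw [Finset.card_image_of_injOn, card_even]
      intro v hv v' hv' hvv
      simp only [Finset.coe_filter, Finset.mem_univ, true_and, Set.mem_ofPred_eq] at hv hv'
      exact injH v v' hv hv' hvv
    have hu : ((Finset.univ.filter (fun v : Fin 4 → Bool => par v = false)).image H) = Finset.univ := by
      apply Finset.eq_univ_of_card
      rw [hc]
      simp
    intro h
    have : h ∈ (Finset.univ.filter (fun v : Fin 4 → Bool => par v = false)).image H := by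
      rw [hu]; exact Finset.mem_univ h
    rw [Finset.mem_image] at this
    obtain ⟨v, hv, hvh⟩ := this
    exact ⟨v, (Finset.mem_filter.1 hv).2, hvh⟩
  choose X hXe hX using surj
  have gX : ∀ h, 1/65 ≤ g h (X h) := by
    intro h
    have := hH (X h) (hXe h)
    rw [hX] at this
    exact this
  -- fields are strong
  have texp : ∀ h j, Real.exp (t W b j h (X h j)) ≤ 143/20000 := by
    intro h j
    have hne : X h j ≠ !(X h j) := by cases X h j <;> simp
    have o1 : par (Function.update (X h) j (!(X h j))) = true := by
      have := par_update (X h) (fun _ => !(X h j)) j hne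
      rw [this, hXe h]; rfl
    have f1 := godd h _ o1
    have f2 := gX h
    have e : g h (Function.update (X h) j (!(X h j))) = g h (X h) * Real.exp (t W b j h (X h j)) := by
      rw [hg]
      simp only
      rw [E_flip W b c h (X h) j, Real.exp_add]
      ring
    rw [e] at f1
    have pe := Real.exp_pos (t W b j h (X h j))
    nlinarith
  have tneg : ∀ h j, t W b j h (X h j) < 0 := by
    intro h j
    have := texp h j
    by_contra hcon
    push Not at hcon
    have := Real.one_le_exp hcon
    linarith
  -- apply the combinatorial core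
  have hcomb := comb (fun j k => X (hv k) j) ?_ ?_ ?_
  · obtain ⟨u, hu, hcase⟩ := hcomb
    have gsmall : ∀ h, g h u ≤ (143/20000)^3 := by
      intro h
      obtain ⟨k, hk, hkh⟩ := hv_surj h
      have hc := hcase k hk
      simp only [hkh] at hc
      have cube : ∀ a1 a2 a3 : ℝ, Real.exp a1 ≤ 143/20000 → Real.exp a2 ≤ 143/20000 →
          Real.exp a3 ≤ 143/20000 → Real.exp (a1 + a2 + a3) ≤ (143/20000)^3 := by
        intro a1 a2 a3 h1 h2 h3
        rw [Real.exp_add, Real.exp_add]
        have p1 := Real.exp_pos a1
        have p2 := Real.exp_pos a2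
        have p3 := Real.exp_pos a3
        calc Real.exp a1 * Real.exp a2 * Real.exp a3
            ≤ (143/20000) * (143/20000) * (143/20000) := by
              apply mul_le_mul _ h3 p3.le (by norm_num)
              exact mul_le_mul h1 h2 p2.le (by norm_num)
          _ = (143/20000)^3 := by ring
      rcases hc with ⟨j, hj1, hj2, hnc⟩ | ⟨j, hj1, hj2⟩
      · have hu' := parity_odd (X h) u j hj1 hj2
        have e : g h u = g h (X h) * Real.exp (t W b j h (X h j)) := by
          rw [hg]
          simp only
          conv_lhs => rw [hu']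
          rw [E_flip W b c h (X h) j, Real.exp_add]
          ring
        have key : Real.exp (t W b j h (X h j)) ≤ (143/20000)^3 := by
          obtain ⟨q, hq, hqq⟩ := hnc
          have ha := A_add W b j (hv q.1) (hv q.2.1) (hv q.2.2.1) (hv q.2.2.2) (quads_add q hq)
          have comp : ∀ h1 h2 h3 : Fin 3 → Bool, A W b j h + A W b j h1 = A W b j h2 + A W b j h3 →
              X h j = X h2 j → X h j = X h3 j → X h j ≠ X h1 j →
              t W b j h (X h j) = t W b j h2 (X h2 j) + t W b j h3 (X h3 j) + t W b j h1 (X h1 j) := by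
            intro h1 h2 h3 hA c2 c3 c1
            rw [← c2, ← c3]
            unfold t
            revert c1
            cases X h j <;> cases X h1 j <;> simp <;> linarith
          rcases hqq with ⟨hk1, c2, c3, c1⟩ | ⟨hk1, c2, c3, c1⟩
          · rw [hk1, hkh] at ha
            simp only [hkh] at c1 c2 c3
            rw [comp _ _ _ ha c2 c3 c1]
            exact cube _ _ _ (texp _ _) (texp _ _) (texp _ _)
          · rw [hk1, hkh, add_comm] at ha
            simp only [hkh] at c1 c2 c3
            rw [comp _ _ _ ha c2 c3 c1]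
            exact cube _ _ _ (texp _ _) (texp _ _) (texp _ _)
        rw [e]
        have := gle1 h (X h)
        have p1 := Real.exp_pos (t W b j h (X h j))
        have p2 := gpos h (X h)
        nlinarith
      · obtain ⟨i1, i2, i3, hE⟩ := E_flip3 W b c h (X h) u j hj1 hj2
        have e : g h u = g h (X h) * Real.exp (t W b i1 h (X h i1) + t W b i2 h (X h i2)
            + t W b i3 h (X h i3)) := by
          rw [hg]
          simp only
          rw [hE]
          rw [show E W b c h (X h) + t W b i1 h (X h i1) + t W b i2 h (X h i2) + t W b i3 h (X h i3)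
            = E W b c h (X h) + (t W b i1 h (X h i1) + t W b i2 h (X h i2) + t W b i3 h (X h i3)) by ring,
            Real.exp_add]
          ring
        have key := cube _ _ _ (texp h i1) (texp h i2) (texp h i3)
        rw [e]
        have := gle1 h (X h)
        have p1 := Real.exp_pos (t W b i1 h (X h i1) + t W b i2 h (X h i2) + t W b i3 h (X h i3))
        have p2 := gpos h (X h)
        nlinarith
    have h1 := hcl u
    have h2 : q0 u = 1/10000 := by unfold q0; rw [if_pos hu]
    rw [h2] at h1
    have h3 := (abs_lt.1 h1).1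
    have h4 : ∑ h, g h u ≤ ∑ _h : Fin 3 → Bool, ((143/20000)^3 : ℝ) :=
      Finset.sum_le_sum (fun h _ => gsmall h)
    simp only [Finset.sum_const, Finset.card_univ, Fintype.card_pi, Fintype.card_bool,
      Finset.prod_const, Fintype.card_fin, nsmul_eq_mul] at h4
    norm_num at h4 h3
    linarith
  · intro k _
    have := hXe (hv k)
    unfold par at this
    exact this
  · intro j q hq hcon
    obtain ⟨c1, c2, c3, c4⟩ := hcon
    have ha := A_add W b j (hv q.1) (hv q.2.1) (hv q.2.2.1) (hv q.2.2.2) (quads_add q hq)
    have t1 := tneg (hv q.1) j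
    have t2 := tneg (hv q.2.1) j
    have t3 := tneg (hv q.2.2.1) j
    have t4 := tneg (hv q.2.2.2) j
    rw [c1] at t1
    rw [c2] at t2
    rw [c3] at t3
    rw [c4] at t4
    unfold t at t1 t2 t3 t4
    simp at t1 t2 t3 t4
    linarith
  · intro k hk l hl h0 h1 h2
    have p1 := hXe (hv k)
    have p2 := hXe (hv l)
    have hXX : X (hv k) = X (hv l) := by
      have h3 : X (hv k) 3 = X (hv l) 3 := by
        unfold par at p1 p2
        rw [h0, h1, h2] at p1
        revert p1 p2
        cases X (hv l) 0 <;> cases X (hv l) 1 <;> cases X (hv l) 2 <;> cases X (hv l) 3 <;>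
          cases X (hv k) 3 <;> simp
      funext i
      fin_cases i
      · exact h0
      · exact h1
      · exact h2
      · exact h3
    have hhv : hv k = hv l := by
      rw [← hX (hv k), ← hX (hv l), hXX]
    have hvinj : ∀ k < 8, ∀ l < 8, hv k = hv l → k = l := by decide +kernel
    exact hvinj k hk l hl hhv

end Pool.Agent.Helper29.RBM43
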